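import Mathlib
import Pool.Agent.H387R2.U3
import Pool.Agent.W38.PRb

/-! Multiplicative sets: sums of two squares, and integers composed of primes in residue classes. -/

set_option autoImplicit false

namespace Pool.Agent.Y964.SE

open Finset Filter Topology
open scoped Classical

/-- many primes in a residue class -/
theorem thick_ap {q a : ℕ} (hq : 1 ≤ q) (ha : a.Coprime q) : ∃ c : ℝ, 0 < c ∧ ∃ x0 : ℕ, ∀ x : ℕ, x0 ≤ x →
    c * (x / Real.log x) ≤ (#((Icc 1 x).filter (fun p => p.Prime ∧ p % q = a % q)) : ℝ) := by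
  obtain ⟨x1, h1⟩ := Pool.Agent.H387R2.Uni.siegel
  obtain ⟨c, hc, h2⟩ := Pool.Agent.W38.PR.cheb
  have hφ : 0 < Nat.totient q := Nat.totient_pos.2 (by omega)
  have hφR : (0 : ℝ) < Nat.totient q := by exact_mod_cast hφ
  have tl := Real.tendsto_log_atTop.comp (tendsto_natCast_atTop_atTop (R := ℝ))
  have ev : ∀ᶠ x : ℕ in atTop, (1 ≤ Real.log x ∧ (q : ℝ) ≤ Real.log x ∧ 2 * Nat.totient q / c ≤ Real.log x) ∧ 2 ≤ x :=
    ((tl.eventually_ge_atTop _).and ((tl.eventually_ge_atTop _).and (tl.eventually_ge_atTop _))).and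
      (eventually_ge_atTop 2)
  obtain ⟨x2, hx2⟩ := eventually_atTop.1 ev
  refine ⟨c / (2 * Nat.totient q), by positivity, max x1 x2, fun x hx => ?_⟩
  obtain ⟨⟨y1, y2, y3⟩, y4⟩ := hx2 x ((le_max_right _ _).trans hx)
  have hx0 : (0 : ℝ) < x := by exact_mod_cast (by omega : 0 < x)
  have hlog : 0 < Real.log x := by linarith
  have h3 := h1 x ((le_max_left _ _).trans hx) q hq (by nlinarith) (a % q) (Nat.mod_lt _ (by omega))
    (by rw [Nat.Coprime, ← Nat.gcd_rec, Nat.gcd_comm]; exact ha)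
  have h4 : c * (x / Real.log x) ≤ H343E.pi1 x := by
    refine (h2 x (by exact_mod_cast y4)).trans (le_of_eq ?_)
    rw [Nat.floor_natCast]
    unfold H343E.pi1 Nat.primeCounting Nat.primeCounting'
    rw [Nat.count_eq_card_filter_range]
    congr 2
    ext p
    rw [mem_filter, mem_filter, mem_range, mem_Icc]
    constructor
    · rintro ⟨h5, h6⟩; exact ⟨⟨h6.one_lt.le, by omega⟩, h6⟩
    · rintro ⟨h5, h6⟩; exact ⟨by omega, h6⟩
  have h5 : H343E.piAP x q (a % q) ≤ (#((Icc 1 x).filter (fun p => p.Prime ∧ p % q = a % q)) : ℝ) := by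
    unfold H343E.piAP
    apply Nat.cast_le.2
    apply card_le_card
    intro p hp
    rw [mem_filter] at hp ⊢
    refine ⟨hp.1, hp.2.1, ?_⟩
    have := hp.2.2
    unfold Nat.ModEq at this
    rw [this, Nat.mod_mod]
  refine le_trans ?_ h5
  have h6 := (abs_le.1 h3).1
  have h7 : x / Real.log x ^ 6 ≤ c / (2 * Nat.totient q) * (x / Real.log x) := by
    rw [div_mul_div_comm, div_le_div_iff₀ (by positivity) (by positivity)]
    have h8 : 2 * (Nat.totient q : ℝ) ≤ c * Real.log x := by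
      rw [div_le_iff₀ hc] at y3; linarith
    have h9 : Real.log x ≤ Real.log x ^ 5 := le_self_pow₀ y1 (by norm_num)
    have h10 : 2 * (Nat.totient q : ℝ) ≤ c * Real.log x ^ 5 := h8.trans (mul_le_mul_of_nonneg_left h9 hc.le)
    calc (x : ℝ) * (2 * Nat.totient q * Real.log x) = (2 * Nat.totient q) * (x * Real.log x) := by ring
      _ ≤ (c * Real.log x ^ 5) * (x * Real.log x) := mul_le_mul_of_nonneg_right h10 (by positivity)
      _ = c * x * Real.log x ^ 6 := by ring
  have h8 : c * (x / Real.log x) / Nat.totient q ≤ H343E.pi1 x / Nat.totient q :=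
    div_le_div_of_nonneg_right h4 hφR.le
  have h9 : c * (x / Real.log x) / Nat.totient q = 2 * (c / (2 * Nat.totient q) * (x / Real.log x)) := by
    field_simp
  linarith

/-- sums of two squares: multiplicativity -/
theorem two_sq_mul {m n : ℕ} (hmn : m.Coprime n) (h0 : m * n ≠ 0) :
    (∃ x y : ℕ, m * n = x ^ 2 + y ^ 2) ↔ (∃ x y : ℕ, m = x ^ 2 + y ^ 2) ∧ ∃ x y : ℕ, n = x ^ 2 + y ^ 2 := by
  have hm0 : m ≠ 0 := left_ne_zero_of_mul h0
  have hn0 : n ≠ 0 := right_ne_zero_of_mul h0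
  have key : ∀ a b : ℕ, a ≠ 0 → b ≠ 0 → a.Coprime b → (∃ x y : ℕ, a * b = x ^ 2 + y ^ 2) →
      ∃ x y : ℕ, a = x ^ 2 + y ^ 2 := by
    intro a b ha hb hab h
    rw [Nat.eq_sq_add_sq_iff] at h ⊢
    intro q hq hq4
    have hqp := Nat.prime_of_mem_primeFactors hq
    have hqa := Nat.dvd_of_mem_primeFactors hq
    have : Fact q.Prime := ⟨hqp⟩
    have h1 := h q (Nat.mem_primeFactors.2 ⟨hqp, dvd_mul_of_dvd_left hqa _, mul_ne_zero ha hb⟩) hq4
    rw [padicValNat.mul ha hb] at h1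
    have h2 : padicValNat q b = 0 := by
      apply padicValNat.eq_zero_of_not_dvd
      intro h3
      have h4 := Nat.dvd_gcd hqa h3
      rw [hab] at h4
      exact hqp.ne_one (Nat.dvd_one.1 h4)
    rw [h2, add_zero] at h1
    exact h1
  constructor
  · intro h
    exact ⟨key m n hm0 hn0 hmn h, key n m hn0 hm0 hmn.symm (by rw [mul_comm]; exact h)⟩
  · rintro ⟨⟨x, y, h1⟩, ⟨u, v, h2⟩⟩
    exact Nat.sq_add_sq_mul h1 h2

end Pool.Agent.Y964.SE
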