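import Pool.Agent.Y964.SE.Ram
import Pool.Agent.TH926.BL.Sum

/-! Sums over a cell along the integers composed of primes of a set. -/

set_option autoImplicit false

namespace Pool.Agent.Y964.SE

open Finset Pool.Agent.H320R2.PD Pool.Agent.H499R2.ND Pool.Agent.H499R2.CO Pool.Agent.H376R2.MR
  Pool.Agent.W41.FU Pool.Agent.W41 Pool.Agent.W41.MU Pool.Agent.TH926.BL
open scoped Classical

theorem chainF (F : ℕ → Finset ℕ) (g : ℕ → ℝ) (hF : ∀ i, F (i + 1) ⊆ F i) (I : ℕ) :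
    ∑ m ∈ F 0, g m = ∑ m ∈ F I, g m + ∑ i ∈ range I, ∑ m ∈ F i \ F (i + 1), g m := by
  induction I with
  | zero => simp
  | succ I ih =>
    rw [ih, sum_range_succ, ← sum_sdiff (hF I)]
    ring

/-- one dyadic window -/
theorem dyadicW {f : ℤ → ℝ} {H v r M : ℕ} {κ ε1 : ℝ} (W : Finset ℕ) (w : ℕ → ℝ)
    (hw : ∀ p ∈ cell H v, |w p| ≤ 1)
    (hr : 1 ≤ r) (hκ : 0 ≤ κ) (hε1 : 0 ≤ ε1)
    (h : ∀ w : ℕ → ℝ, (∀ p ∈ cell H v, |w p| ≤ 1 / p) → (#(W.image (fun m => r * m)) : ℝ) ≤ κ * M ∧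
      ∑ m ∈ W.image (fun m => r * m), GS f w H v m ^ 2 ≤ ε1 ^ 2 * κ * (M * mm H v ^ 2)) :
    ∑ m ∈ W, |∑ p ∈ cell H v, w p * f ((p * (r * m) : ℕ) : ℤ)| ≤
      Real.exp (((v : ℝ) + 1) / H) * (ε1 * κ * (M * mm H v)) := by
  set P' := Real.exp (((v : ℝ) + 1) / H) with hP'
  have hP0 : 0 < P' := Real.exp_pos _
  set w' : ℕ → ℝ := fun p => w p / P' with hw'
  have hwb : ∀ p ∈ cell H v, |w' p| ≤ 1 / p := by
    intro p hp
    have h2 := cell_lt hp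
    have hp0 : (0 : ℝ) < p := by exact_mod_cast h2.1.pos
    simp only [hw']
    rw [abs_div, abs_of_pos hP0, div_le_div_iff₀ hP0 hp0]
    have h3 : (p : ℝ) ≤ P' := by
      rw [← Real.exp_log hp0]
      exact Real.exp_le_exp.2 h2.2.2.le
    have h4 := mul_le_mul (hw p hp) h3 hp0.le one_pos.le
    linarith
  obtain ⟨h1, h2⟩ := h w' hwb
  have hinj : Set.InjOn (fun m => r * m) (W : Set ℕ) := by
    intro x _ y _ hxy
    exact Nat.eq_of_mul_eq_mul_left hr hxy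
  have e1 : ∑ m ∈ W, |∑ p ∈ cell H v, w p * f ((p * (r * m) : ℕ) : ℤ)| =
      P' * ∑ m ∈ W.image (fun m => r * m), |GS f w' H v m| := by
    rw [sum_image hinj, mul_sum]
    apply sum_congr rfl
    intro m _
    unfold GS
    rw [← abs_of_pos hP0, ← abs_mul, mul_sum]
    congr 1
    apply sum_congr rfl
    intro p _
    simp only [hw']
    field_simp
  have hM0 : (0 : ℝ) ≤ M := Nat.cast_nonneg _
  have hmm := mm_nonneg H v
  have e3 : (∑ m ∈ W.image (fun m => r * m), |GS f w' H v m|) ^ 2 ≤ (ε1 * κ * (M * mm H v)) ^ 2 := by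
    refine sq_sum_le_card_mul_sum_sq.trans ?_
    simp only [sq_abs]
    calc (#(W.image (fun m => r * m)) : ℝ) * ∑ m ∈ W.image (fun m => r * m), GS f w' H v m ^ 2
        ≤ (κ * M) * (ε1 ^ 2 * κ * (M * mm H v ^ 2)) :=
          mul_le_mul h1 h2 (sum_nonneg fun _ _ => sq_nonneg _) (by positivity)
      _ = _ := by ring
  have e4 := abs_le_of_sq_le_sq' e3 (by positivity)
  rw [e1]
  exact mul_le_mul_of_nonneg_left e4.2 hP0.le

/-- the classes modulo `2 ^ k` -/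
theorem sieve_cls {γ : ℝ} (hγ : 0 < γ) (hγ1 : γ ≤ 1) : ∃ K : ℝ, 1 ≤ K ∧ ∃ N0 : ℕ, 2 ≤ N0 ∧
    ∀ N : ℕ, N0 ≤ N → ∀ A : Set ℕ, ∀ r k a L : ℕ, r % 2 = 1 → (r : ℝ) * 2 ^ k ≤ (N : ℝ) ^ (γ / 2) →
    (N : ℝ) ^ γ ≤ L → ∀ P : ℤ → Prop, (∀ x m : ℤ, P (x + m * 2 ^ k) ↔ P x) →
    ∀ B : Finset ℕ, B ⊆ Ico a (a + L) → (∀ m ∈ B, ∃ t ∈ EA A, m = r * t) →
    (#{m ∈ B | P ((m : ℕ) : ℤ)} : ℝ) ≤
      K * kap A N / r * (L / 2 ^ k) * #{b ∈ range (2 ^ k) | P ((b : ℕ) : ℤ)} := by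
  obtain ⟨K, hK, N0, hN0, h⟩ := sieve_up hγ hγ1
  refine ⟨K, hK, N0, hN0, fun N hN A r k a L hr hrk hL P hP B hB hBt => ?_⟩
  have h2k : 0 < 2 ^ k := by positivity
  have hsub : {m ∈ B | P ((m : ℕ) : ℤ)} ⊆ ({b ∈ range (2 ^ k) | P ((b : ℕ) : ℤ)}).biUnion (fun b =>
      (Ico a (a + L)).filter (fun m => (∃ t ∈ EA A, m = r * t) ∧ m % 2 ^ k = b)) := by
    intro m hm
    rw [mem_filter] at hm
    rw [mem_biUnion]
    refine ⟨m % 2 ^ k, ?_, ?_⟩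
    · rw [mem_filter, mem_range]
      refine ⟨Nat.mod_lt _ h2k, ?_⟩
      have e : (m : ℤ) = ((m % 2 ^ k : ℕ) : ℤ) + ((m / 2 ^ k : ℕ) : ℤ) * 2 ^ k := by
        have := Nat.mod_add_div m (2 ^ k)
        have h3 : ((m % 2 ^ k + 2 ^ k * (m / 2 ^ k) : ℕ) : ℤ) = (m : ℤ) := by rw [this]
        push_cast at h3 ⊢
        linarith
      have h4 := hm.2
      rw [e, hP] at h4
      exact h4
    · rw [mem_filter]
      exact ⟨hB hm.1, hBt m hm.1, rfl⟩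
  have h1 : (#{m ∈ B | P ((m : ℕ) : ℤ)} : ℝ) ≤ ∑ b ∈ {b ∈ range (2 ^ k) | P ((b : ℕ) : ℤ)},
      (#((Ico a (a + L)).filter (fun m => (∃ t ∈ EA A, m = r * t) ∧ m % 2 ^ k = b)) : ℝ) := by
    have := (card_le_card hsub).trans card_biUnion_le
    exact_mod_cast this
  refine h1.trans ((sum_le_sum fun b _ => h N hN A r k b a L hr hrk hL).trans (le_of_eq ?_))
  rw [sum_const, nsmul_eq_mul]
  have hr0 : (r : ℝ) ≠ 0 := by
    have : r ≠ 0 := by omega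
    exact_mod_cast this
  field_simp

/-- from classes to the number of all elements -/
theorem cls_card {B : Finset ℕ} {X : ℝ} {k : ℕ} (h : ∀ P : ℤ → Prop, (∀ x m : ℤ, P (x + m * 2 ^ k) ↔ P x) →
    (#{m ∈ B | P ((m : ℕ) : ℤ)} : ℝ) ≤ X * #{b ∈ range (2 ^ k) | P ((b : ℕ) : ℤ)}) : (#B : ℝ) ≤ X * 2 ^ k := by
  have hall : ∀ P : ℤ → Prop, (∀ x, P x) → (#B : ℝ) ≤ X * 2 ^ k := by
    intro P hPt
    have h3 := h P (fun x m => ⟨fun _ => hPt _, fun _ => hPt _⟩)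
    rw [filter_true_of_mem (fun _ _ => hPt _), filter_true_of_mem (fun _ _ => hPt _), card_range] at h3
    push_cast at h3
    exact h3
  exact hall (fun _ => True) (fun _ => trivial)

/-- the number of elements in an interval -/
theorem sieve_int {γ : ℝ} (hγ : 0 < γ) (hγ1 : γ ≤ 1) : ∃ K : ℝ, 1 ≤ K ∧ ∃ N0 : ℕ, 2 ≤ N0 ∧
    ∀ N : ℕ, N0 ≤ N → ∀ A : Set ℕ, ∀ r a L : ℕ, r % 2 = 1 → (r : ℝ) ≤ (N : ℝ) ^ (γ / 2) →
    (N : ℝ) ^ γ ≤ L → ∀ B : Finset ℕ, B ⊆ Ico a (a + L) → (∀ m ∈ B, ∃ t ∈ EA A, m = r * t) →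
    (#B : ℝ) ≤ K * kap A N / r * L := by
  obtain ⟨K, hK, N0, hN0, h⟩ := sieve_cls hγ hγ1
  refine ⟨K, hK, N0, hN0, fun N hN A r a L hr hrk hL B hB hBt => ?_⟩
  have h1 := h N hN A r 0 a L hr (by simpa using hrk) hL (fun _ => True) (fun _ _ => Iff.rfl) B hB hBt
  simpa using h1

end Pool.Agent.Y964.SE
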