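import Pool.Agent.Y964.SE.Cm

/-! The sum over a cell along the integers composed of primes of a set: complex weights and the edge. -/

set_option autoImplicit false

namespace Pool.Agent.Y964.SE

open Finset Pool.Agent.H320R2.PD Pool.Agent.H499R2.ND Pool.Agent.H499R2.CO Pool.Agent.H376R2.MR
  Pool.Agent.W41.FU Pool.Agent.W41 Pool.Agent.W41.MU Pool.Agent.TH926.BL
open scoped Classical

theorem cell_edge : ∃ K : ℝ, 1 ≤ K ∧ ∀ H : ℕ, 10 ≤ H → ∃ N0 : ℕ, 2 ≤ N0 ∧ ∀ N : ℕ, N0 ≤ N →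
    ∀ v : ℕ, ((v : ℝ) + 1) / H ≤ 1 / 16 * Real.log N → ∀ A : Set ℕ,
    (#(FA A ((N : ℝ) / Real.exp ((v : ℝ) / H)) \ FA A ((N : ℝ) / Real.exp (((v : ℝ) + 1) / H))) : ℝ) *
      #(cell H v) ≤ K / H * (kap A N * (N * mm H v)) := by
  obtain ⟨Kb, hKb, Nb, hNb2, hKbN⟩ := sieve_int (show (0 : ℝ) < 7 / 8 by norm_num) (by norm_num)
  refine ⟨6 * Kb, by linarith, fun H hH => ?_⟩
  have hH0 : (0 : ℝ) < H := by exact_mod_cast (by omega : 0 < H)
  have hHr : (10 : ℝ) ≤ H := by exact_mod_cast hH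
  have tn := tendsto_natCast_atTop_atTop (R := ℝ)
  have ev : ∀ᶠ N : ℕ in Filter.atTop, (H : ℝ) ≤ (N : ℝ) ^ (1 / 32 : ℝ) :=
    ((tendsto_rpow_atTop (by norm_num)).comp tn).eventually_ge_atTop _
  obtain ⟨N1, hN1⟩ := Filter.eventually_atTop.1 ev
  refine ⟨max 2 (max N1 Nb), le_max_left _ _, fun N hN v g2 A => ?_⟩
  have z1 := hN1 N (le_trans (le_trans (le_max_left _ _) (le_max_right _ _)) hN)
  have hNNb : Nb ≤ N := le_trans (le_trans (le_max_right _ _) (le_max_right _ _)) hN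
  have hN2 : 2 ≤ N := (le_max_left _ _).trans hN
  have hNp : (0 : ℝ) < N := by exact_mod_cast (by omega : 0 < N)
  have hN1' : (1 : ℝ) ≤ N := by exact_mod_cast (by omega : 1 ≤ N)
  have hlog : 0 < Real.log N := Real.log_pos (by exact_mod_cast (by omega : 1 < N))
  set P := Real.exp ((v : ℝ) / H) with hP
  set P' := Real.exp (((v : ℝ) + 1) / H) with hP'
  have hP0 : 0 < P := Real.exp_pos _
  have hP'0 : 0 < P' := Real.exp_pos _
  have hPe : P' = P * Real.exp (1 / H) := by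
    rw [hP, hP', ← Real.exp_add]; congr 1; ring
  have hHi : 1 / (H : ℝ) ≤ 1 / 10 := one_div_le_one_div_of_le (by norm_num) hHr
  have hHi0 : 0 < 1 / (H : ℝ) := by positivity
  have hexp1 : Real.exp (1 / H) ≤ 2 := by
    have h1 : Real.exp (1 / H) ≤ Real.exp (1 / 2) := Real.exp_le_exp.2 (by linarith)
    have h2 : Real.exp (1 / 2) ^ 2 = Real.exp 1 := by
      rw [← Real.exp_nat_mul]; norm_num
    have h3 := Real.exp_one_lt_d9
    have h4 := Real.exp_pos (1 / 2 : ℝ)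
    nlinarith only [h1, h2, h3, h4]
  have hPP : P ≤ P' := by
    rw [hPe]
    exact le_mul_of_one_le_right hP0.le (Real.one_le_exp hHi0.le)
  have hP'2 : P' ≤ 2 * P := by
    rw [hPe, mul_comm 2 P]; exact mul_le_mul_of_nonneg_left hexp1 hP0.le
  have hP'16 : P' ≤ (N : ℝ) ^ (1 / 16 : ℝ) := by
    rw [hP', Real.rpow_def_of_pos hNp]
    apply Real.exp_le_exp.2
    linarith
  -- the length
  set u : ℝ := N / P with hu
  have hu0 : 0 < u := by positivity
  have huN : (N : ℝ) ^ (15 / 16 : ℝ) ≤ u := by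
    rw [hu, le_div_iff₀ hP0]
    calc (N : ℝ) ^ (15 / 16 : ℝ) * P ≤ (N : ℝ) ^ (15 / 16 : ℝ) * (N : ℝ) ^ (1 / 16 : ℝ) :=
          mul_le_mul_of_nonneg_left (hPP.trans hP'16) (by positivity)
      _ = N := by rw [← Real.rpow_add hNp]; norm_num
  have huH : (N : ℝ) ^ (7 / 8 : ℝ) ≤ u / H := by
    rw [le_div_iff₀ hH0]
    calc (N : ℝ) ^ (7 / 8 : ℝ) * H ≤ (N : ℝ) ^ (7 / 8 : ℝ) * (N : ℝ) ^ (1 / 32 : ℝ) :=
          mul_le_mul_of_nonneg_left z1 (by positivity)
      _ = (N : ℝ) ^ (29 / 32 : ℝ) := by rw [← Real.rpow_add hNp]; norm_num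
      _ ≤ (N : ℝ) ^ (15 / 16 : ℝ) := Real.rpow_le_rpow_of_exponent_le hN1' (by norm_num)
      _ ≤ u := huN
  have h78 : (1 : ℝ) ≤ (N : ℝ) ^ (7 / 8 : ℝ) := Real.one_le_rpow hN1' (by norm_num)
  set L : ℕ := ⌈u / H⌉₊ with hL
  have hL1 : u / H ≤ L := Nat.le_ceil _
  have hL2 : (L : ℝ) ≤ 2 * (u / H) := by
    have := Nat.ceil_lt_add_one (show 0 ≤ u / H by positivity)
    linarith
  have hdiff : u ≤ N / P' + u / H := by
    have h1 : N / P' = u * Real.exp (-(1 / H)) := by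
      rw [hu, hPe, Real.exp_neg]
      field_simp
    have h2 : 1 - 1 / (H : ℝ) ≤ Real.exp (-(1 / H)) := by linarith [Real.add_one_le_exp (-(1 / (H : ℝ)))]
    rw [h1]
    have h3 := mul_le_mul_of_nonneg_left h2 hu0.le
    have h4 : u * (1 - 1 / (H : ℝ)) = u - u / H := by ring
    linarith
  have hcount : (#(FA A (N / P) \ FA A (N / P')) : ℝ) ≤ Kb * kap A N / (1 : ℕ) * L := by
    apply hKbN N hNNb A 1 (⌊N / P'⌋₊ + 1) L (by norm_num)
      (by rw [Nat.cast_one]; exact Real.one_le_rpow hN1' (by norm_num)) (huH.trans hL1)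
    · intro m hm
      rw [mem_sdiff, mem_FA, mem_FA] at hm
      rw [mem_Ico]
      have h1 : ⌊N / P'⌋₊ < m := by
        by_contra hcon
        exact hm.2 ⟨by omega, hm.1.2⟩
      refine ⟨by omega, ?_⟩
      have h2 : (m : ℝ) ≤ N / P := (Nat.le_floor_iff (by positivity)).1 hm.1.1
      have h3 := Nat.lt_floor_add_one (N / P')
      have h4 : (m : ℝ) < ((⌊N / P'⌋₊ + 1 + L : ℕ) : ℝ) := by
        push_cast
        rw [← hu] at h2
        linarith
      exact_mod_cast h4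
    · intro m hm
      rw [mem_sdiff, mem_FA] at hm
      exact ⟨m, hm.1.2, by omega⟩
  have hcc : (#(cell H v) : ℝ) ≤ P' * mm H v := cell_card H v
  have hmm := mm_nonneg H v
  have hκ0 := kap_pos A N
  rw [Nat.cast_one, div_one] at hcount
  calc (#(FA A (N / P) \ FA A (N / P')) : ℝ) * #(cell H v)
      ≤ (Kb * kap A N * (2 * (u / H))) * ((2 * P) * mm H v) := by
        apply mul_le_mul _ _ (Nat.cast_nonneg _) (by positivity)
        · exact hcount.trans (mul_le_mul_of_nonneg_left hL2 (by positivity))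
        · exact hcc.trans (mul_le_mul_of_nonneg_right hP'2 hmm)
    _ = 4 * Kb / H * (kap A N * (N * mm H v)) := by rw [hu]; field_simp; ring
    _ ≤ _ := by
        apply mul_le_mul_of_nonneg_right _ (by positivity)
        apply div_le_div_of_nonneg_right _ hH0.le
        linarith

theorem cell_norm {s : ℤ} (hs : s = 1 ∨ s = -1) : ∃ K : ℝ, 1 ≤ K ∧ ∀ ε : ℝ, 0 < ε → ε ≤ 1 → ∀ H : ℕ, 10 ≤ H →
    ∃ ϑ : ℝ, 0 < ϑ ∧ ϑ ≤ 1 / 64 ∧ ∀ θ1 : ℝ, 0 < θ1 → ∃ N0 : ℕ, 2 ≤ N0 ∧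
    ∀ N : ℕ, N0 ≤ N → ∀ S : Set ℤ, Inv 1 S → ∀ δ : ℝ, HD s S δ →
    ∀ v : ℕ, θ1 * Real.log N ≤ (v : ℝ) / H → ((v : ℝ) + 1) / H ≤ ϑ * Real.log N →
    ∀ r : ℕ, r % 2 = 1 → (r : ℝ) ≤ (N : ℝ) ^ ϑ → ∀ (A : Set ℕ) (g : ℕ → ℂ), (∀ p, ‖g p‖ ≤ 1) →
    ∑ m ∈ FA A N, ‖∑ p ∈ (cell H v).filter (fun p => p ∈ A ∧ p * m ≤ N),
      g p * (bal s S δ ((p * (r * m) : ℕ) : ℤ) : ℂ)‖ ≤ (2 * ε + K / H) * (kap A N * (N * mm H v)) := by
  obtain ⟨K, hK, hedge⟩ := cell_edge
  refine ⟨K, hK, fun ε hε hε1 H hH => ?_⟩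
  obtain ⟨N1, hN12, h1⟩ := hedge H hH
  obtain ⟨ϑ, h0, h01, hmain⟩ := cell_main hs hε hε1 hH
  refine ⟨ϑ, h0, h01, fun θ1 hθ1 => ?_⟩
  obtain ⟨N2, hN22, h2⟩ := hmain θ1 hθ1
  refine ⟨max N1 N2, hN12.trans (le_max_left _ _), fun N hN S hS δ hδ v g1 g2 r hr hrN A g hg => ?_⟩
  have hN1 := (le_max_left _ _).trans hN
  have hN2 := (le_max_right _ _).trans hN
  have hH0 : (0 : ℝ) < H := by exact_mod_cast (by omega : 0 < H)
  have hNp : (0 : ℝ) < N := by exact_mod_cast (by omega : 0 < N)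
  have hlog : 0 < Real.log N := Real.log_pos (by exact_mod_cast (by omega : 1 < N))
  have h1 := h1 N hN1 v (g2.trans (mul_le_mul_of_nonneg_right (by linarith) hlog.le)) A
  have h2 := h2 N hN2 S hS δ hδ v g1 g2 r hr hrN A
  obtain ⟨d0, d1⟩ := HD_mem hs hδ
  have hfa := (bal_same hs hS d0 d1).1
  set f := bal s S δ with hf
  set P := Real.exp ((v : ℝ) / H) with hP
  set P' := Real.exp (((v : ℝ) + 1) / H) with hP'
  have hP0 : 0 < P := Real.exp_pos _
  have hP'0 : 0 < P' := Real.exp_pos _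
  have hPP : P ≤ P' := Real.exp_le_exp.2 (div_le_div_of_nonneg_right (by linarith) hH0.le)
  have hP1 : 1 ≤ P := Real.one_le_exp (by positivity)
  have hcellp : ∀ p ∈ cell H v, P ≤ (p : ℝ) ∧ (p : ℝ) < P' := by
    intro p hp
    have h1 := cell_lt hp
    have hp0 : (0 : ℝ) < p := by exact_mod_cast h1.1.pos
    constructor
    · rw [hP, ← Real.exp_log hp0]; exact Real.exp_le_exp.2 h1.2.1
    · rw [hP', ← Real.exp_log hp0]; exact Real.exp_lt_exp.2 h1.2.2
  set Φ : ℕ → ℝ := fun m => ‖∑ p ∈ (cell H v).filter (fun p => p ∈ A ∧ p * m ≤ N),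
      g p * (f ((p * (r * m) : ℕ) : ℤ) : ℂ)‖ with hΦ
  have s1 : FA A (N / P') ⊆ FA A (N / P) := FA_mono A (div_le_div_of_nonneg_left hNp.le hP0 hPP)
  have s2 : FA A (N / P) ⊆ FA A N := FA_mono A (div_le_self hNp.le hP1)
  have e : ∑ m ∈ FA A N, Φ m = ∑ m ∈ FA A N \ FA A (N / P), Φ m + (∑ m ∈ FA A (N / P) \ FA A (N / P'), Φ m +
      ∑ m ∈ FA A (N / P'), Φ m) := by
    rw [← sum_sdiff s2, ← sum_sdiff s1]
  have hgf : ∀ p m : ℕ, ‖g p * (f ((p * (r * m) : ℕ) : ℤ) : ℂ)‖ ≤ 1 := fun p m => by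
    rw [norm_mul, Complex.norm_real, Real.norm_eq_abs]
    exact mul_le_one₀ (hg p) (abs_nonneg _) (hfa _)
  have k1 : ∑ m ∈ FA A N \ FA A (N / P), Φ m = 0 := by
    apply sum_eq_zero
    intro m hm
    rw [mem_sdiff, mem_FA_nat, mem_FA] at hm
    have h3 : N / P < m := by
      by_contra hcon
      push Not at hcon
      exact hm.2 ⟨Nat.le_floor hcon, hm.1.2⟩
    simp only [hΦ]
    rw [norm_eq_zero]
    apply sum_eq_zero
    intro p hp
    rw [mem_filter] at hp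
    exfalso
    have h4 := (hcellp p hp.1).1
    rw [div_lt_iff₀ hP0] at h3
    have h5 : ((p * m : ℕ) : ℝ) ≤ N := by exact_mod_cast hp.2.2
    push_cast at h5
    have h6 : (m : ℝ) * P ≤ m * p := mul_le_mul_of_nonneg_left h4 (Nat.cast_nonneg _)
    linarith
  have k2 : ∑ m ∈ FA A (N / P) \ FA A (N / P'), Φ m ≤ K / H * (kap A N * (N * mm H v)) := by
    refine le_trans ?_ h1
    have h3 : ∀ m ∈ FA A (N / P) \ FA A (N / P'), Φ m ≤ #(cell H v) := by
      intro m _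
      refine (norm_sum_le _ _).trans ((sum_le_sum fun p _ => hgf p m).trans ?_)
      rw [sum_const, nsmul_eq_mul, mul_one]
      exact_mod_cast card_filter_le _ _
    refine (sum_le_sum h3).trans ?_
    rw [sum_const, nsmul_eq_mul]
  have k3 : ∑ m ∈ FA A (N / P'), Φ m ≤ 2 * ε * (kap A N * (N * mm H v)) := by
    have hre := h2 (fun p => if p ∈ A then (g p).re else 0) (fun p _ => by
      split_ifs
      · exact (Complex.abs_re_le_norm _).trans (hg p)
      · rw [abs_zero]; norm_num)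
    have him := h2 (fun p => if p ∈ A then (g p).im else 0) (fun p _ => by
      split_ifs
      · exact (Complex.abs_im_le_norm _).trans (hg p)
      · rw [abs_zero]; norm_num)
    have h3 : ∀ m ∈ FA A (N / P'), Φ m ≤
        |∑ p ∈ cell H v, (if p ∈ A then (g p).re else 0) * f ((p * (r * m) : ℕ) : ℤ)| +
        |∑ p ∈ cell H v, (if p ∈ A then (g p).im else 0) * f ((p * (r * m) : ℕ) : ℤ)| := by
      intro m hm
      rw [mem_FA] at hm
      have hm' : (m : ℝ) ≤ N / P' := (Nat.le_floor_iff (by positivity)).1 hm.1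
      rw [le_div_iff₀ hP'0] at hm'
      have e4 : (cell H v).filter (fun p => p ∈ A ∧ p * m ≤ N) = (cell H v).filter (fun p => p ∈ A) := by
        ext p
        rw [mem_filter, mem_filter]
        constructor
        · rintro ⟨a, b, _⟩; exact ⟨a, b⟩
        · rintro ⟨a, b⟩
          refine ⟨a, b, ?_⟩
          have h5 := (hcellp p a).2
          have h6 : ((p * m : ℕ) : ℝ) ≤ (N : ℕ) := by
            push_cast
            have := mul_le_mul_of_nonneg_left h5.le (Nat.cast_nonneg (α := ℝ) m)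
            linarith
          exact_mod_cast h6
      simp only [hΦ]
      rw [e4]
      refine (Complex.norm_le_abs_re_add_abs_im _).trans (le_of_eq ?_)
      congr 2
      · rw [Complex.re_sum, sum_filter]
        apply sum_congr rfl
        intro p _
        split_ifs
        · rw [Complex.re_mul_ofReal]
        · ring
      · rw [Complex.im_sum, sum_filter]
        apply sum_congr rfl
        intro p _
        split_ifs
        · rw [Complex.im_mul_ofReal]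
        · ring
    refine (sum_le_sum h3).trans ?_
    rw [sum_add_distrib]
    linarith
  rw [e, k1]
  have e5 : (2 * ε + K / H) * (kap A N * (N * mm H v)) = K / H * (kap A N * (N * mm H v)) +
    2 * ε * (kap A N * (N * mm H v)) := by ring
  rw [e5, zero_add]
  exact add_le_add k2 k3

end Pool.Agent.Y964.SE
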