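import Pool.Agent.Y964.SE.Cn

/-! Invariant sets along the integers composed of primes of a set. -/

set_option autoImplicit false

namespace Pool.Agent.Y964.SE

open Finset Pool.Agent.H320R2.PD Pool.Agent.H499R2.ND Pool.Agent.H499R2.CO Pool.Agent.H376R2.MR
  Pool.Agent.W41.FU Pool.Agent.W41 Pool.Agent.W41.MU Pool.Agent.TH926.BL
open scoped Classical

/-- the primes of the cells from `u` to `w` -/
noncomputable def RN (H u w : ℕ) : Finset ℕ := (Ico u w).biUnion (fun v => cell H v)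

theorem mem_RN {H u w p : ℕ} (hH : 1 ≤ H) : p ∈ RN H u w ↔ p.Prime ∧ u ≤ ix H p ∧ ix H p < w := by
  unfold RN
  rw [mem_biUnion]
  constructor
  · rintro ⟨v, hv, hp⟩
    rw [mem_Ico] at hv
    have := (mem_cell_ix hH).1 hp
    exact ⟨this.1, by omega, by omega⟩
  · rintro ⟨h1, h2, h3⟩
    exact ⟨ix H p, mem_Ico.2 ⟨h2, h3⟩, (mem_cell_ix hH).2 ⟨h1, rfl⟩⟩

theorem RN_disj {H : ℕ} (hH : 1 ≤ H) (Q : ℕ → Prop) [DecidablePred Q] (s : Set ℕ) :
    s.PairwiseDisjoint (fun v => (cell H v).filter Q) := by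
  intro v _ v' _ hvv
  rw [Function.onFun, Finset.disjoint_left]
  intro p h1 h2
  rw [mem_filter, mem_cell_ix hH] at h1 h2
  exact hvv (h1.1.2.symm.trans h2.1.2)

theorem sum_RN {E : Type*} [AddCommMonoid E] {H u w : ℕ} (hH : 1 ≤ H) (Q : ℕ → Prop) [DecidablePred Q]
    (F : ℕ → E) :
    ∑ p ∈ (RN H u w).filter Q, F p = ∑ v ∈ Ico u w, ∑ p ∈ (cell H v).filter Q, F p := by
  unfold RN
  rw [filter_biUnion, sum_biUnion (RN_disj hH Q _)]

theorem sum_RN' {E : Type*} [AddCommMonoid E] {H u w : ℕ} (hH : 1 ≤ H) (F : ℕ → E) :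
    ∑ p ∈ RN H u w, F p = ∑ v ∈ Ico u w, ∑ p ∈ cell H v, F p := by
  have h := sum_RN (E := E) (u := u) (w := w) hH (fun _ => True) F
  simpa using h

theorem mmW {H : ℕ} (hH : 1 ≤ H) : ∃ w0 : ℕ, 1 ≤ w0 ∧ ∀ u : ℕ, w0 ≤ u → ∀ I : ℕ,
    ∑ v ∈ Ico u (4 ^ I * u), mm H v ≤ 6 * I := by
  obtain ⟨w0, hw0, hw⟩ := mm_lower hH
  refine ⟨w0, hw0, fun u hu I => ?_⟩
  induction I with
  | zero => simp
  | succ I ih =>
    have h1 : u ≤ 4 ^ I * u := Nat.le_mul_of_pos_left u (by positivity)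
    have h2 : 4 ^ I * u ≤ 4 ^ (I + 1) * u := Nat.mul_le_mul_right _ (Nat.pow_le_pow_right (by norm_num) (by omega))
    rw [← sum_Ico_consecutive _ h1 h2]
    have hu0 : 0 < 4 ^ I * u := Nat.mul_pos (by positivity) (by omega)
    have hu0R : (0 : ℝ) < ((4 ^ I * u : ℕ) : ℝ) := by exact_mod_cast hu0
    have h3 : ∀ v ∈ Ico (4 ^ I * u) (4 ^ (I + 1) * u), mm H v ≤ 2 / ((4 ^ I * u : ℕ) : ℝ) := by
      intro v hv
      rw [mem_Ico] at hv
      have h4 := (hw v (by omega)).2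
      rw [le_div_iff₀ hu0R, mul_comm]
      have h5 : ((4 ^ I * u : ℕ) : ℝ) ≤ v := by exact_mod_cast hv.1
      exact (mul_le_mul_of_nonneg_right h5 (mm_nonneg H v)).trans h4
    have h6 : ∑ v ∈ Ico (4 ^ I * u) (4 ^ (I + 1) * u), mm H v ≤ 6 := by
      refine (sum_le_sum h3).trans (le_of_eq ?_)
      rw [sum_const, Nat.card_Ico, nsmul_eq_mul]
      have e : 4 ^ (I + 1) * u - 4 ^ I * u = 3 * (4 ^ I * u) := by
        have e0 : 4 ^ (I + 1) * u = 4 * (4 ^ I * u) := by rw [pow_succ]; ring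
        omega
      rw [e, Nat.cast_mul]
      field_simp
      norm_num
    push_cast
    linarith

/-- the square-divisible members -/
theorem sq_count {K : ℝ} {N : ℕ} (A : Set ℕ) (hK : 0 ≤ K) (hN : 2 ≤ N)
    (h : ∀ a L : ℕ, (N : ℝ) ^ (1 / 2 : ℝ) ≤ L → ∀ B : Finset ℕ, B ⊆ Ico a (a + L) → (∀ m ∈ B, m ∈ EA A) →
      (#B : ℝ) ≤ K * kap A N * L) {p : ℕ} (hp : p.Prime) (hpN : (p : ℝ) ≤ (N : ℝ) ^ (1 / 4 : ℝ)) :
    (#((FA A N).filter (fun m => p * m ≤ N ∧ p ∣ m)) : ℝ) ≤ 2 * K * kap A N * N / p ^ 2 := by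
  have hNp : (0 : ℝ) < N := by exact_mod_cast (by omega : 0 < N)
  have hN1' : (1 : ℝ) ≤ N := by exact_mod_cast (by omega : 1 ≤ N)
  have hp0 : (0 : ℝ) < p := by exact_mod_cast hp.pos
  have h1 : (N : ℝ) ^ (1 / 2 : ℝ) ≤ N / p ^ 2 := by
    rw [le_div_iff₀ (by positivity)]
    calc (N : ℝ) ^ (1 / 2 : ℝ) * (p : ℝ) ^ 2 ≤ (N : ℝ) ^ (1 / 2 : ℝ) * ((N : ℝ) ^ (1 / 4 : ℝ)) ^ 2 := by
          apply mul_le_mul_of_nonneg_left _ (by positivity)
          exact pow_le_pow_left₀ hp0.le hpN 2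
      _ = (N : ℝ) := by
          rw [← Real.rpow_natCast, ← Real.rpow_mul hNp.le, ← Real.rpow_add hNp]; norm_num
  have h2 : (#((FA A N).filter (fun m => p * m ≤ N ∧ p ∣ m)) : ℝ) ≤ #(FA A ((N : ℝ) / p ^ 2)) := by
    apply Nat.cast_le.2
    apply card_le_card_of_injOn (fun m => m / p)
    · intro m hm
      rw [mem_coe, mem_filter, mem_FA_nat] at hm
      obtain ⟨⟨_, h3⟩, h4, m', rfl⟩ := hm
      rw [mem_coe]
      show p * m' / p ∈ _
      rw [Nat.mul_div_cancel_left _ hp.pos, mem_FA]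
      refine ⟨Nat.le_floor ?_, ((EA_mul hp).1 h3).2⟩
      rw [le_div_iff₀ (by positivity)]
      have : ((p * (p * m') : ℕ) : ℝ) ≤ N := by exact_mod_cast h4
      push_cast at this
      linarith
    · intro m hm m' hm' hh
      rw [mem_coe, mem_filter] at hm hm'
      obtain ⟨_, _, k, rfl⟩ := hm
      obtain ⟨_, _, k', rfl⟩ := hm'
      simp only [Nat.mul_div_cancel_left _ hp.pos] at hh
      rw [hh]
  refine h2.trans ?_
  have h3 := h 0 (⌊(N : ℝ) / p ^ 2⌋₊ + 1) (by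
    push_cast
    have := Nat.lt_floor_add_one ((N : ℝ) / p ^ 2)
    linarith) (FA A ((N : ℝ) / p ^ 2)) (by
      intro m hm
      rw [mem_FA] at hm
      rw [mem_Ico]; omega) (fun m hm => (mem_FA.1 hm).2)
  refine h3.trans ?_
  have hκ0 := kap_pos A N
  have h4 : ((⌊(N : ℝ) / p ^ 2⌋₊ + 1 : ℕ) : ℝ) ≤ 2 * (N / p ^ 2) := by
    push_cast
    have := Nat.floor_le (show 0 ≤ (N : ℝ) / p ^ 2 by positivity)
    have := Real.one_le_rpow hN1' (show (0 : ℝ) ≤ 1 / 2 by norm_num)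
    linarith
  calc K * kap A N * ((⌊(N : ℝ) / p ^ 2⌋₊ + 1 : ℕ) : ℝ) ≤ K * kap A N * (2 * (N / p ^ 2)) :=
        mul_le_mul_of_nonneg_left h4 (by positivity)
    _ = _ := by ring

/-- the count of the members of `EA A` in an interval -/
theorem count_int : ∃ K : ℝ, 1 ≤ K ∧ ∃ N0 : ℕ, 2 ≤ N0 ∧ ∀ N : ℕ, N0 ≤ N → ∀ A : Set ℕ, ∀ a L : ℕ,
    (N : ℝ) ^ (1 / 2 : ℝ) ≤ L → ∀ B : Finset ℕ, B ⊆ Ico a (a + L) → (∀ m ∈ B, m ∈ EA A) →
      (#B : ℝ) ≤ K * kap A N * L := by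
  obtain ⟨K, hK, N0, hN0, h⟩ := sieve_int (show (0 : ℝ) < 1 / 2 by norm_num) (by norm_num)
  refine ⟨K, hK, N0, hN0, fun N hN A a L hL B hB hBA => ?_⟩
  have hN1' : (1 : ℝ) ≤ N := by exact_mod_cast (by omega : 1 ≤ N)
  have h1 := h N hN A 1 a L (by norm_num) (by rw [Nat.cast_one]; exact Real.one_le_rpow hN1' (by norm_num))
    hL B hB (fun m hm => ⟨m, hBA m hm, by omega⟩)
  simpa using h1

theorem core {s : ℤ} (hs : s = 1 ∨ s = -1) : ∃ K : ℝ, 1 ≤ K ∧ ∀ (I : ℕ) (ε : ℝ), 0 < ε →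
    ∃ H : ℕ, 10 ≤ H ∧ ∃ ϑ : ℝ, 0 < ϑ ∧ ϑ ≤ 1 ∧ ∃ v0 : ℕ → ℕ, Filter.Tendsto v0 Filter.atTop Filter.atTop ∧
    ∃ N0 : ℕ, 2 ≤ N0 ∧ (∀ N : ℕ, N0 ≤ N → ((4 ^ I * v0 N : ℕ) : ℝ) / H ≤ Real.log N / 4) ∧
    ∀ N : ℕ, N0 ≤ N → ∀ S : Set ℤ, Inv 1 S → ∀ δ : ℝ, HD s S δ →
    ∀ r : ℕ, r % 2 = 1 → (r : ℝ) ≤ (N : ℝ) ^ ϑ → ∀ (A : Set ℕ) (g : ℕ → ℂ), (∀ n, ‖g n‖ ≤ 1) →
    (∀ m n : ℕ, Nat.Coprime m n → g (m * n) = g m * g n) →
    ‖∑ n ∈ FA A N, (bal s S δ ((r * n : ℕ) : ℤ) : ℂ) * g n‖ ≤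
      ε * (kap A N * N) + K * (kap (A \ {p | p ∈ RN H (v0 N) (4 ^ I * v0 N)}) N * N) := by
  obtain ⟨K1, hK1, N1, hN12, hcount⟩ := count_int
  obtain ⟨K2, hK2, hnorm⟩ := cell_norm hs
  refine ⟨K1, hK1, fun I ε hε => ?_⟩
  have hI0 : (0 : ℝ) ≤ I := Nat.cast_nonneg _
  obtain ⟨H', hH'⟩ := exists_nat_ge (24 * K2 * (I + 1) / ε)
  set H : ℕ := max 10 H' with hHd
  have hH : 10 ≤ H := le_max_left _ _
  have hH1 : 1 ≤ H := by omega
  have hHε : 24 * K2 * (I + 1) / ε ≤ H := hH'.trans (by exact_mod_cast le_max_right _ _)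
  have hH0 : (0 : ℝ) < H := by exact_mod_cast (by omega : 0 < H)
  have hHb : K2 / H * (6 * I) ≤ ε / 4 := by
    rw [div_le_iff₀ hε] at hHε
    rw [div_mul_eq_mul_div, div_le_iff₀ hH0]
    nlinarith only [hHε, hK2]
  set ε' : ℝ := min 1 (ε / (48 * (I + 1))) with hε'
  have hε'0 : 0 < ε' := lt_min one_pos (by positivity)
  have hε'1 : ε' ≤ 1 := min_le_left _ _
  have hε'b : 2 * ε' * (6 * I) ≤ ε / 4 := by
    have h1 : ε' ≤ ε / (48 * (I + 1)) := min_le_right _ _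
    rw [le_div_iff₀ (by positivity)] at h1
    nlinarith only [h1, hε'0]
  obtain ⟨ϑ, h0, h01, hmain⟩ := hnorm ε' hε'0 hε'1 H hH
  obtain ⟨w0, hw0, hW⟩ := mmW hH1
  have h4I : (0 : ℝ) < 4 ^ (I + 1) := by positivity
  obtain ⟨N2, hN22, hN2⟩ := hmain (ϑ / (2 * 4 ^ (I + 1))) (by positivity)
  set v0 : ℕ → ℕ := fun N => ⌊H * ϑ * Real.log N / 4 ^ (I + 1)⌋₊ with hv0
  have tl : Filter.Tendsto (fun N : ℕ => H * ϑ * Real.log N / 4 ^ (I + 1)) Filter.atTop Filter.atTop := by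
    apply Filter.Tendsto.atTop_div_const h4I
    apply Filter.Tendsto.const_mul_atTop (by positivity)
    exact Real.tendsto_log_atTop.comp tendsto_natCast_atTop_atTop
  have tv : Filter.Tendsto v0 Filter.atTop Filter.atTop := tendsto_nat_floor_atTop.comp tl
  refine ⟨H, hH, ϑ, h0, by linarith, v0, tv, ?_⟩
  have te : Filter.Tendsto (fun N : ℕ => Real.exp (-((v0 N : ℝ) / H))) Filter.atTop (nhds 0) := by
    apply Real.tendsto_exp_neg_atTop_nhds_zero.comp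
    exact Filter.Tendsto.atTop_div_const hH0 (tendsto_natCast_atTop_atTop.comp tv)
  have ev : ∀ᶠ N : ℕ in Filter.atTop, (w0 ≤ v0 N ∧ 2 ≤ H * ϑ * Real.log N / 4 ^ (I + 1)) ∧
      Real.exp (-((v0 N : ℝ) / H)) < ε / (8 * K1 * (6 * I + 1)) := by
    refine ((tv.eventually_ge_atTop _).and (tl.eventually_ge_atTop _)).and ?_
    exact te.eventually_lt_const (by positivity)
  obtain ⟨N3, hN3⟩ := Filter.eventually_atTop.1 ev
  have hbd : ∀ N : ℕ, 2 ≤ N → ((4 ^ I * v0 N : ℕ) : ℝ) / H ≤ ϑ * Real.log N / 4 := by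
    intro N hN
    have hlog : 0 < Real.log N := Real.log_pos (by exact_mod_cast (by omega : 1 < N))
    have h1 : (v0 N : ℝ) ≤ H * ϑ * Real.log N / 4 ^ (I + 1) := Nat.floor_le (by positivity)
    rw [div_le_iff₀ hH0]
    push_cast
    have h4 : (0 : ℝ) < 4 ^ I := by positivity
    calc (4 : ℝ) ^ I * v0 N ≤ 4 ^ I * (H * ϑ * Real.log N / 4 ^ (I + 1)) := mul_le_mul_of_nonneg_left h1 h4.le
      _ = _ := by rw [pow_succ]; field_simp
  refine ⟨max 2 (max N1 (max N2 N3)), le_max_left _ _, fun N hN => ?_, fun N hN S hS δ hδ r hr hrN A g hg hgm => ?_⟩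
  · have hN2' : 2 ≤ N := (le_max_left _ _).trans hN
    have hlog : 0 < Real.log N := Real.log_pos (by exact_mod_cast (by omega : 1 < N))
    refine (hbd N hN2').trans ?_
    nlinarith only [h01, hlog]
  have hN2' : 2 ≤ N := (le_max_left _ _).trans hN
  have hNN1 : N1 ≤ N := ((le_max_left _ _).trans (le_max_right _ _)).trans hN
  have hNN2 : N2 ≤ N := (((le_max_left _ _).trans (le_max_right _ _)).trans (le_max_right _ _)).trans hN
  have hNN3 : N3 ≤ N := (((le_max_right _ _).trans (le_max_right _ _)).trans (le_max_right _ _)).trans hN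
  clear hN
  obtain ⟨⟨x1, x2⟩, x3⟩ := hN3 N hNN3
  have hNp : (0 : ℝ) < N := by exact_mod_cast (by omega : 0 < N)
  have hlog : 0 < Real.log N := Real.log_pos (by exact_mod_cast (by omega : 1 < N))
  obtain ⟨d0, d1⟩ := HD_mem hs hδ
  have hfa := (bal_same hs hS d0 d1).1
  set f := bal s S δ with hf
  set u := v0 N with hu
  set R := RN H u (4 ^ I * u) with hR
  have hRp : ∀ p ∈ R, p.Prime := fun p hp => ((mem_RN hH1).1 hp).1
  have hcnt := hcount N hNN1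
  -- the size of the primes of `R`
  have hRl : ∀ p ∈ R, (u : ℝ) / H ≤ Real.log p ∧ Real.log p ≤ ϑ * Real.log N / 4 := by
    intro p hp
    obtain ⟨h1, h2, h3⟩ := (mem_RN hH1).1 hp
    have h4 := mem_cell.1 ((mem_cell_ix (v := ix H p) hH1).2 ⟨h1, rfl⟩)
    constructor
    · refine le_trans ?_ h4.2.1
      apply div_le_div_of_nonneg_right _ hH0.le
      exact_mod_cast h2
    · refine h4.2.2.le.trans (le_trans ?_ (hbd N hN2'))
      apply div_le_div_of_nonneg_right _ hH0.le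
      have : ix H p + 1 ≤ 4 ^ I * u := h3
      exact_mod_cast this
  have hκ0 := kap_pos A N
  have hram := ramare A N R hRp (fun n => (f ((r * n : ℕ) : ℤ) : ℂ)) g (fun n => by
    rw [Complex.norm_real, Real.norm_eq_abs]; exact hfa _) hg hgm
  refine hram.trans ?_
  -- first term
  have t1 : (#(FA (A \ {p | p ∈ R}) N) : ℝ) ≤ K1 * (kap (A \ {p | p ∈ R}) N * N) := by
    have h1 := hcnt (A \ {p | p ∈ R}) 1 N (by
      calc (N : ℝ) ^ (1 / 2 : ℝ) ≤ (N : ℝ) ^ (1 : ℝ) :=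
            Real.rpow_le_rpow_of_exponent_le (by exact_mod_cast (by omega : 1 ≤ N)) (by norm_num)
        _ = N := Real.rpow_one _) (FA (A \ {p | p ∈ R}) N) (by
        intro m hm
        rw [mem_FA_nat] at hm
        rw [mem_Ico]
        have := hm.2.1
        omega) (fun m hm => (mem_FA_nat.1 hm).2)
    rw [mul_assoc] at h1
    exact h1
  -- second term
  have hsum1 : ∑ p ∈ R, 1 / (p : ℝ) ≤ 6 * I := by
    rw [hR, sum_RN' hH1]
    exact hW u x1 I
  have t2 : 2 * ∑ p ∈ R.filter (fun p => p ∈ A), (#((FA A N).filter (fun m => p * m ≤ N ∧ p ∣ m)) : ℝ) ≤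
      ε / 2 * (kap A N * N) := by
    have h1 : ∑ p ∈ R.filter (fun p => p ∈ A), (#((FA A N).filter (fun m => p * m ≤ N ∧ p ∣ m)) : ℝ) ≤
        ∑ p ∈ R, 2 * K1 * kap A N * N * (Real.exp (-((u : ℝ) / H)) * (1 / p)) := by
      refine (sum_le_sum_of_subset_of_nonneg (filter_subset _ _) fun _ _ _ => Nat.cast_nonneg _).trans ?_
      apply sum_le_sum
      intro p hp
      have hpp := hRp p hp
      have hp0 : (0 : ℝ) < p := by exact_mod_cast hpp.pos
      obtain ⟨h2, h3⟩ := hRl p hp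
      refine (sq_count A (by linarith) hN2' (hcnt A) hpp ?_).trans ?_
      · rw [Real.rpow_def_of_pos hNp, ← Real.log_le_iff_le_exp hp0]
        refine h3.trans ?_
        nlinarith only [h01, hlog]
      · have h4 : 1 / (p : ℝ) ≤ Real.exp (-((u : ℝ) / H)) := by
          rw [Real.exp_neg, ← one_div]
          apply one_div_le_one_div_of_le (Real.exp_pos _)
          rw [← Real.le_log_iff_exp_le hp0]
          exact h2
        have h5 : 2 * K1 * kap A N * N / (p : ℝ) ^ 2 = 2 * K1 * kap A N * N * (1 / p * (1 / p)) := by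
          field_simp
        rw [h5]
        apply mul_le_mul_of_nonneg_left _ (by positivity)
        exact mul_le_mul_of_nonneg_right h4 (by positivity)
    rw [← mul_sum, ← mul_sum] at h1
    have h6 : Real.exp (-((u : ℝ) / H)) * ∑ p ∈ R, 1 / (p : ℝ) ≤ ε / (8 * K1) := by
      calc Real.exp (-((u : ℝ) / H)) * ∑ p ∈ R, 1 / (p : ℝ) ≤ ε / (8 * K1 * (6 * I + 1)) * (6 * I + 1) := by
            apply mul_le_mul x3.le _ (sum_nonneg fun _ _ => by positivity) (by positivity)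
            linarith
        _ = _ := by field_simp
    have h7 : 2 * K1 * kap A N * N * (Real.exp (-((u : ℝ) / H)) * ∑ p ∈ R, 1 / (p : ℝ)) ≤
        2 * K1 * kap A N * N * (ε / (8 * K1)) := mul_le_mul_of_nonneg_left h6 (by positivity)
    have h8 : 2 * K1 * kap A N * N * (ε / (8 * K1)) = ε / 4 * (kap A N * N) := by
      field_simp; norm_num
    linarith
  -- third term
  have t3 : ∑ m ∈ FA A N, ‖∑ p ∈ R.filter (fun p => p ∈ A ∧ p * m ≤ N), g p * (f ((r * (p * m) : ℕ) : ℤ) : ℂ)‖ ≤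
      ε / 2 * (kap A N * N) := by
    have h1 : ∀ m ∈ FA A N, ‖∑ p ∈ R.filter (fun p => p ∈ A ∧ p * m ≤ N), g p * (f ((r * (p * m) : ℕ) : ℤ) : ℂ)‖ ≤
        ∑ v ∈ Ico u (4 ^ I * u), ‖∑ p ∈ (cell H v).filter (fun p => p ∈ A ∧ p * m ≤ N),
          g p * (f ((p * (r * m) : ℕ) : ℤ) : ℂ)‖ := by
      intro m _
      rw [hR, sum_RN hH1]
      refine (norm_sum_le _ _).trans (le_of_eq ?_)
      apply sum_congr rfl
      intro v _
      congr 1
      apply sum_congr rfl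
      intro p _
      rw [Nat.mul_left_comm r p m]
    refine (sum_le_sum h1).trans ?_
    rw [sum_comm]
    have h2 : ∀ v ∈ Ico u (4 ^ I * u), ∑ m ∈ FA A N, ‖∑ p ∈ (cell H v).filter (fun p => p ∈ A ∧ p * m ≤ N),
          g p * (f ((p * (r * m) : ℕ) : ℤ) : ℂ)‖ ≤ (2 * ε' + K2 / H) * (kap A N * (N * mm H v)) := by
      intro v hv
      rw [mem_Ico] at hv
      apply hN2 N hNN2 S hS δ hδ v _ _ r hr hrN A g hg
      · have h3 : H * ϑ * Real.log N / 4 ^ (I + 1) < (u : ℝ) + 1 := Nat.lt_floor_add_one _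
        have h5 : (u : ℝ) ≤ v := by exact_mod_cast hv.1
        rw [le_div_iff₀ hH0]
        have e : ϑ / (2 * 4 ^ (I + 1)) * Real.log N * H = (H * ϑ * Real.log N / 4 ^ (I + 1)) / 2 := by
          field_simp
        rw [e]
        linarith
      · have h3 : ((v : ℝ) + 1) / H ≤ ((4 ^ I * u : ℕ) : ℝ) / H := by
          apply div_le_div_of_nonneg_right _ hH0.le
          exact_mod_cast hv.2
        refine h3.trans ((hbd N hN2').trans ?_)
        nlinarith only [mul_pos h0 hlog]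
    refine (sum_le_sum h2).trans ?_
    rw [← mul_sum, ← mul_sum, ← mul_sum]
    have h3 := hW u x1 I
    have h4 : 0 ≤ kap A N * N := by positivity
    calc (2 * ε' + K2 / H) * (kap A N * (N * ∑ v ∈ Ico u (4 ^ I * u), mm H v))
        = (2 * ε' + K2 / H) * (∑ v ∈ Ico u (4 ^ I * u), mm H v) * (kap A N * N) := by ring
      _ ≤ (2 * ε' + K2 / H) * (6 * I) * (kap A N * N) := by
          apply mul_le_mul_of_nonneg_right _ h4
          exact mul_le_mul_of_nonneg_left h3 (by positivity)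
      _ = (2 * ε' * (6 * I) + K2 / H * (6 * I)) * (kap A N * N) := by ring
      _ ≤ ε / 2 * (kap A N * N) := by
          apply mul_le_mul_of_nonneg_right _ h4
          linarith
  have e5 : ε * (kap A N * N) = ε / 2 * (kap A N * N) + ε / 2 * (kap A N * N) := by ring
  rw [e5]
  linarith

end Pool.Agent.Y964.SE
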