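import Pool.Agent.Y964.SE.Ram

/-! From sets of primes to weights on the primes, by averaging over the sets: the averages. -/

set_option autoImplicit false

namespace Pool.Agent.Y964.SE

open Finset Pool.Agent.W41
open scoped Classical

/-- the primes up to `n` -/
noncomputable def PN (n : ℕ) : Finset ℕ := (range (n + 1)).filter Nat.Prime

theorem mem_PN {n p : ℕ} : p ∈ PN n ↔ p ≤ n ∧ p.Prime := by
  unfold PN; rw [mem_filter, mem_range, Nat.lt_succ_iff]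

/-- the product of `h p` over the prime factors -/
noncomputable def hf (h : ℕ → ℝ) (n : ℕ) : ℝ := ∏ p ∈ n.primeFactors, h p

/-- the density belonging to the weight `h` -/
noncomputable def kh (h : ℕ → ℝ) (n : ℕ) : ℝ := ∏ p ∈ PN n, (1 - (1 - h p) / (p : ℝ))

/-- the weight of a set of primes -/
noncomputable def pw (h : ℕ → ℝ) (n : ℕ) (A : Finset ℕ) : ℝ :=
  (∏ p ∈ A, h p) * ∏ p ∈ PN n \ A, (1 - h p)

theorem pw_nonneg {h : ℕ → ℝ} (h0 : ∀ p, 0 ≤ h p) (h1 : ∀ p, h p ≤ 1) (n : ℕ) (A : Finset ℕ) : 0 ≤ pw h n A :=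
  mul_nonneg (prod_nonneg fun p _ => h0 p) (prod_nonneg fun p _ => by linarith [h1 p])

theorem hf_nonneg {h : ℕ → ℝ} (h0 : ∀ p, 0 ≤ h p) (n : ℕ) : 0 ≤ hf h n := prod_nonneg fun p _ => h0 p

theorem hf_le_one {h : ℕ → ℝ} (h0 : ∀ p, 0 ≤ h p) (h1 : ∀ p, h p ≤ 1) (n : ℕ) : hf h n ≤ 1 :=
  prod_le_one (fun p _ => h0 p) fun p _ => h1 p

theorem hf_mul (h : ℕ → ℝ) {m n : ℕ} (hmn : Nat.Coprime m n) : hf h (m * n) = hf h m * hf h n := by
  unfold hf
  rw [hmn.primeFactors_mul, prod_union hmn.disjoint_primeFactors]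

theorem kh_fac {h : ℕ → ℝ} (h0 : ∀ p, 0 ≤ h p) (h1 : ∀ p, h p ≤ 1) {p : ℕ} (hp : p.Prime) :
    0 < 1 - (1 - h p) / (p : ℝ) ∧ 1 - (1 - h p) / (p : ℝ) ≤ 1 ∧ 1 - 1 / (p : ℝ) ≤ 1 - (1 - h p) / (p : ℝ) := by
  have hp0 : (0 : ℝ) < p := by exact_mod_cast hp.pos
  have h2 := fac_pos hp
  have h3 : (1 - h p) / (p : ℝ) ≤ 1 / p := div_le_div_of_nonneg_right (by linarith [h0 p]) hp0.le
  have h4 : 0 ≤ (1 - h p) / (p : ℝ) := div_nonneg (by linarith [h1 p]) hp0.le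
  exact ⟨by linarith, by linarith, by linarith⟩

theorem kh_pos {h : ℕ → ℝ} (h0 : ∀ p, 0 ≤ h p) (h1 : ∀ p, h p ≤ 1) (n : ℕ) : 0 < kh h n :=
  prod_pos fun _ hp => (kh_fac h0 h1 (mem_PN.1 hp).2).1

theorem PO_eq (A : Finset ℕ) (n : ℕ) : PO {p | p ∈ A} n = PN n \ A := by
  ext p
  rw [mem_PO, mem_sdiff, mem_PN, Set.mem_ofPred_eq]
  tauto

theorem avg_kap (h : ℕ → ℝ) (n : ℕ) : ∑ A ∈ (PN n).powerset, pw h n A * kap {p | p ∈ A} n = kh h n := by
  have e : ∀ A ∈ (PN n).powerset, pw h n A * kap {p | p ∈ A} n =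
      (∏ p ∈ A, h p) * ∏ p ∈ PN n \ A, (1 - h p) * (1 - 1 / (p : ℝ)) := by
    intro A _
    unfold pw kap V
    rw [PO_eq, prod_mul_distrib, mul_assoc]
  rw [sum_congr rfl e, ← prod_add]
  unfold kh
  apply prod_congr rfl
  intro p _
  ring

theorem avg_kap_R (h : ℕ → ℝ) (n : ℕ) (R : Finset ℕ) :
    ∑ A ∈ (PN n).powerset, pw h n A * kap ({p | p ∈ A} \ {p | p ∈ R}) n =
      kh (fun p => if p ∈ R then 0 else h p) n := by
  have e : ∀ A ∈ (PN n).powerset, pw h n A * kap ({p | p ∈ A} \ {p | p ∈ R}) n =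
      (∏ p ∈ A, h p * (if p ∈ R then 1 - 1 / (p : ℝ) else 1)) * ∏ p ∈ PN n \ A, (1 - h p) * (1 - 1 / (p : ℝ)) := by
    intro A hA
    rw [mem_powerset] at hA
    unfold pw kap V
    have e1 : PO ({p | p ∈ A} \ {p | p ∈ R}) n = A.filter (fun p => p ∈ R) ∪ (PN n \ A) := by
      ext p
      rw [mem_PO, mem_union, mem_filter, mem_sdiff, mem_PN, Set.mem_sdiff, Set.mem_ofPred_eq, Set.mem_ofPred_eq]
      have := @hA p
      rw [mem_PN] at this
      tauto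
    have e2 : Disjoint (A.filter (fun p => p ∈ R)) (PN n \ A) := by
      rw [Finset.disjoint_left]
      intro p h1 h2
      exact (mem_sdiff.1 h2).2 (mem_filter.1 h1).1
    rw [e1, prod_union e2, prod_filter, prod_mul_distrib, prod_mul_distrib]
    ring
  rw [sum_congr rfl e, ← prod_add]
  unfold kh
  apply prod_congr rfl
  intro p _
  by_cases hp : p ∈ R
  · simp only [if_pos hp]; ring
  · simp only [if_neg hp]; ring

theorem mem_EA_iff {A : Finset ℕ} {n : ℕ} (hn : 1 ≤ n) : n ∈ EA {p | p ∈ A} ↔ n.primeFactors ⊆ A := by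
  constructor
  · intro h p hp
    exact h.2 p (Nat.prime_of_mem_primeFactors hp) (Nat.dvd_of_mem_primeFactors hp)
  · intro h
    exact ⟨hn, fun p hp hpn => h (Nat.mem_primeFactors.2 ⟨hp, hpn, by omega⟩)⟩

theorem avg_ind (h : ℕ → ℝ) {n m : ℕ} (hm : 1 ≤ m) (hmn : m ≤ n) :
    ∑ A ∈ (PN n).powerset, pw h n A * (if m ∈ EA {p | p ∈ A} then 1 else 0) = hf h m := by
  have hsub : m.primeFactors ⊆ PN n := fun p hp => mem_PN.2
    ⟨(Nat.le_of_mem_primeFactors hp).trans hmn, Nat.prime_of_mem_primeFactors hp⟩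
  have e : ∀ A ∈ (PN n).powerset, pw h n A * (if m ∈ EA {p | p ∈ A} then 1 else 0) =
      (∏ p ∈ A, h p) * ∏ p ∈ PN n \ A, (if p ∈ m.primeFactors then 0 else (1 - h p)) := by
    intro A _
    unfold pw
    by_cases hmA : m.primeFactors ⊆ A
    · rw [if_pos ((mem_EA_iff hm).2 hmA), mul_one]
      congr 1
      apply prod_congr rfl
      intro p hp
      rw [if_neg (fun h2 => (mem_sdiff.1 hp).2 (hmA h2))]
    · rw [if_neg (fun h2 => hmA ((mem_EA_iff hm).1 h2)), mul_zero]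
      symm
      rw [not_subset] at hmA
      obtain ⟨p, hp, hpA⟩ := hmA
      have h3 : ∏ p ∈ PN n \ A, (if p ∈ m.primeFactors then 0 else (1 - h p)) = 0 :=
        prod_eq_zero (mem_sdiff.2 ⟨hsub hp, hpA⟩) (if_pos hp)
      rw [h3, mul_zero]
  rw [sum_congr rfl e, ← prod_add]
  unfold hf
  rw [← prod_subset hsub (f := fun p => h p + if p ∈ m.primeFactors then 0 else (1 - h p))]
  · apply prod_congr rfl
    intro p hp
    rw [if_pos hp, add_zero]
  · intro p _ hp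
    rw [if_neg hp]; ring

/-- averages of sums over `FA` -/
theorem avg_sum {E : Type*} [AddCommGroup E] [Module ℝ E] (h : ℕ → ℝ) {n : ℕ} {x : ℝ} (hx : x ≤ n) (F : ℕ → E) :
    ∑ A ∈ (PN n).powerset, pw h n A • ∑ m ∈ FA {p | p ∈ A} x, F m = ∑ m ∈ Icc 1 ⌊x⌋₊, hf h m • F m := by
  have hxn : ⌊x⌋₊ ≤ n := by
    have := Nat.floor_le_floor hx
    rwa [Nat.floor_natCast] at this
  have e : ∀ A ∈ (PN n).powerset, pw h n A • ∑ m ∈ FA {p | p ∈ A} x, F m =
      ∑ m ∈ Icc 1 ⌊x⌋₊, (pw h n A * (if m ∈ EA {p | p ∈ A} then 1 else 0)) • F m := by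
    intro A _
    unfold FA
    rw [sum_filter, smul_sum]
    apply sum_congr rfl
    intro m _
    split_ifs
    · rw [mul_one]
    · rw [mul_zero, zero_smul, smul_zero]
  rw [sum_congr rfl e, sum_comm]
  apply sum_congr rfl
  intro m hm
  rw [mem_Icc] at hm
  rw [← sum_smul, avg_ind h hm.1 (hm.2.trans hxn)]

end Pool.Agent.Y964.SE
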