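import Pool.Agent.Y964.SE.Core
import Pool.Agent.Y964.SE.Av0

/-! From sets of primes to weights on the primes, by averaging over the sets. -/

set_option autoImplicit false

namespace Pool.Agent.Y964.SE

open Finset Pool.Agent.H320R2.PD Pool.Agent.H499R2.ND Pool.Agent.H499R2.CO Pool.Agent.H376R2.MR
  Pool.Agent.W41.FU Pool.Agent.W41 Pool.Agent.W41.MU Pool.Agent.TH926.BL
open scoped Classical

/-- THEOREM D: multiplicative functions dominated by the product over the prime factors. -/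
theorem thmD {s : ℤ} (hs : s = 1 ∨ s = -1) : ∃ K : ℝ, 1 ≤ K ∧ ∀ (I : ℕ) (ε : ℝ), 0 < ε →
    ∃ H : ℕ, 10 ≤ H ∧ ∃ ϑ : ℝ, 0 < ϑ ∧ ϑ ≤ 1 ∧ ∃ v0 : ℕ → ℕ, Filter.Tendsto v0 Filter.atTop Filter.atTop ∧
    ∃ N0 : ℕ, 2 ≤ N0 ∧ (∀ N : ℕ, N0 ≤ N → ((4 ^ I * v0 N : ℕ) : ℝ) / H ≤ Real.log N / 4) ∧
    ∀ N : ℕ, N0 ≤ N → ∀ S : Set ℤ, Inv 1 S → ∀ δ : ℝ, HD s S δ →
    ∀ r : ℕ, r % 2 = 1 → (r : ℝ) ≤ (N : ℝ) ^ ϑ → ∀ h : ℕ → ℝ, (∀ p, 0 ≤ h p) → (∀ p, h p ≤ 1) →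
    ∀ g : ℕ → ℂ, (∀ n, ‖g n‖ ≤ hf h n) → (∀ m n : ℕ, Nat.Coprime m n → g (m * n) = g m * g n) →
    ‖∑ n ∈ Icc 1 N, (bal s S δ ((r * n : ℕ) : ℤ) : ℂ) * g n‖ ≤
      ε * (kh h N * N) + K * (kh (fun p => if p ∈ RN H (v0 N) (4 ^ I * v0 N) then 0 else h p) N * N) := by
  obtain ⟨K, hK, hcore⟩ := core hs
  refine ⟨K, hK, fun I ε hε => ?_⟩
  obtain ⟨H, hH, ϑ, h0, h01, v0, tv, N0, hN02, hN0l, hN0⟩ := hcore I ε hε
  refine ⟨H, hH, ϑ, h0, h01, v0, tv, N0, hN02, hN0l, fun N hN S hS δ hδ r hr hrN h hh0 hh1 g hg hgm => ?_⟩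
  set g1 : ℕ → ℂ := fun n => g n / (hf h n : ℂ) with hg1
  have hg1n : ∀ n, ‖g1 n‖ ≤ 1 := by
    intro n
    simp only [hg1]
    rw [norm_div, Complex.norm_real, Real.norm_eq_abs, abs_of_nonneg (hf_nonneg hh0 n)]
    exact div_le_one_of_le₀ (hg n) (hf_nonneg hh0 n)
  have hg1m : ∀ m n : ℕ, Nat.Coprime m n → g1 (m * n) = g1 m * g1 n := by
    intro m n hmn
    simp only [hg1]
    rw [hgm m n hmn, hf_mul h hmn]
    push_cast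
    rw [mul_div_mul_comm]
  have hgg : ∀ n, g n = (hf h n : ℂ) * g1 n := by
    intro n
    simp only [hg1]
    by_cases hz : hf h n = 0
    · have := hg n
      rw [hz] at this
      have h3 : g n = 0 := norm_le_zero_iff.1 this
      rw [h3]; simp
    · have : (hf h n : ℂ) ≠ 0 := by exact_mod_cast hz
      field_simp
  have e1 : ∑ n ∈ Icc 1 N, (bal s S δ ((r * n : ℕ) : ℤ) : ℂ) * g n =
      ∑ A ∈ (PN N).powerset, pw h N A • ∑ m ∈ FA {p | p ∈ A} (N : ℝ), (bal s S δ ((r * m : ℕ) : ℤ) : ℂ) * g1 m := by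
    rw [avg_sum h le_rfl, Nat.floor_natCast]
    apply sum_congr rfl
    intro n _
    rw [hgg n, Complex.real_smul]
    ring
  rw [e1]
  refine (norm_sum_le _ _).trans ?_
  have e2 : ∀ A ∈ (PN N).powerset, ‖pw h N A • ∑ m ∈ FA {p | p ∈ A} (N : ℝ),
      (bal s S δ ((r * m : ℕ) : ℤ) : ℂ) * g1 m‖ ≤ ε * N * (pw h N A * kap {p | p ∈ A} N) +
      K * N * (pw h N A * kap ({p | p ∈ A} \ {p | p ∈ RN H (v0 N) (4 ^ I * v0 N)}) N) := by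
    intro A _
    have hp := pw_nonneg hh0 hh1 N A
    rw [norm_smul, Real.norm_eq_abs, abs_of_nonneg hp]
    refine (mul_le_mul_of_nonneg_left (hN0 N hN S hS δ hδ r hr hrN {p | p ∈ A} g1 hg1n hg1m) hp).trans
      (le_of_eq ?_)
    ring
  refine (sum_le_sum e2).trans (le_of_eq ?_)
  rw [sum_add_distrib, ← mul_sum, ← mul_sum, avg_kap, avg_kap_R]
  ring

/-- the upper bound for sums of the weights -/
theorem hf_upper : ∃ K : ℝ, 1 ≤ K ∧ ∃ N0 : ℕ, 2 ≤ N0 ∧ ∀ N : ℕ, N0 ≤ N → ∀ h : ℕ → ℝ, (∀ p, 0 ≤ h p) →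
    (∀ p, h p ≤ 1) → ∀ M : ℕ, M ≤ N → (N : ℝ) ^ (1 / 2 : ℝ) ≤ M →
    ∑ n ∈ Icc 1 M, hf h n ≤ K * kh h N * M := by
  obtain ⟨K, hK, N0, hN0, hc⟩ := count_int
  refine ⟨K, hK, N0, hN0, fun N hN h h0 h1 M hMN hM => ?_⟩
  have e1 : ∑ n ∈ Icc 1 M, hf h n = ∑ A ∈ (PN N).powerset, pw h N A * (#(FA {p | p ∈ A} (M : ℝ)) : ℝ) := by
    have h2 := avg_sum (E := ℝ) h (n := N) (x := (M : ℝ)) (by exact_mod_cast hMN) (fun _ => (1 : ℝ))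
    simp only [smul_eq_mul, mul_one, sum_const, nsmul_eq_mul, Nat.floor_natCast] at h2
    exact h2.symm
  rw [e1]
  have e2 : ∀ A ∈ (PN N).powerset, pw h N A * (#(FA {p | p ∈ A} (M : ℝ)) : ℝ) ≤
      K * M * (pw h N A * kap {p | p ∈ A} N) := by
    intro A _
    have h3 := hc N hN {p | p ∈ A} 1 M hM (FA {p | p ∈ A} (M : ℝ)) (by
      intro m hm
      rw [mem_FA_nat] at hm
      rw [mem_Ico]
      have := hm.2.1
      omega) (fun m hm => (mem_FA_nat.1 hm).2)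
    refine (mul_le_mul_of_nonneg_left h3 (pw_nonneg h0 h1 N A)).trans (le_of_eq ?_)
    ring
  refine (sum_le_sum e2).trans (le_of_eq ?_)
  rw [← mul_sum, avg_kap]
  ring

end Pool.Agent.Y964.SE
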