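import Pool.Agent.Y964.SE.Lo
import Pool.Agent.Y964.SE.Av

/-! Lower bounds for sums of multiplicative functions, part 2. -/

set_option autoImplicit false

namespace Pool.Agent.Y964.SE

open Finset Pool.Agent.H320R2.PD Pool.Agent.H499R2.ND Pool.Agent.H499R2.CO Pool.Agent.H376R2.MR
  Pool.Agent.W41.FU Pool.Agent.W41 Pool.Agent.W41.MU Pool.Agent.TH926.BL
open scoped Classical

theorem kh_anti {h : ℕ → ℝ} (h0 : ∀ p, 0 ≤ h p) (h1 : ∀ p, h p ≤ 1) {y n : ℕ} (hyn : y ≤ n) :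
    kh h n ≤ kh h y := by
  have hsub : PN y ⊆ PN n := fun p hp => by rw [mem_PN] at hp ⊢; exact ⟨hp.1.trans hyn, hp.2⟩
  unfold kh
  rw [← prod_sdiff hsub]
  apply mul_le_of_le_one_left (prod_nonneg fun p hp => (kh_fac h0 h1 (mem_PN.1 hp).2).1.le)
  exact prod_le_one (fun p hp => (kh_fac h0 h1 (mem_PN.1 (mem_sdiff.1 hp).1).2).1.le)
    fun p hp => (kh_fac h0 h1 (mem_PN.1 (mem_sdiff.1 hp).1).2).2.1

theorem kh_mono {h h' : ℕ → ℝ} (h0 : ∀ p, 0 ≤ h p) (h1 : ∀ p, h p ≤ 1) (hh : ∀ p, h p ≤ h' p) (n : ℕ) :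
    kh h n ≤ kh h' n := by
  unfold kh
  apply prod_le_prod (fun p hp => (kh_fac h0 h1 (mem_PN.1 hp).2).1.le)
  intro p hp
  have hp0 : (0 : ℝ) < p := by exact_mod_cast (mem_PN.1 hp).2.pos
  have : (1 - h' p) / (p : ℝ) ≤ (1 - h p) / p := div_le_div_of_nonneg_right (by linarith [hh p]) hp0.le
  linarith

/-- comparison of the densities at two levels -/
theorem kh_ratio : ∃ C : ℝ, 1 ≤ C ∧ ∀ h : ℕ → ℝ, (∀ p, 0 ≤ h p) → (∀ p, h p ≤ 1) → ∀ y n : ℕ, 2 ≤ y → y ≤ n →
    kh h y ≤ C * (Real.log n / Real.log y) * kh h n := by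
  obtain ⟨C, hC, hr⟩ := kap_ratio
  refine ⟨C, hC, fun h h0 h1 y n hy hyn => ?_⟩
  have hsub : PN y ⊆ PN n := fun p hp => by rw [mem_PN] at hp ⊢; exact ⟨hp.1.trans hyn, hp.2⟩
  have e : kh h n = (∏ p ∈ PN n \ PN y, (1 - (1 - h p) / (p : ℝ))) * kh h y := by
    unfold kh; rw [prod_sdiff hsub]
  have e1 : ∀ m : ℕ, PO ∅ m = PN m := fun m => by
    ext p
    rw [mem_PO, mem_PN]
    simp
  have h2 := hr ∅ y n hy hyn
  have e2 : kap ∅ n = (∏ p ∈ PN n \ PN y, (1 - 1 / (p : ℝ))) * kap ∅ y := by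
    unfold kap Pool.Agent.W41.V; rw [e1, e1, prod_sdiff hsub]
  have h3 : (∏ p ∈ PN n \ PN y, (1 - 1 / (p : ℝ))) ≤ ∏ p ∈ PN n \ PN y, (1 - (1 - h p) / (p : ℝ)) := by
    apply prod_le_prod
    · intro p hp; exact (fac_pos (mem_PN.1 (mem_sdiff.1 hp).1).2).le
    · intro p hp; exact (kh_fac h0 h1 (mem_PN.1 (mem_sdiff.1 hp).1).2).2.2
  have hk := kap_pos ∅ y
  have hk' := kh_pos h0 h1 y
  have hn0 : (0 : ℝ) ≤ Real.log n := Real.log_natCast_nonneg _
  have hy0 : (0 : ℝ) ≤ Real.log y := Real.log_natCast_nonneg _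
  have hC0 : 0 ≤ C * (Real.log n / Real.log y) := by positivity
  have h4 : 1 ≤ C * (Real.log n / Real.log y) * ∏ p ∈ PN n \ PN y, (1 - 1 / (p : ℝ)) := by
    rw [e2] at h2
    have h5 : 1 * kap ∅ y ≤ (C * (Real.log n / Real.log y) * ∏ p ∈ PN n \ PN y, (1 - 1 / (p : ℝ))) * kap ∅ y := by
      rw [one_mul]; linarith
    exact le_of_mul_le_mul_right h5 hk
  rw [e]
  have h6 := mul_le_mul_of_nonneg_right (h4.trans (mul_le_mul_of_nonneg_left h3 hC0)) hk'.le
  linarith

/-- the effect of removing the primes of `R` -/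
theorem kh_R {h : ℕ → ℝ} (h0 : ∀ p, 0 ≤ h p) (h1 : ∀ p, h p ≤ 1) (n : ℕ) {R : Finset ℕ} (hR : R ⊆ PN n) :
    kh (fun p => if p ∈ R then 0 else h p) n ≤ kh h n * Real.exp (-∑ p ∈ R, h p / (p : ℝ)) := by
  unfold kh
  rw [← prod_sdiff hR, ← prod_sdiff hR (f := fun p => 1 - (1 - h p) / (p : ℝ)), ← sum_neg_distrib, Real.exp_sum,
    mul_assoc, ← prod_mul_distrib]
  have hP : ∀ p ∈ R, p.Prime := fun p hp => (mem_PN.1 (hR hp)).2
  apply mul_le_mul
  · apply le_of_eq
    apply prod_congr rfl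
    intro p hp
    beta_reduce
    rw [if_neg (mem_sdiff.1 hp).2]
  · apply prod_le_prod
    · intro p hp
      beta_reduce
      rw [if_pos hp]
      have := fac_pos (hP p hp)
      simpa using this.le
    · intro p hp
      beta_reduce
      rw [if_pos hp]
      have hp0 : (0 : ℝ) < p := by exact_mod_cast (hP p hp).pos
      have h2 := (kh_fac h0 h1 (hP p hp)).1
      have h3 : 1 - h p / (p : ℝ) ≤ Real.exp (-(h p / p)) := by
        have := Real.add_one_le_exp (-(h p / (p : ℝ)))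
        linarith
      refine le_trans ?_ (mul_le_mul_of_nonneg_left h3 h2.le)
      have e : (1 - (1 - h p) / (p : ℝ)) * (1 - h p / p) = 1 - (1 - 0) / p + h p * (1 - h p) / p ^ 2 := by
        field_simp; ring
      rw [e]
      have h4 : 0 ≤ h p * (1 - h p) / (p : ℝ) ^ 2 :=
        div_nonneg (mul_nonneg (h0 p) (by linarith [h1 p])) (by positivity)
      linarith
  · apply prod_nonneg
    intro p hp
    beta_reduce
    rw [if_pos hp]
    have := fac_pos (hP p hp)
    simpa using this.le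
  · apply prod_nonneg
    intro p hp
    exact (kh_fac h0 h1 (mem_PN.1 (mem_sdiff.1 hp).1).2).1.le

/-- the sum over the primes of the cells -/
theorem rn_low {c : ℝ} (hc : 0 < c) (x0 : ℕ) : ∃ c3 : ℝ, 0 < c3 ∧ ∀ H : ℕ, 1 ≤ H → ∃ u0 : ℕ, 1 ≤ u0 ∧
    ∀ h : ℕ → ℝ, (∀ p, 0 ≤ h p) → (∀ p, h p ≤ 1) → HypD c x0 h → ∀ u : ℕ, u0 ≤ u → ∀ I : ℕ,
    c3 * I ≤ ∑ p ∈ RN H u (4 ^ I * u), h p / (p : ℝ) := by
  obtain ⟨K, hK, x1, hx1, hwin⟩ := window_low hc x0
  have hKR : (2 : ℝ) ≤ K := by exact_mod_cast hK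
  have hK0 : (0 : ℝ) < K := by linarith
  have hlK : 0 < Real.log K := Real.log_pos (by linarith)
  refine ⟨c / (4 * Real.log K), by positivity, fun H hH => ?_⟩
  have hH0 : (0 : ℝ) < H := by exact_mod_cast hH
  obtain ⟨u1, hu1⟩ := exists_nat_ge ((x1 + 1) * (H * Real.log K))
  refine ⟨max 1 u1, le_max_left _ _, fun h h0 h1 hyp u hu I => ?_⟩
  have huu1 : u1 ≤ u := (le_max_right _ _).trans hu
  have hu1' : 1 ≤ u := (le_max_left _ _).trans hu
  -- one block
  have hblock : ∀ w : ℕ, u ≤ w → c / (4 * Real.log K) ≤ ∑ p ∈ RN H w (4 * w), h p / (p : ℝ) := by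
    intro w hw
    have hwR : ((x1 : ℝ) + 1) * (H * Real.log K) ≤ w := hu1.trans (by exact_mod_cast huu1.trans hw)
    set J : ℕ := ⌈(w : ℝ) / (H * Real.log K)⌉₊ with hJ
    have hJ1 : (w : ℝ) / (H * Real.log K) ≤ J := Nat.le_ceil _
    have hJ2 : (J : ℝ) < w / (H * Real.log K) + 1 := Nat.ceil_lt_add_one (by positivity)
    have hJx : ((x1 : ℝ) + 1) ≤ J := by
      refine le_trans ?_ hJ1
      rw [le_div_iff₀ (by positivity)]
      exact hwR
    have hJx' : x1 + 1 ≤ J := by exact_mod_cast hJx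
    have hJ0 : (0 : ℝ) < J := by
      have : (0 : ℝ) ≤ x1 := Nat.cast_nonneg _
      linarith
    rw [div_le_iff₀ (by positivity)] at hJ1
    have hJ2' : (J : ℝ) * (H * Real.log K) < w + H * Real.log K := by
      have := mul_lt_mul_of_pos_right hJ2 (show 0 < (H : ℝ) * Real.log K by positivity)
      rw [add_mul, div_mul_cancel₀ _ (by positivity)] at this
      linarith
    -- the windows
    have hsub : (Ico J (2 * J)).biUnion (fun j => (PN (K ^ (j + 1))).filter (fun p => K ^ (j + 1) < K * p)) ⊆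
        RN H w (4 * w) := by
      intro p hp
      rw [mem_biUnion] at hp
      obtain ⟨j, hj, hp⟩ := hp
      rw [mem_filter, mem_PN] at hp
      rw [mem_Ico] at hj
      have hpp := hp.1.2
      have hp0 : (0 : ℝ) < p := by exact_mod_cast hpp.pos
      have h2 : K ^ j < p := by
        have := hp.2
        rw [pow_succ, mul_comm] at this
        exact Nat.lt_of_mul_lt_mul_left this
      have h3 : (j : ℝ) * Real.log K < Real.log p := by
        rw [← Real.log_pow]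
        exact Real.log_lt_log (by positivity) (by exact_mod_cast h2)
      have h4 : Real.log p ≤ ((j : ℝ) + 1) * Real.log K := by
        have : Real.log p ≤ Real.log ((K : ℝ) ^ (j + 1)) := Real.log_le_log hp0 (by exact_mod_cast hp.1.1)
        rw [Real.log_pow] at this
        push_cast at this
        exact this
      have hjJ : (J : ℝ) ≤ j := by exact_mod_cast hj.1
      have hjJ2 : ((j : ℝ) + 1) ≤ 2 * J := by exact_mod_cast hj.2
      rw [mem_RN hH]
      refine ⟨hpp, ?_, ?_⟩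
      · unfold ix
        apply Nat.le_floor
        have h5 : (J : ℝ) * Real.log K ≤ j * Real.log K := mul_le_mul_of_nonneg_right hjJ hlK.le
        have h6 : (H : ℝ) * ((J : ℝ) * Real.log K) ≤ H * Real.log p := mul_le_mul_of_nonneg_left (by linarith) hH0.le
        linarith
      · unfold ix
        rw [Nat.floor_lt (mul_nonneg hH0.le (Real.log_natCast_nonneg p))]
        have h5 : ((j : ℝ) + 1) * Real.log K ≤ 2 * J * Real.log K := mul_le_mul_of_nonneg_right hjJ2 hlK.le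
        have h6 : (H : ℝ) * Real.log p ≤ H * (2 * J * Real.log K) := mul_le_mul_of_nonneg_left (by linarith) hH0.le
        have h7 : (H : ℝ) * Real.log K ≤ w := by
          have : (0 : ℝ) ≤ x1 := Nat.cast_nonneg _
          have h8 : 0 < (H : ℝ) * Real.log K := by positivity
          nlinarith
        push_cast
        have h8 : (H : ℝ) * (2 * J * Real.log K) = 2 * (J * (H * Real.log K)) := by ring
        linarith
    have hterm : ∀ p, 0 ≤ h p / (p : ℝ) := fun p => div_nonneg (h0 p) (Nat.cast_nonneg _)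
    refine le_trans ?_ (sum_le_sum_of_subset_of_nonneg hsub fun p _ _ => hterm p)
    rw [sum_biUnion]
    · have hj : ∀ j ∈ Ico J (2 * J), c / (4 * Real.log K) * (1 / J) ≤
          ∑ p ∈ (PN (K ^ (j + 1))).filter (fun p => K ^ (j + 1) < K * p), h p / (p : ℝ) := by
        intro j hj
        rw [mem_Ico] at hj
        have hKj : x1 ≤ K ^ (j + 1) := by
          have h2 : j + 1 < 2 ^ (j + 1) := Nat.lt_two_pow_self
          have h3 : 2 ^ (j + 1) ≤ K ^ (j + 1) := Nat.pow_le_pow_left hK _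
          omega
        have h2 := hwin h h0 h1 hyp (K ^ (j + 1)) hKj
        have hKp : (0 : ℝ) < (K : ℝ) ^ (j + 1) := by positivity
        have h3 : ∀ p ∈ (PN (K ^ (j + 1))).filter (fun p => K ^ (j + 1) < K * p),
            h p * (1 / (K : ℝ) ^ (j + 1)) ≤ h p / (p : ℝ) := by
          intro p hp
          rw [mem_filter, mem_PN] at hp
          have hp0 : (0 : ℝ) < p := by exact_mod_cast hp.1.2.pos
          rw [mul_one_div]
          apply div_le_div_of_nonneg_left (h0 p) hp0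
          exact_mod_cast hp.1.1
        refine le_trans ?_ (sum_le_sum h3)
        rw [← sum_mul]
        push_cast at h2
        rw [Real.log_pow] at h2
        refine le_trans ?_ (mul_le_mul_of_nonneg_right h2 (by positivity))
        have e : c / 2 * ((K : ℝ) ^ (j + 1) / (((j + 1 : ℕ) : ℝ) * Real.log K)) * (1 / (K : ℝ) ^ (j + 1)) =
            c / (2 * (((j + 1 : ℕ) : ℝ) * Real.log K)) := by
          field_simp
        rw [e]
        have e2 : c / (4 * Real.log K) * (1 / J) = c / (2 * ((2 * J) * Real.log K)) := by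
          field_simp; norm_num
        rw [e2]
        apply div_le_div_of_nonneg_left hc.le (by positivity)
        apply mul_le_mul_of_nonneg_left _ (by norm_num)
        apply mul_le_mul_of_nonneg_right _ hlK.le
        exact_mod_cast hj.2
      refine le_trans (le_of_eq ?_) (sum_le_sum hj)
      rw [sum_const, Nat.card_Ico, nsmul_eq_mul, show 2 * J - J = J by omega]
      field_simp
    · intro j _ j' _ hjj
      rw [Function.onFun, Finset.disjoint_left]
      intro p hp hp'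
      rw [mem_filter, mem_PN] at hp hp'
      have a1 : K ^ j < p := by
        have := hp.2
        rw [pow_succ, mul_comm] at this
        exact Nat.lt_of_mul_lt_mul_left this
      have a2 : K ^ j' < p := by
        have := hp'.2
        rw [pow_succ, mul_comm] at this
        exact Nat.lt_of_mul_lt_mul_left this
      have b1 := hp.1.1
      have b2 := hp'.1.1
      have h2 : j < j' + 1 := (Nat.pow_lt_pow_iff_right (by omega : 1 < K)).1 (a1.trans_le b2)
      have h3 : j' < j + 1 := (Nat.pow_lt_pow_iff_right (by omega : 1 < K)).1 (a2.trans_le b1)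
      exact hjj (by omega)
  induction I with
  | zero => simp [RN]
  | succ I ih =>
    have h2 : u ≤ 4 ^ I * u := Nat.le_mul_of_pos_left u (by positivity)
    have h3 : 4 ^ I * u ≤ 4 ^ (I + 1) * u := Nat.mul_le_mul_right _ (Nat.pow_le_pow_right (by norm_num) (by omega))
    rw [sum_RN' hH, ← sum_Ico_consecutive _ h2 h3, ← sum_RN' hH, ← sum_RN' hH]
    have h4 := hblock (4 ^ I * u) h2
    have e : 4 ^ (I + 1) * u = 4 * (4 ^ I * u) := by rw [pow_succ]; ring
    rw [e]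
    push_cast
    linarith

/-- THE LOWER BOUND. -/
theorem sum_low {c : ℝ} (hc : 0 < c) (x0 : ℕ) : ∃ c4 : ℝ, 0 < c4 ∧ ∃ N0 : ℕ, 2 ≤ N0 ∧ ∀ h : ℕ → ℝ, (∀ n, 0 ≤ h n) →
    (∀ n, h n ≤ 1) → h 1 = 1 → (∀ m n : ℕ, Nat.Coprime m n → h (m * n) = h m * h n) → HypD c x0 h →
    ∀ N : ℕ, N0 ≤ N → c4 * (kh h N * N) ≤ ∑ n ∈ Icc 1 N, h n := by
  obtain ⟨K, hK, x1, hx1, hwin⟩ := window_low hc x0
  have hKR : (2 : ℝ) ≤ K := by exact_mod_cast hK
  have hK0 : (0 : ℝ) < K := by linarith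
  have tn := tendsto_natCast_atTop_atTop (R := ℝ)
  have ev : ∀ᶠ N : ℕ in Filter.atTop, (2 : ℝ) ≤ (N : ℝ) ^ (1 / 12 : ℝ) ∧ (K : ℝ) + 1 ≤ (N : ℝ) ^ (1 / 3 : ℝ) ∧
      (x1 : ℝ) + 1 ≤ (N : ℝ) ^ (2 / 3 : ℝ) := by
    refine Filter.Eventually.and ?_ (Filter.Eventually.and ?_ ?_)
    · exact ((tendsto_rpow_atTop (by norm_num)).comp tn).eventually_ge_atTop _
    · exact ((tendsto_rpow_atTop (by norm_num)).comp tn).eventually_ge_atTop _
    · exact ((tendsto_rpow_atTop (by norm_num)).comp tn).eventually_ge_atTop _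
  obtain ⟨N1, hN1⟩ := Filter.eventually_atTop.1 ev
  refine ⟨c / 32, by positivity, max 2 N1, le_max_left _ _, fun h h0 h1 hone hm hyp N hN => ?_⟩
  obtain ⟨z1, z2, z3⟩ := hN1 N ((le_max_right _ _).trans hN)
  have hN2 : 2 ≤ N := (le_max_left _ _).trans hN
  have hNp : (0 : ℝ) < N := by exact_mod_cast (by omega : 0 < N)
  have hN1' : (1 : ℝ) ≤ N := by exact_mod_cast (by omega : 1 ≤ N)
  have hlog : 0 < Real.log N := Real.log_pos (by exact_mod_cast (by omega : 1 < N))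
  set M : ℕ := ⌊(N : ℝ) ^ (1 / 3 : ℝ)⌋₊ with hM
  have hMle : (M : ℝ) ≤ (N : ℝ) ^ (1 / 3 : ℝ) := Nat.floor_le (by positivity)
  have hMlt : (N : ℝ) ^ (1 / 3 : ℝ) < M + 1 := Nat.lt_floor_add_one _
  have hM2 : 1 ≤ M := by
    apply Nat.le_floor
    rw [Nat.cast_one]
    exact Real.one_le_rpow hN1' (by norm_num)
  have hM0 : (0 : ℝ) < M := by exact_mod_cast hM2
  have hN3 : (N : ℝ) ^ (1 / 3 : ℝ) * (N : ℝ) ^ (2 / 3 : ℝ) = N := by
    rw [← Real.rpow_add hNp]; norm_num
  have hN33 : (N : ℝ) ^ (2 / 3 : ℝ) = (N : ℝ) ^ (1 / 3 : ℝ) * (N : ℝ) ^ (1 / 3 : ℝ) := by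
    rw [← Real.rpow_add hNp]; norm_num
  have hMN : M ≤ N := by
    have : (M : ℝ) ≤ N := hMle.trans (by
      calc (N : ℝ) ^ (1 / 3 : ℝ) ≤ (N : ℝ) ^ (1 : ℝ) := Real.rpow_le_rpow_of_exponent_le hN1' (by norm_num)
        _ = N := Real.rpow_one _)
    exact_mod_cast this
  have hlogM : Real.log N / 4 ≤ Real.log M := by
    have h2 : (N : ℝ) ^ (1 / 4 : ℝ) ≤ M := by
      have h3 : (N : ℝ) ^ (1 / 3 : ℝ) = (N : ℝ) ^ (1 / 4 : ℝ) * (N : ℝ) ^ (1 / 12 : ℝ) := by
        rw [← Real.rpow_add hNp]; norm_num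
      have h4 : 1 ≤ (N : ℝ) ^ (1 / 4 : ℝ) := Real.one_le_rpow hN1' (by norm_num)
      nlinarith
    have h3 := Real.log_le_log (by positivity) h2
    rw [Real.log_rpow hNp] at h3
    linarith
  -- the pairs
  set D : Finset (ℕ × ℕ) := ((Icc 1 M).filter Squarefree).biUnion (fun m =>
    ((PN (N / m)).filter (fun q => N / m < K * q)).image (fun q => (m, q))) with hD
  have hDm : ∀ z ∈ D, 1 ≤ z.1 ∧ z.1 ≤ M ∧ Squarefree z.1 ∧ z.2.Prime ∧ z.1 * z.2 ≤ N ∧ M < z.2 := by
    intro z hz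
    rw [hD, mem_biUnion] at hz
    obtain ⟨m, hm, hz⟩ := hz
    rw [mem_filter, mem_Icc] at hm
    rw [mem_image] at hz
    obtain ⟨q, hq, rfl⟩ := hz
    rw [mem_filter, mem_PN] at hq
    obtain ⟨⟨q1, q2⟩, q3⟩ := hq
    have hm0 : 0 < m := hm.1.1
    have q4 : q * m ≤ N := (Nat.le_div_iff_mul_le hm0).1 q1
    refine ⟨hm.1.1, hm.1.2, hm.2, q2, by rw [mul_comm]; exact q4, ?_⟩
    by_contra hcon
    push Not at hcon
    have q5 : N < (K * q) * m := (Nat.div_lt_iff_lt_mul hm0).1 q3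
    have q6 : (N : ℝ) < (K * M) * M := by
      have : N < (K * M) * M := q5.trans_le (Nat.mul_le_mul (Nat.mul_le_mul_left _ hcon) hm.1.2)
      exact_mod_cast this
    have q7 : ((K : ℝ) * M) * M ≤ (N : ℝ) ^ (1 / 3 : ℝ) * (N : ℝ) ^ (2 / 3 : ℝ) := by
      rw [hN33, mul_assoc]
      apply mul_le_mul (by linarith) _ (by positivity) (by positivity)
      exact mul_le_mul hMle hMle hM0.le (by positivity)
    rw [hN3] at q7
    linarith
  have hinj : Set.InjOn (fun z : ℕ × ℕ => z.1 * z.2) (D : Set (ℕ × ℕ)) := by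
    intro z hz z' hz' hh
    obtain ⟨a1, a2, a3, a4, a5, a6⟩ := hDm z hz
    obtain ⟨b1, b2, b3, b4, b5, b6⟩ := hDm z' hz'
    simp only at hh
    have h2 : z.2 ∣ z'.1 * z'.2 := by rw [← hh]; exact dvd_mul_left _ _
    have h3 : z.2 = z'.2 := by
      rcases a4.dvd_or_dvd h2 with h4 | h4
      · have := Nat.le_of_dvd (by omega) h4
        omega
      · exact (Nat.prime_dvd_prime_iff_eq a4 b4).1 h4
    rw [h3] at hh
    have h4 : z.1 = z'.1 := Nat.eq_of_mul_eq_mul_right b4.pos hh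
    exact Prod.ext h4 h3
  have hsum1 : ∑ z ∈ D, h (z.1 * z.2) ≤ ∑ n ∈ Icc 1 N, h n := by
    rw [← sum_image (f := h) hinj]
    apply sum_le_sum_of_subset_of_nonneg
    · intro n hn
      rw [mem_image] at hn
      obtain ⟨z, hz, rfl⟩ := hn
      obtain ⟨a1, a2, a3, a4, a5, a6⟩ := hDm z hz
      rw [mem_Icc]
      exact ⟨Nat.mul_pos a1 a4.pos, a5⟩
    · intro n _ _; exact h0 n
  refine le_trans ?_ hsum1
  have e1 : ∑ z ∈ D, h (z.1 * z.2) = ∑ m ∈ (Icc 1 M).filter Squarefree, h m *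
      ∑ q ∈ (PN (N / m)).filter (fun q => N / m < K * q), h q := by
    have e2 : ∑ z ∈ D, h (z.1 * z.2) = ∑ z ∈ D, h z.1 * h z.2 := by
      apply sum_congr rfl
      intro z hz
      obtain ⟨a1, a2, a3, a4, a5, a6⟩ := hDm z hz
      apply hm
      apply Nat.Coprime.symm
      rw [Nat.Prime.coprime_iff_not_dvd a4]
      intro h2
      have := Nat.le_of_dvd (by omega) h2
      omega
    rw [e2, hD, sum_biUnion]
    · apply sum_congr rfl
      intro m _
      rw [sum_image (fun _ _ _ _ hh => (Prod.mk.inj hh).2), mul_sum]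
    · intro m _ m' _ hmm
      rw [Function.onFun, Finset.disjoint_left]
      intro z h2 h3
      rw [mem_image] at h2 h3
      obtain ⟨q, _, rfl⟩ := h2
      obtain ⟨q', _, h4⟩ := h3
      exact hmm (Prod.mk.inj h4).1.symm
  rw [e1]
  have h2 : ∀ m ∈ (Icc 1 M).filter Squarefree, c / 4 * (N / Real.log N) * (hf h m / m) ≤ h m *
      ∑ q ∈ (PN (N / m)).filter (fun q => N / m < K * q), h q := by
    intro m hm'
    rw [mem_filter, mem_Icc] at hm'
    obtain ⟨⟨m1, m2⟩, m3⟩ := hm'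
    have hm0 : (0 : ℝ) < m := by exact_mod_cast m1
    have hmM : (m : ℝ) ≤ (N : ℝ) ^ (1 / 3 : ℝ) := le_trans (by exact_mod_cast m2) hMle
    have hNm : (N : ℝ) ^ (2 / 3 : ℝ) ≤ N / m := by
      rw [le_div_iff₀ hm0]
      calc (N : ℝ) ^ (2 / 3 : ℝ) * m ≤ (N : ℝ) ^ (2 / 3 : ℝ) * (N : ℝ) ^ (1 / 3 : ℝ) :=
            mul_le_mul_of_nonneg_left hmM (by positivity)
        _ = N := by rw [mul_comm]; exact hN3
    have hdiv : (N : ℝ) / m < ((N / m : ℕ) : ℝ) + 1 := by
      rw [div_lt_iff₀ hm0]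
      have h3 : N < (N / m + 1) * m := by
        have := Nat.lt_div_mul_add (a := N) (b := m) m1
        rw [Nat.add_mul, one_mul]; omega
      exact_mod_cast h3
    have hx1' : x1 ≤ N / m := by
      have : (x1 : ℝ) < ((N / m : ℕ) : ℝ) + 1 := by linarith
      have h4 : x1 < N / m + 1 := by exact_mod_cast this
      omega
    have h3 := hwin h h0 h1 hyp (N / m) hx1'
    have h4 : (N : ℝ) / m / 2 ≤ ((N / m : ℕ) : ℝ) := by
      have : (2 : ℝ) ≤ (N : ℝ) ^ (2 / 3 : ℝ) := z1.trans (Real.rpow_le_rpow_of_exponent_le hN1' (by norm_num))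
      linarith
    have hpos : (0 : ℝ) < ((N / m : ℕ) : ℝ) := lt_of_lt_of_le (by positivity) h4
    have hlog2 : 0 < Real.log ((N / m : ℕ) : ℝ) := by
      apply Real.log_pos
      exact_mod_cast (by omega : 1 < N / m)
    have h5 : Real.log ((N / m : ℕ) : ℝ) ≤ Real.log N :=
      Real.log_le_log hpos (by exact_mod_cast Nat.div_le_self _ _)
    have h6 : c / 4 * (N / Real.log N) * (1 / m) ≤ ∑ q ∈ (PN (N / m)).filter (fun q => N / m < K * q), h q := by
      refine le_trans ?_ h3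
      have h7 : (N : ℝ) / m / 2 / Real.log N ≤ ((N / m : ℕ) : ℝ) / Real.log ((N / m : ℕ) : ℝ) :=
        div_le_div₀ hpos.le h4 hlog2 h5
      refine le_trans (le_of_eq ?_) (mul_le_mul_of_nonneg_left h7 (show 0 ≤ c / 2 by positivity))
      field_simp
      norm_num
    rw [← mul_sqf hone hm m3]
    have e3 : c / 4 * ((N : ℝ) / Real.log N) * (h m / m) = h m * (c / 4 * (N / Real.log N) * (1 / m)) := by ring
    rw [e3]
    exact mul_le_mul_of_nonneg_left h6 (h0 m)
  refine le_trans ?_ (sum_le_sum h2)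
  rw [← mul_sum]
  have h3 := (hf_log h0 h1 hM2).trans (hf_sqf h0 h1 M)
  have h4 := kh_anti h0 h1 hMN
  have h5 : kh h N * (Real.log N / 4) ≤ kh h M * Real.log M :=
    mul_le_mul h4 hlogM (by positivity) (kh_pos h0 h1 M).le
  have h6 : kh h N * (Real.log N / 8) ≤ ∑ m ∈ (Icc 1 M).filter Squarefree, hf h m / (m : ℝ) := by linarith
  refine le_trans (le_of_eq ?_) (mul_le_mul_of_nonneg_left h6 (show 0 ≤ c / 4 * ((N : ℝ) / Real.log N) by positivity))
  field_simp
  ring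

end Pool.Agent.Y964.SE
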