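import Pool.Agent.Y964.SE.Cl

/-! The sum over a cell along the integers composed of primes of a set. -/

set_option autoImplicit false

namespace Pool.Agent.Y964.SE

open Finset Pool.Agent.H320R2.PD Pool.Agent.H499R2.ND Pool.Agent.H499R2.CO Pool.Agent.H376R2.MR
  Pool.Agent.W41.FU Pool.Agent.W41 Pool.Agent.W41.MU Pool.Agent.TH926.BL
open scoped Classical

theorem cell_main {s : ℤ} (hs : s = 1 ∨ s = -1) {ε : ℝ} (hε : 0 < ε) (hε1 : ε ≤ 1) {H : ℕ} (hH : 10 ≤ H) :
    ∃ ϑ : ℝ, 0 < ϑ ∧ ϑ ≤ 1 / 64 ∧ ∀ θ1 : ℝ, 0 < θ1 → ∃ N0 : ℕ, 2 ≤ N0 ∧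
    ∀ N : ℕ, N0 ≤ N → ∀ S : Set ℤ, Inv 1 S → ∀ δ : ℝ, HD s S δ →
    ∀ v : ℕ, θ1 * Real.log N ≤ (v : ℝ) / H → ((v : ℝ) + 1) / H ≤ ϑ * Real.log N →
    ∀ r : ℕ, r % 2 = 1 → (r : ℝ) ≤ (N : ℝ) ^ ϑ → ∀ (A : Set ℕ) (w : ℕ → ℝ), (∀ p ∈ cell H v, |w p| ≤ 1) →
    ∑ m ∈ FA A ((N : ℝ) / Real.exp (((v : ℝ) + 1) / H)),
      |∑ p ∈ cell H v, w p * bal s S δ ((p * (r * m) : ℕ) : ℤ)| ≤ ε * (kap A N * (N * mm H v)) := by
  have hH0 : (0 : ℝ) < H := by exact_mod_cast (by omega : 0 < H)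
  have hHr : (10 : ℝ) ≤ H := by exact_mod_cast hH
  obtain ⟨Kb, hKb, Nb, hNb2, hKbN⟩ := sieve_cls (show (0 : ℝ) < 7 / 8 by norm_num) (by norm_num)
  have hKb0 : 0 < Kb := by linarith
  obtain ⟨I, hI⟩ := pow_unbounded_of_one_lt (4 * Kb / ε) (by norm_num : (1 : ℝ) < 2)
  have hI2 : 2 * Kb / (2 : ℝ) ^ I ≤ ε / 2 := by
    rw [div_lt_iff₀ hε] at hI
    rw [div_le_iff₀ (by positivity)]
    linarith
  set ε0 : ℝ := ε / (4 * Kb) with hε0
  have hε00 : 0 < ε0 := by positivity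
  have hε01 : ε0 ≤ 1 := by
    rw [hε0, div_le_one (by positivity)]; linarith
  have hε0K : 2 * (ε0 * Kb) = ε / 2 := by rw [hε0]; field_simp; ring
  obtain ⟨c, hc0, hc1, hms⟩ := ms_B hs (show 0 < ε0 ^ 2 by positivity) (pow_le_one₀ hε00.le hε01) hH
  obtain ⟨Kc, hKc, Nc, hNc2, hKcN⟩ := sieve_int (show 0 < c / 2 by positivity) (by linarith)
  obtain ⟨ϑa, ha0, hac, hms1⟩ := hms Kc hKc
  set ϑ : ℝ := min (ϑa / 2) (c / 16) with hϑ
  have hϑ0 : 0 < ϑ := lt_min (by positivity) (by positivity)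
  have hϑa : ϑ ≤ ϑa / 2 := min_le_left _ _
  have hϑc : ϑ ≤ c / 16 := min_le_right _ _
  have hϑ512 : ϑ ≤ 1 / 512 := by linarith
  refine ⟨ϑ, hϑ0, by linarith, fun θ1 hθ1 => ?_⟩
  obtain ⟨X0, hX01, hX0⟩ := hms1 (θ1 / 2) (by positivity)
  have tn := tendsto_natCast_atTop_atTop (R := ℝ)
  have ev : ∀ᶠ N : ℕ in Filter.atTop, (X0 ≤ (N : ℝ) ^ (1 / 2 : ℝ) ∧ 2 ≤ N) ∧
      ((2 : ℝ) ^ (I + 2) ≤ (N : ℝ) ^ (1 / 16 : ℝ)) := by
    refine Filter.Eventually.and (Filter.Eventually.and ?_ (Filter.eventually_ge_atTop 2)) ?_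
    · exact ((tendsto_rpow_atTop (by norm_num)).comp tn).eventually_ge_atTop _
    · exact ((tendsto_rpow_atTop (by norm_num)).comp tn).eventually_ge_atTop _
  obtain ⟨N1, hN1⟩ := Filter.eventually_atTop.1 ev
  refine ⟨max 2 (max N1 (max Nb Nc)), le_max_left _ _, fun N hN S hS δ hδ v g1 g2 r hr hrN A w hw => ?_⟩
  have hNN1 : N1 ≤ N := le_trans (le_trans (le_max_left _ _) (le_max_right _ _)) hN
  have hNNb : Nb ≤ N := le_trans (le_trans (le_trans (le_max_left _ _) (le_max_right _ _)) (le_max_right _ _)) hN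
  have hNNc : Nc ≤ N := le_trans (le_trans (le_trans (le_max_right _ _) (le_max_right _ _)) (le_max_right _ _)) hN
  obtain ⟨⟨z1, z2⟩, z3⟩ := hN1 N hNN1
  clear hN hN1
  have hNp : (0 : ℝ) < N := by exact_mod_cast (by omega : 0 < N)
  have hN1' : (1 : ℝ) ≤ N := by exact_mod_cast (by omega : 1 ≤ N)
  have hlog : 0 < Real.log N := Real.log_pos (by exact_mod_cast (by omega : 1 < N))
  obtain ⟨d0, d1⟩ := HD_mem hs hδ
  have hfa := (bal_same hs hS d0 d1).1
  set f := bal s S δ with hf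
  have hr1 : 1 ≤ r := by omega
  have hr0 : (0 : ℝ) < r := by exact_mod_cast hr1
  have hr1' : (1 : ℝ) ≤ r := by exact_mod_cast hr1
  set P := Real.exp ((v : ℝ) / H) with hP
  set P' := Real.exp (((v : ℝ) + 1) / H) with hP'
  have hP0 : 0 < P := Real.exp_pos _
  have hP'0 : 0 < P' := Real.exp_pos _
  have hPe : P' = P * Real.exp (1 / H) := by
    rw [hP, hP', ← Real.exp_add]; congr 1; ring
  have hHi : 1 / (H : ℝ) ≤ 1 / 10 := one_div_le_one_div_of_le (by norm_num) hHr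
  have hHi0 : 0 < 1 / (H : ℝ) := by positivity
  have hexp1 : Real.exp (1 / H) ≤ 2 := by
    have h1 : Real.exp (1 / H) ≤ Real.exp (1 / 2) := Real.exp_le_exp.2 (by linarith)
    have h2 : Real.exp (1 / 2) ^ 2 = Real.exp 1 := by
      rw [← Real.exp_nat_mul]; norm_num
    have h3 := Real.exp_one_lt_d9
    have h4 := Real.exp_pos (1 / 2 : ℝ)
    nlinarith only [h1, h2, h3, h4]
  have hPP : P ≤ P' := by
    rw [hPe]
    exact le_mul_of_one_le_right hP0.le (Real.one_le_exp hHi0.le)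
  have hP'2 : P' ≤ 2 * P := by
    rw [hPe, mul_comm 2 P]; exact mul_le_mul_of_nonneg_left hexp1 hP0.le
  have hP'N : P' ≤ (N : ℝ) ^ ϑ := by
    rw [hP', Real.rpow_def_of_pos hNp]
    apply Real.exp_le_exp.2
    linarith
  have hP'16 : P' ≤ (N : ℝ) ^ (1 / 64 : ℝ) :=
    hP'N.trans (Real.rpow_le_rpow_of_exponent_le hN1' (by linarith))
  set Y : ℝ := N / P' with hY
  have hY0 : 0 < Y := by positivity
  have hYP : Y * P' = N := by rw [hY]; field_simp
  have hYb : (N : ℝ) ^ (63 / 64 : ℝ) ≤ Y := by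
    rw [hY, le_div_iff₀ hP'0]
    calc (N : ℝ) ^ (63 / 64 : ℝ) * P' ≤ (N : ℝ) ^ (63 / 64 : ℝ) * (N : ℝ) ^ (1 / 64 : ℝ) :=
          mul_le_mul_of_nonneg_left hP'16 (by positivity)
      _ = N := by rw [← Real.rpow_add hNp]; norm_num
  have hYI : (N : ℝ) ^ (7 / 8 : ℝ) ≤ Y / 2 ^ (I + 2) := by
    rw [le_div_iff₀ (by positivity)]
    calc (N : ℝ) ^ (7 / 8 : ℝ) * 2 ^ (I + 2) ≤ (N : ℝ) ^ (7 / 8 : ℝ) * (N : ℝ) ^ (1 / 16 : ℝ) :=
          mul_le_mul_of_nonneg_left z3 (by positivity)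
      _ = (N : ℝ) ^ (15 / 16 : ℝ) := by rw [← Real.rpow_add hNp]; norm_num
      _ ≤ (N : ℝ) ^ (63 / 64 : ℝ) := Real.rpow_le_rpow_of_exponent_le hN1' (by norm_num)
      _ ≤ Y := hYb
  have h78 : (1 : ℝ) ≤ (N : ℝ) ^ (7 / 8 : ℝ) := Real.one_le_rpow hN1' (by norm_num)
  have hmm := mm_nonneg H v
  have hκ0 := kap_pos A N
  -- the cut points
  set F : ℕ → Finset ℕ := fun i => FA A (Y / 2 ^ i) with hF
  have hFmono : ∀ i, F (i + 1) ⊆ F i := by
    intro i
    apply FA_mono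
    apply div_le_div_of_nonneg_left hY0.le (by positivity)
    exact pow_le_pow_right₀ (by norm_num) (by omega)
  have hF0 : FA A Y = F 0 := by simp only [hF]; rw [pow_zero, div_one]
  rw [hF0, chainF F _ hFmono I]
  -- the tail
  have hcc : (#(cell H v) : ℝ) ≤ P' * mm H v := cell_card H v
  have htail : ∑ m ∈ F I, |∑ p ∈ cell H v, w p * f ((p * (r * m) : ℕ) : ℤ)| ≤
      ε / 2 * (kap A N * (N * mm H v)) := by
    have h1 : ∀ m ∈ F I, |∑ p ∈ cell H v, w p * f ((p * (r * m) : ℕ) : ℤ)| ≤ P' * mm H v := by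
      intro m _
      refine le_trans (abs_sum_le_sum_abs _ _) (le_trans ?_ hcc)
      rw [card_eq_sum_ones, Nat.cast_sum]
      apply sum_le_sum
      intro p hp
      rw [abs_mul, Nat.cast_one]
      exact mul_le_one₀ (hw p hp) (abs_nonneg _) (hfa _)
    have h2 : (#(F I) : ℝ) ≤ Kb * kap A N / (1 : ℕ) * ((⌊Y / 2 ^ I⌋₊ + 1 : ℕ) / 2 ^ 0) * 2 ^ 0 := by
      apply cls_card (k := 0)
      intro Q hQ
      apply hKbN N hNNb A 1 0 0 (⌊Y / 2 ^ I⌋₊ + 1) (by norm_num)
        (by rw [Nat.cast_one, pow_zero, mul_one]; exact Real.one_le_rpow hN1' (by norm_num))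
        _ Q hQ (F I)
      · intro m hm
        simp only [hF, FA] at hm
        rw [mem_filter, mem_Icc] at hm
        rw [mem_Ico]
        omega
      · intro m hm
        simp only [hF, FA] at hm
        rw [mem_filter] at hm
        exact ⟨m, hm.2, by omega⟩
      · push_cast
        have h3 : Y / 2 ^ (I + 2) ≤ Y / 2 ^ I := by
          apply div_le_div_of_nonneg_left hY0.le (by positivity)
          exact pow_le_pow_right₀ (by norm_num) (by omega)
        have := Nat.lt_floor_add_one (Y / 2 ^ I)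
        linarith only [this, h3, hYI]
    have h3 : (#(F I) : ℝ) ≤ Kb * kap A N * (2 * (Y / 2 ^ I)) := by
      refine h2.trans ?_
      rw [Nat.cast_one, div_one, pow_zero, div_one, mul_one]
      apply mul_le_mul_of_nonneg_left _ (by positivity)
      push_cast
      have h4 := Nat.floor_le (show 0 ≤ Y / 2 ^ I by positivity)
      have h5 : Y / 2 ^ (I + 2) ≤ Y / 2 ^ I := by
        apply div_le_div_of_nonneg_left hY0.le (by positivity)
        exact pow_le_pow_right₀ (by norm_num) (by omega)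
      linarith only [h4, h5, hYI, h78]
    refine (sum_le_sum h1).trans ?_
    rw [sum_const, nsmul_eq_mul]
    calc (#(F I) : ℝ) * (P' * mm H v) ≤ Kb * kap A N * (2 * (Y / 2 ^ I)) * (P' * mm H v) :=
          mul_le_mul_of_nonneg_right h3 (by positivity)
      _ = 2 * Kb / 2 ^ I * (kap A N * (N * mm H v)) := by rw [← hYP]; ring
      _ ≤ _ := mul_le_mul_of_nonneg_right hI2 (by positivity)
  -- the dyadic windows
  set κ : ℝ := Kb * kap A N / r with hκ
  have hκp : 0 < κ := by positivity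
  have hdy : ∀ i ∈ range I, ∑ m ∈ F i \ F (i + 1), |∑ p ∈ cell H v, w p * f ((p * (r * m) : ℕ) : ℤ)| ≤
      ε0 * Kb * (kap A N * (N * mm H v)) * (1 / 2) ^ i := by
    intro i hi
    rw [mem_range] at hi
    have h2i : (2 : ℝ) ^ i ≤ 2 ^ I := pow_le_pow_right₀ (by norm_num) hi.le
    have h2i0 : (0 : ℝ) < 2 ^ i := by positivity
    have h2i1 : (1 : ℝ) ≤ 2 ^ i := one_le_pow₀ (by norm_num)
    set X : ℝ := r * N / 2 ^ i with hX
    have hX0' : 0 < X := by positivity
    have hXlo : (N : ℝ) ^ (1 / 2 : ℝ) ≤ X := by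
      rw [hX, le_div_iff₀ h2i0]
      have h1 : (2 : ℝ) ^ i ≤ (N : ℝ) ^ (1 / 2 : ℝ) := by
        refine h2i.trans (le_trans ?_ (z3.trans (Real.rpow_le_rpow_of_exponent_le hN1' (by norm_num))))
        exact pow_le_pow_right₀ (by norm_num) (by omega)
      calc (N : ℝ) ^ (1 / 2 : ℝ) * 2 ^ i ≤ (N : ℝ) ^ (1 / 2 : ℝ) * (N : ℝ) ^ (1 / 2 : ℝ) :=
            mul_le_mul_of_nonneg_left h1 (by positivity)
        _ = N := by rw [← Real.rpow_add hNp]; norm_num
        _ ≤ r * N := le_mul_of_one_le_left hNp.le hr1'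
    have hXhi : X ≤ (N : ℝ) ^ (1 + ϑ) := by
      rw [hX]
      refine (div_le_self (by positivity) h2i1).trans ?_
      rw [Real.rpow_add hNp, Real.rpow_one, mul_comm]
      exact mul_le_mul_of_nonneg_left hrN hNp.le
    have hlX1 : Real.log N / 2 ≤ Real.log X := by
      have := Real.log_le_log (by positivity) hXlo
      rw [Real.log_rpow hNp] at this
      linarith
    have hlX2 : Real.log X ≤ 2 * Real.log N := by
      have := Real.log_le_log hX0' hXhi
      rw [Real.log_rpow hNp] at this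
      nlinarith only [this, hϑ512, hlog]
    set M : ℕ := ⌊r * Y / 2 ^ (i + 1)⌋₊ + 1 with hM
    have hM1 : r * Y / 2 ^ (i + 1) < M := by
      have := Nat.lt_floor_add_one (r * Y / 2 ^ (i + 1))
      rw [hM]; push_cast; exact this
    have hM2 : (M : ℝ) ≤ r * Y / 2 ^ (i + 1) + 1 := by
      have := Nat.floor_le (show 0 ≤ r * Y / 2 ^ (i + 1) by positivity)
      rw [hM]; push_cast; linarith
    have hYY : Y / 2 ^ (I + 2) ≤ r * Y / 2 ^ (i + 1) := by
      have h1 : Y / 2 ^ (I + 2) ≤ Y / 2 ^ (i + 1) := by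
        apply div_le_div_of_nonneg_left hY0.le (by positivity)
        exact pow_le_pow_right₀ (by norm_num) (by omega)
      refine h1.trans (div_le_div_of_nonneg_right ?_ (by positivity))
      exact le_mul_of_one_le_left hY0.le hr1'
    have hrY : r * Y / 2 ^ (i + 1) * P' = X / 2 := by
      rw [hX, ← hYP, pow_succ]; field_simp
    have hM3 : (M : ℝ) ≤ r * Y / 2 ^ i := by
      have e : r * Y / 2 ^ i = r * Y / 2 ^ (i + 1) + r * Y / 2 ^ (i + 1) := by
        rw [pow_succ]; field_simp; norm_num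
      rw [e]
      linarith
    have c1 : X ≤ 4 * (M * P) := by
      have h1 : r * Y / 2 ^ (i + 1) * P' ≤ M * P' := mul_le_mul_of_nonneg_right hM1.le hP'0.le
      have h3 : (M : ℝ) * P' ≤ M * (2 * P) := mul_le_mul_of_nonneg_left hP'2 (Nat.cast_nonneg _)
      rw [hrY] at h1
      linarith
    have c2 : M * P ≤ 4 * X := by
      have h1 : (M : ℝ) * P ≤ (r * Y / 2 ^ i) * P' := mul_le_mul hM3 hPP hP0.le (by positivity)
      have h2 : (r * Y / 2 ^ i) * P' = X := by rw [hX, ← hYP]; ring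
      rw [h2] at h1
      linarith
    set W := F i \ F (i + 1) with hW
    have hWm : ∀ m ∈ W, m ∈ EA A ∧ Y / 2 ^ (i + 1) < m ∧ (m : ℝ) ≤ Y / 2 ^ i := by
      intro m hm
      rw [hW, mem_sdiff] at hm
      simp only [hF, FA] at hm
      rw [mem_filter, mem_filter, mem_Icc, mem_Icc] at hm
      obtain ⟨⟨⟨h1, h2⟩, h3⟩, h4⟩ := hm
      refine ⟨h3, ?_, ?_⟩
      · by_contra hcon
        push Not at hcon
        exact h4 ⟨⟨h1, Nat.le_floor hcon⟩, h3⟩
      · exact (Nat.le_floor_iff (by positivity)).1 h2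
    have hBsub : W.image (fun m => r * m) ⊆ Ico M (2 * M) := by
      intro m' hm'
      rw [mem_image] at hm'
      obtain ⟨m, hm, rfl⟩ := hm'
      obtain ⟨_, h2, h3⟩ := hWm m hm
      rw [mem_Ico]
      constructor
      · have h4 : r * Y / 2 ^ (i + 1) < ((r * m : ℕ) : ℝ) := by
          push_cast
          calc r * Y / 2 ^ (i + 1) = r * (Y / 2 ^ (i + 1)) := by ring
            _ < r * m := mul_lt_mul_of_pos_left h2 hr0
        have h5 := (Nat.floor_lt (by positivity)).2 h4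
        rw [hM]; omega
      · have h4 : ((r * m : ℕ) : ℝ) < ((2 * M : ℕ) : ℝ) := by
          push_cast
          calc (r : ℝ) * m ≤ r * (Y / 2 ^ i) := mul_le_mul_of_nonneg_left h3 hr0.le
            _ = 2 * (r * Y / 2 ^ (i + 1)) := by rw [pow_succ]; field_simp
            _ < 2 * M := by linarith
        exact_mod_cast h4
    have hBt : ∀ m ∈ W.image (fun m => r * m), ∃ t ∈ EA A, m = r * t := by
      intro m' hm'
      rw [mem_image] at hm'
      obtain ⟨m, hm, rfl⟩ := hm'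
      exact ⟨m, (hWm m hm).1, rfl⟩
    have hM78 : (N : ℝ) ^ (7 / 8 : ℝ) ≤ M := by linarith
    have hcls : ∀ k : ℕ, 1 ≤ k → (2 : ℝ) ^ k ≤ X ^ (1 / 4 : ℝ) → ∀ P : ℤ → Prop,
        (∀ x m : ℤ, P (x + m * 2 ^ k) ↔ P x) →
        (#{m ∈ W.image (fun m => r * m) | P ((m : ℕ) : ℤ)} : ℝ) ≤
          κ * (M / 2 ^ k) * #{a ∈ range (2 ^ k) | P ((a : ℕ) : ℤ)} := by
      intro k _ hk Q hQ
      refine hKbN N hNNb A r k M M hr ?_ hM78 Q hQ _ (by rw [← two_mul]; exact hBsub) hBt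
      calc (r : ℝ) * 2 ^ k ≤ (N : ℝ) ^ ϑ * (N : ℝ) ^ ((1 + ϑ) * (1 / 4)) := by
            apply mul_le_mul hrN _ (by positivity) (by positivity)
            refine hk.trans ?_
            rw [Real.rpow_mul hNp.le]
            exact Real.rpow_le_rpow hX0'.le hXhi (by norm_num)
        _ = (N : ℝ) ^ (ϑ + (1 + ϑ) * (1 / 4)) := by rw [← Real.rpow_add hNp]
        _ ≤ _ := Real.rpow_le_rpow_of_exponent_le hN1' (by linarith)
    have hint : ∀ a L : ℕ, X ^ c ≤ L →
        (#{m ∈ W.image (fun m => r * m) | a ≤ m ∧ m < a + L} : ℝ) ≤ Kc * κ * L := by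
      intro a L hL
      have h1 := hKcN N hNNc A r a L hr (hrN.trans (Real.rpow_le_rpow_of_exponent_le hN1' (by linarith)))
        (le_trans (by
          have e : (N : ℝ) ^ (c / 2) = ((N : ℝ) ^ (1 / 2 : ℝ)) ^ c := by
            rw [← Real.rpow_mul hNp.le]; congr 1; ring
          rw [e]
          exact Real.rpow_le_rpow (by positivity) hXlo hc0.le) hL)
        {m ∈ W.image (fun m => r * m) | a ≤ m ∧ m < a + L} (by
          intro m hm
          rw [mem_filter] at hm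
          exact mem_Ico.2 hm.2) (fun m hm => hBt m (mem_filter.1 hm).1)
      refine h1.trans ?_
      apply mul_le_mul_of_nonneg_right _ (Nat.cast_nonneg _)
      rw [hκ]
      have h2 : 0 ≤ Kc * kap A N / r := by positivity
      calc Kc * kap A N / r = 1 * (Kc * kap A N / r) := (one_mul _).symm
        _ ≤ Kb * (Kc * kap A N / r) := mul_le_mul_of_nonneg_right hKb h2
        _ = _ := by ring
    have hd := dyadicW (f := f) (H := H) (v := v) (r := r) (M := M) (κ := κ) (ε1 := ε0) W w hw hr1 hκp.le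
      hε00.le (fun w' hw' => by
        constructor
        · have h0 : (2 : ℝ) ^ 1 ≤ X ^ (1 / 4 : ℝ) := by
            rw [pow_one]
            have h2 : ((N : ℝ) ^ (1 / 2 : ℝ)) ^ (1 / 4 : ℝ) ≤ X ^ (1 / 4 : ℝ) :=
              Real.rpow_le_rpow (by positivity) hXlo (by norm_num)
            rw [← Real.rpow_mul hNp.le] at h2
            refine le_trans ?_ h2
            have h3 : (2 : ℝ) ≤ (N : ℝ) ^ (1 / 16 : ℝ) := by
              refine le_trans ?_ z3
              calc (2 : ℝ) = 2 ^ 1 := (pow_one _).symm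
                _ ≤ 2 ^ (I + 2) := pow_le_pow_right₀ (by norm_num) (by omega)
            exact h3.trans (Real.rpow_le_rpow_of_exponent_le hN1' (by norm_num))
          have h1 := cls_card (hcls 1 le_rfl h0)
          refine h1.trans (le_of_eq ?_)
          ring
        · exact hX0 X (z1.trans hXlo) S hS δ hδ v M (le_trans (by nlinarith only [hlX2, hθ1]) g1) (by
            refine g2.trans ?_
            nlinarith only [hϑa, hlX1, hlog, ha0, hϑ0]) c1 c2 w' hw' _ κ hBsub hκp.le hint hcls)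
    refine hd.trans ?_
    calc P' * (ε0 * κ * (M * mm H v)) ≤ P' * (ε0 * κ * ((r * Y / 2 ^ i) * mm H v)) := by
          apply mul_le_mul_of_nonneg_left _ hP'0.le
          apply mul_le_mul_of_nonneg_left _ (by positivity)
          exact mul_le_mul_of_nonneg_right hM3 hmm
      _ = ε0 * Kb * (kap A N * (N * mm H v)) * (1 / 2) ^ i := by
          rw [hκ, ← hYP, one_div, inv_pow]
          field_simp
  have h2 : ∑ i ∈ range I, ∑ m ∈ F i \ F (i + 1), |∑ p ∈ cell H v, w p * f ((p * (r * m) : ℕ) : ℤ)| ≤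
      ε / 2 * (kap A N * (N * mm H v)) := by
    refine (sum_le_sum hdy).trans ?_
    rw [← mul_sum]
    have h3 : ∑ i ∈ range I, ((1 : ℝ) / 2) ^ i ≤ 2 := by
      have := sum_geometric_two_le I
      simpa using this
    have h4 : 0 ≤ kap A N * (N * mm H v) := by positivity
    calc ε0 * Kb * (kap A N * (N * mm H v)) * ∑ i ∈ range I, ((1 : ℝ) / 2) ^ i
        ≤ ε0 * Kb * (kap A N * (N * mm H v)) * 2 := mul_le_mul_of_nonneg_left h3 (by positivity)
      _ = (2 * (ε0 * Kb)) * (kap A N * (N * mm H v)) := by ring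
      _ = _ := by rw [hε0K]
  linarith

end Pool.Agent.Y964.SE
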