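import Pool.Agent.Y964.SE.Lo0
import Pool.Agent.TH926.BL.Sum

/-! Lower bounds for sums of multiplicative functions: windows. -/

set_option autoImplicit false

namespace Pool.Agent.Y964.SE

open Finset Pool.Agent.H320R2.PD Pool.Agent.H499R2.ND Pool.Agent.H499R2.CO Pool.Agent.H376R2.MR
  Pool.Agent.W41.FU Pool.Agent.W41 Pool.Agent.W41.MU Pool.Agent.TH926.BL
open scoped Classical

/-- primes up to a point -/
theorem pn_card {y : ℝ} {n : ℕ} (hy : 2 ≤ y) (hn : (n : ℝ) ≤ y) : (#(PN n) : ℝ) ≤ 40 * (y / Real.log y) := by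
  have h1 := primes_window (Bs := Set.univ) (a := 0) (n := n) hy (by rw [Nat.cast_zero, zero_add]; exact hn)
  have e : QQ Set.univ n \ QQ Set.univ 0 = PN n := by
    ext p
    rw [mem_sdiff, mem_QQ, mem_QQ, mem_PN]
    constructor
    · rintro ⟨⟨a, b, _⟩, _⟩; exact ⟨a, b⟩
    · rintro ⟨a, b⟩
      exact ⟨⟨a, b, Set.mem_univ _⟩, fun h => by have := b.pos; omega⟩
  rw [e] at h1
  exact h1

/-- windows -/
theorem window_low {c : ℝ} (hc : 0 < c) (x0 : ℕ) : ∃ K : ℕ, 2 ≤ K ∧ ∃ x1 : ℕ, 2 ≤ x1 ∧ ∀ h : ℕ → ℝ, (∀ p, 0 ≤ h p) →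
    (∀ p, h p ≤ 1) → HypD c x0 h → ∀ x : ℕ, x1 ≤ x →
    c / 2 * (x / Real.log x) ≤ ∑ p ∈ (PN x).filter (fun p => x < K * p), h p := by
  obtain ⟨K', hK'⟩ := exists_nat_ge (160 / c)
  set K : ℕ := max 2 K' with hK
  have hK2 : 2 ≤ K := le_max_left _ _
  have hKc : 160 / c ≤ K := hK'.trans (by exact_mod_cast le_max_right _ _)
  have hK0 : (0 : ℝ) < K := by exact_mod_cast (by omega : 0 < K)
  refine ⟨K, hK2, max (K * K * 2) x0, by nlinarith [le_max_left (K * K * 2) x0], fun h h0 h1 hH x hx => ?_⟩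
  have hx1 : K * K * 2 ≤ x := (le_max_left _ _).trans hx
  have hx0 : x0 ≤ x := (le_max_right _ _).trans hx
  have hxp : (0 : ℝ) < x := by exact_mod_cast (by nlinarith : 0 < x)
  have hx1R : (K : ℝ) * K * 2 ≤ x := by exact_mod_cast hx1
  have hx2 : 2 ≤ x := by nlinarith
  have hlogx : 0 < Real.log x := Real.log_pos (by exact_mod_cast (by omega : 1 < x))
  have h2 := hH x hx0
  rw [← sum_filter_add_sum_filter_not (PN x) (fun p => x < K * p)] at h2
  have h3 : ∑ p ∈ (PN x).filter (fun p => ¬ x < K * p), h p ≤ c / 2 * (x / Real.log x) := by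
    have h4 : ∑ p ∈ (PN x).filter (fun p => ¬ x < K * p), h p ≤ #(PN (x / K)) := by
      rw [card_eq_sum_ones, Nat.cast_sum]
      have hsub : (PN x).filter (fun p => ¬ x < K * p) ⊆ PN (x / K) := by
        intro p hp
        rw [mem_filter, mem_PN] at hp
        rw [mem_PN]
        refine ⟨?_, hp.1.2⟩
        rw [Nat.le_div_iff_mul_le (by omega)]
        have := hp.2
        push Not at this
        rw [mul_comm]; exact this
      refine (sum_le_sum_of_subset_of_nonneg hsub fun p _ _ => h0 p).trans (sum_le_sum fun p _ => ?_)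
      rw [Nat.cast_one]; exact h1 p
    refine h4.trans ?_
    have hy2 : (2 : ℝ) ≤ x / K := by
      rw [le_div_iff₀ hK0]
      have : (1 : ℝ) ≤ K := by exact_mod_cast (by omega : 1 ≤ K)
      nlinarith
    refine (pn_card (y := x / K) hy2 Nat.cast_div_le).trans ?_
    have hl : Real.log x / 2 ≤ Real.log (x / K) := by
      have h5 : (x : ℝ) ≤ (x / K) ^ 2 := by
        rw [div_pow, le_div_iff₀ (by positivity)]
        nlinarith
      have h6 := Real.log_le_log hxp h5
      rw [Real.log_pow] at h6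
      push_cast at h6
      linarith
    have h7 : (x : ℝ) / K / Real.log (x / K) ≤ x / K / (Real.log x / 2) :=
      div_le_div_of_nonneg_left (by positivity) (by positivity) hl
    refine (mul_le_mul_of_nonneg_left h7 (by norm_num)).trans ?_
    have e : 40 * ((x : ℝ) / K / (Real.log x / 2)) = 80 / K * (x / Real.log x) := by field_simp; ring
    rw [e]
    apply mul_le_mul_of_nonneg_right _ (by positivity)
    rw [div_le_iff₀ hc] at hKc
    rw [div_le_iff₀ hK0]
    linarith
  linarith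

end Pool.Agent.Y964.SE
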