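import Pool.Agent.Y964.SE.Av0

/-! Lower bounds for sums of multiplicative functions: logarithmic sums. -/

set_option autoImplicit false

namespace Pool.Agent.Y964.SE

open Finset Pool.Agent.W41
open scoped Classical

/-- removing the multiples of the primes of `Q` -/
theorem recip_sieve (x : ℕ) (Q : Finset ℕ) (hQ : ∀ p ∈ Q, p.Prime) :
    V Q * ∑ n ∈ Icc 1 x, 1 / (n : ℝ) ≤ ∑ n ∈ (Icc 1 x).filter (fun n => ∀ p ∈ Q, ¬ p ∣ n), 1 / (n : ℝ) := by
  induction Q using Finset.induction_on with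
  | empty => simp [V]
  | insert p Q hpQ ih =>
    have hp : p.Prime := hQ p (mem_insert_self _ _)
    have ih' := ih (fun q hq => hQ q (mem_insert_of_mem hq))
    have hp0 : (0 : ℝ) < p := by exact_mod_cast hp.pos
    set T := (Icc 1 x).filter (fun n => ∀ q ∈ Q, ¬ q ∣ n) with hT
    have e1 : (Icc 1 x).filter (fun n => ∀ q ∈ insert p Q, ¬ q ∣ n) = T.filter (fun n => ¬ p ∣ n) := by
      ext n
      rw [hT, mem_filter, mem_filter, mem_filter]
      simp only [mem_insert, forall_eq_or_imp]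
      tauto
    have e2 : ∑ n ∈ T, 1 / (n : ℝ) = ∑ n ∈ T.filter (fun n => p ∣ n), 1 / (n : ℝ) +
        ∑ n ∈ T.filter (fun n => ¬ p ∣ n), 1 / (n : ℝ) := (sum_filter_add_sum_filter_not _ _ _).symm
    have e3 : ∑ n ∈ T.filter (fun n => p ∣ n), 1 / (n : ℝ) ≤ 1 / p * ∑ n ∈ T, 1 / (n : ℝ) := by
      rw [mul_sum]
      have h1 : ∑ n ∈ T.filter (fun n => p ∣ n), 1 / (n : ℝ) =
          ∑ m ∈ (T.filter (fun n => p ∣ n)).image (fun n => n / p), 1 / (p : ℝ) * (1 / m) := by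
        rw [sum_image]
        · apply sum_congr rfl
          intro n hn
          rw [mem_filter] at hn
          obtain ⟨m, rfl⟩ := hn.2
          rw [Nat.mul_div_cancel_left _ hp.pos]
          push_cast
          rw [one_div_mul_one_div]
        · intro n hn m hm hh
          rw [mem_coe, mem_filter] at hn hm
          obtain ⟨n', rfl⟩ := hn.2
          obtain ⟨m', rfl⟩ := hm.2
          simp only [Nat.mul_div_cancel_left _ hp.pos] at hh
          rw [hh]
      rw [h1]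
      apply sum_le_sum_of_subset_of_nonneg
      · intro m hm
        rw [mem_image] at hm
        obtain ⟨n, hn, rfl⟩ := hm
        rw [mem_filter, hT, mem_filter, mem_Icc] at hn
        obtain ⟨⟨⟨h2, h3⟩, h4⟩, m, rfl⟩ := hn
        rw [Nat.mul_div_cancel_left _ hp.pos, hT, mem_filter, mem_Icc]
        refine ⟨⟨?_, (Nat.le_mul_of_pos_left m hp.pos).trans h3⟩, fun q hq hqm => h4 q hq (dvd_mul_of_dvd_right hqm _)⟩
        rcases Nat.eq_zero_or_pos m with h | h
        · rw [h, mul_zero] at h2; omega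
        · exact h
      · intro _ _ _; positivity
    rw [e1]
    have e4 : V (insert p Q) = (1 - 1 / (p : ℝ)) * V Q := by
      unfold V; rw [prod_insert hpQ]
    rw [e4]
    have h5 : (1 - 1 / (p : ℝ)) * ∑ n ∈ T, 1 / (n : ℝ) ≤ ∑ n ∈ T.filter (fun n => ¬ p ∣ n), 1 / (n : ℝ) := by
      rw [sub_mul, one_mul]
      linarith
    refine le_trans ?_ h5
    rw [mul_assoc]
    exact mul_le_mul_of_nonneg_left ih' (fac_pos hp).le

/-- the logarithmic sum of the weights -/
theorem hf_log {h : ℕ → ℝ} (h0 : ∀ p, 0 ≤ h p) (h1 : ∀ p, h p ≤ 1) {x : ℕ} (hx : 1 ≤ x) :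
    kh h x * Real.log x ≤ ∑ n ∈ Icc 1 x, hf h n / (n : ℝ) := by
  have e1 : ∑ n ∈ Icc 1 x, hf h n / (n : ℝ) =
      ∑ A ∈ (PN x).powerset, pw h x A * ∑ n ∈ FA {p | p ∈ A} (x : ℝ), 1 / (n : ℝ) := by
    have h2 := avg_sum (E := ℝ) h (n := x) (x := (x : ℝ)) le_rfl (fun n => 1 / (n : ℝ))
    simp only [smul_eq_mul, Nat.floor_natCast] at h2
    rw [h2]
    apply sum_congr rfl
    intro n _
    ring
  rw [e1, ← avg_kap, sum_mul]
  apply sum_le_sum
  intro A _
  rw [mul_assoc]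
  apply mul_le_mul_of_nonneg_left _ (pw_nonneg h0 h1 x A)
  have h3 := recip_sieve x (PO {p | p ∈ A} x) PO_prime
  have h4 : Real.log x ≤ ∑ n ∈ Icc 1 x, 1 / (n : ℝ) := by
    have h5 := log_add_one_le_harmonic x
    have h6 : Real.log x ≤ Real.log (↑(x + 1) : ℝ) :=
      Real.log_le_log (by exact_mod_cast hx) (by push_cast; linarith)
    rw [harmonic_eq_sum_Icc] at h5
    push_cast at h5 h6
    refine h6.trans (h5.trans (le_of_eq ?_))
    apply sum_congr rfl
    intro n _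
    rw [one_div]
  refine (mul_le_mul_of_nonneg_left h4 (kap_pos _ _).le).trans (h3.trans (le_of_eq ?_))
  apply sum_congr _ (fun _ _ => rfl)
  ext n
  rw [mem_filter, mem_Icc, mem_FA_nat]
  constructor
  · rintro ⟨⟨h5, h6⟩, h7⟩
    refine ⟨h6, h5, fun p hp hpn => ?_⟩
    by_contra hcon
    exact h7 p (mem_PO.2 ⟨(Nat.le_of_dvd (by omega) hpn).trans h6, hp, hcon⟩) hpn
  · rintro ⟨h5, h6, h7⟩
    exact ⟨⟨h6, h5⟩, fun p hp hpn => (mem_PO.1 hp).2.2 (h7 p (mem_PO.1 hp).2.1 hpn)⟩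

/-- `∑ 1/b² ≤ 2` -/
theorem sum_sq_inv (x : ℕ) : ∑ b ∈ Icc 1 x, 1 / ((b : ℝ) ^ 2) ≤ 2 := by
  have h : ∀ x : ℕ, 1 ≤ x → ∑ b ∈ Icc 1 x, 1 / ((b : ℝ) ^ 2) ≤ 2 - 1 / (x : ℝ) := by
    intro x hx
    induction x, hx using Nat.le_induction with
    | base => norm_num
    | succ x hx ih =>
      rw [sum_Icc_succ_top (by omega)]
      have hx0 : (0 : ℝ) < x := by exact_mod_cast hx
      push_cast
      have h1 : 1 / ((x : ℝ) + 1) ^ 2 ≤ 1 / x - 1 / (x + 1) := by
        rw [div_sub_div _ _ hx0.ne' (by positivity), div_le_div_iff₀ (by positivity) (by positivity)]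
        nlinarith
      linarith
  rcases Nat.eq_zero_or_pos x with h0 | h0
  · rw [h0]; norm_num
  · have := h x h0
    have : 0 ≤ 1 / (x : ℝ) := by positivity
    linarith

theorem hf_dvd {h : ℕ → ℝ} (h0 : ∀ p, 0 ≤ h p) (h1 : ∀ p, h p ≤ 1) {m n : ℕ} (hn : n ≠ 0) (hmn : m ∣ n) :
    hf h n ≤ hf h m := by
  unfold hf
  rw [← prod_sdiff (Nat.primeFactors_mono hmn hn)]
  apply mul_le_of_le_one_left (prod_nonneg fun p _ => h0 p)
  exact prod_le_one (fun p _ => h0 p) fun p _ => h1 p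

/-- restriction to the squarefree integers -/
theorem hf_sqf {h : ℕ → ℝ} (h0 : ∀ p, 0 ≤ h p) (h1 : ∀ p, h p ≤ 1) (x : ℕ) :
    ∑ n ∈ Icc 1 x, hf h n / (n : ℝ) ≤ 2 * ∑ m ∈ (Icc 1 x).filter Squarefree, hf h m / (m : ℝ) := by
  choose a b hab ha using Nat.sq_mul_squarefree
  have hpos : ∀ n ∈ Icc 1 x, 1 ≤ a n ∧ 1 ≤ b n ∧ a n ≤ x ∧ b n ≤ x := by
    intro n hn
    rw [mem_Icc] at hn
    have h2 := hab n
    have ha1 : 1 ≤ a n := by
      rcases Nat.eq_zero_or_pos (a n) with h | h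
      · rw [h, mul_zero] at h2; omega
      · exact h
    have hb1 : 1 ≤ b n := by
      rcases Nat.eq_zero_or_pos (b n) with h | h
      · rw [h] at h2; simp at h2; omega
      · exact h
    refine ⟨ha1, hb1, ?_, ?_⟩
    · have : a n ≤ b n ^ 2 * a n := Nat.le_mul_of_pos_left _ (by positivity)
      omega
    · have h3 : b n ≤ b n ^ 2 := Nat.le_self_pow (by norm_num) _
      have : b n ^ 2 ≤ b n ^ 2 * a n := Nat.le_mul_of_pos_right _ ha1
      omega
  set F : ℕ × ℕ → ℝ := fun z => hf h z.1 / (z.1 : ℝ) * (1 / (z.2 : ℝ) ^ 2) with hF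
  have hF0 : ∀ z, 0 ≤ F z := fun z => by
    have := hf_nonneg h0 z.1
    simp only [hF]; positivity
  have h2 : ∑ n ∈ Icc 1 x, hf h n / (n : ℝ) ≤ ∑ n ∈ Icc 1 x, F (a n, b n) := by
    apply sum_le_sum
    intro n hn
    obtain ⟨g1, g2, _, _⟩ := hpos n hn
    rw [mem_Icc] at hn
    have g1' : (0 : ℝ) < a n := by exact_mod_cast g1
    have g2' : (0 : ℝ) < b n := by exact_mod_cast g2
    have e : (n : ℝ) = (b n : ℝ) ^ 2 * a n := by exact_mod_cast (hab n).symm
    have h3 : hf h n ≤ hf h (a n) := hf_dvd h0 h1 (by omega) ⟨b n ^ 2, by rw [mul_comm]; exact (hab n).symm⟩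
    simp only [hF]
    have e2 : hf h (a n) / (a n : ℝ) * (1 / (b n : ℝ) ^ 2) = hf h (a n) / n := by
      rw [e]; field_simp
    rw [e2]
    exact div_le_div_of_nonneg_right h3 (Nat.cast_nonneg _)
  refine h2.trans ?_
  have hinj : Set.InjOn (fun n => (a n, b n)) (Icc 1 x : Set ℕ) := by
    intro n _ m _ hh
    simp only [Prod.mk.injEq] at hh
    rw [← hab n, ← hab m, hh.1, hh.2]
  have h3 : ∑ n ∈ Icc 1 x, F (a n, b n) ≤ ∑ z ∈ (Icc 1 x).filter Squarefree ×ˢ Icc 1 x, F z := by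
    rw [← sum_image (f := F) hinj]
    apply sum_le_sum_of_subset_of_nonneg
    · intro z hz
      rw [mem_image] at hz
      obtain ⟨n, hn, rfl⟩ := hz
      obtain ⟨g1, g2, g3, g4⟩ := hpos n hn
      rw [mem_product, mem_filter, mem_Icc, mem_Icc]
      exact ⟨⟨⟨g1, g3⟩, ha n⟩, g2, g4⟩
    · intro z _ _; exact hF0 z
  refine h3.trans ?_
  rw [sum_product]
  simp only [hF]
  have h4 : ∀ m ∈ (Icc 1 x).filter Squarefree, ∑ b ∈ Icc 1 x, hf h m / (m : ℝ) * (1 / (b : ℝ) ^ 2) ≤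
      2 * (hf h m / (m : ℝ)) := by
    intro m _
    rw [← mul_sum, mul_comm]
    have := hf_nonneg h0 m
    exact mul_le_mul_of_nonneg_right (sum_sq_inv x) (by positivity)
  refine (sum_le_sum h4).trans (le_of_eq ?_)
  rw [← mul_sum]

/-- the weight has positive relative lower density on the primes -/
def HypD (c : ℝ) (x0 : ℕ) (h : ℕ → ℝ) : Prop :=
  ∀ x : ℕ, x0 ≤ x → c * (x / Real.log x) ≤ ∑ p ∈ PN x, h p

/-- multiplicative functions on squarefree integers -/
theorem mul_sqf {h : ℕ → ℝ} (h1 : h 1 = 1) (hm : ∀ m n : ℕ, Nat.Coprime m n → h (m * n) = h m * h n) {n : ℕ}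
    (hn : Squarefree n) : h n = hf h n := by
  induction n using Nat.recOnPosPrimePosCoprime with
  | zero => exact absurd hn (by simp)
  | one => rw [h1]; simp [hf]
  | prime_pow p k hp hk =>
    have : k = 1 := by
      rcases Nat.lt_or_ge 1 k with h2 | h2
      · exfalso
        have h3 := Nat.squarefree_pow_iff hp.ne_one (by omega : k ≠ 0) |>.1 hn
        omega
      · omega
    rw [this, pow_one]
    unfold hf
    rw [hp.primeFactors, prod_singleton]
  | coprime a b ha hb hab iha ihb =>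
    rw [hm a b hab, hf_mul h hab, iha (hn.of_mul_left), ihb (hn.of_mul_right)]

end Pool.Agent.Y964.SE
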