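import Pool.Agent.Y964.SE.Sv

/-! The identity of Ramaré: from sums over integers to sums over products. -/

set_option autoImplicit false

namespace Pool.Agent.Y964.SE

open Finset
open scoped Classical

/-- the members of `EA A` up to `x` -/
noncomputable def FA (A : Set ℕ) (x : ℝ) : Finset ℕ := (Icc 1 ⌊x⌋₊).filter (fun m => m ∈ EA A)

theorem FA_mono (A : Set ℕ) {x y : ℝ} (h : x ≤ y) : FA A x ⊆ FA A y := by
  intro m hm
  unfold FA at hm ⊢
  rw [mem_filter, mem_Icc] at hm ⊢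
  exact ⟨⟨hm.1.1, hm.1.2.trans (Nat.floor_le_floor h)⟩, hm.2⟩

theorem mem_FA {A : Set ℕ} {x : ℝ} {n : ℕ} : n ∈ FA A x ↔ n ≤ ⌊x⌋₊ ∧ n ∈ EA A := by
  unfold FA
  rw [mem_filter, mem_Icc]
  constructor
  · rintro ⟨⟨_, h⟩, h'⟩; exact ⟨h, h'⟩
  · rintro ⟨h, h'⟩; exact ⟨⟨h'.1, h⟩, h'⟩

theorem mem_FA_nat {A : Set ℕ} {N n : ℕ} : n ∈ FA A N ↔ n ≤ N ∧ n ∈ EA A := by
  rw [mem_FA, Nat.floor_natCast]

/-- the number of the prime factors in `R` -/
noncomputable def om (R : Finset ℕ) (n : ℕ) : ℕ := #(R.filter (fun p => p ∣ n))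

theorem om_mul {R : Finset ℕ} (hR : ∀ p ∈ R, p.Prime) {p m : ℕ} (hp : p ∈ R) (h : ¬ p ∣ m) :
    om R (p * m) = om R m + 1 := by
  unfold om
  have e : R.filter (fun q => q ∣ p * m) = insert p (R.filter (fun q => q ∣ m)) := by
    ext q
    rw [mem_filter, mem_insert, mem_filter]
    constructor
    · rintro ⟨h1, h2⟩
      rcases (hR q h1).dvd_or_dvd h2 with h3 | h3
      · exact Or.inl ((Nat.prime_dvd_prime_iff_eq (hR q h1) (hR p hp)).1 h3)
      · exact Or.inr ⟨h1, h3⟩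
    · rintro (rfl | ⟨h1, h2⟩)
      · exact ⟨hp, dvd_mul_right _ _⟩
      · exact ⟨h1, dvd_mul_of_dvd_right h2 _⟩
  rw [e, card_insert_of_notMem]
  rw [mem_filter]
  exact fun h2 => h h2.2

theorem EA_mul {A : Set ℕ} {p m : ℕ} (hp : p.Prime) : p * m ∈ EA A ↔ p ∈ A ∧ m ∈ EA A := by
  constructor
  · rintro ⟨h1, h2⟩
    have hm : 1 ≤ m := by
      rcases Nat.eq_zero_or_pos m with h | h
      · rw [h, mul_zero] at h1; omega
      · exact h
    exact ⟨h2 p hp (dvd_mul_right _ _), hm, fun q hq hqm => h2 q hq (dvd_mul_of_dvd_right hqm _)⟩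
  · rintro ⟨h1, h2, h3⟩
    refine ⟨Nat.mul_pos hp.pos h2, fun q hq hqm => ?_⟩
    rcases hq.dvd_or_dvd hqm with h4 | h4
    · rw [(Nat.prime_dvd_prime_iff_eq hq hp).1 h4]; exact h1
    · exact h3 q hq h4

theorem ramare (A : Set ℕ) (N : ℕ) (R : Finset ℕ) (hR : ∀ p ∈ R, p.Prime) (f g : ℕ → ℂ)
    (hf : ∀ n, ‖f n‖ ≤ 1) (hg : ∀ n, ‖g n‖ ≤ 1) (hgm : ∀ m n : ℕ, Nat.Coprime m n → g (m * n) = g m * g n) :
    ‖∑ n ∈ FA A N, f n * g n‖ ≤ #(FA (A \ {p | p ∈ R}) N) +
      2 * ∑ p ∈ R.filter (fun p => p ∈ A), (#((FA A N).filter (fun m => p * m ≤ N ∧ p ∣ m)) : ℝ) +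
      ∑ m ∈ FA A N, ‖∑ p ∈ R.filter (fun p => p ∈ A ∧ p * m ≤ N), g p * f (p * m)‖ := by
  set G : ℕ → ℂ := fun n => f n * g n / (om R n : ℂ) with hG
  have hfg : ∀ n, ‖f n * g n‖ ≤ 1 := fun n => by
    rw [norm_mul]; exact mul_le_one₀ (hf n) (norm_nonneg _) (hg n)
  -- splitting
  have e1 : ∑ n ∈ FA A N, f n * g n = ∑ n ∈ (FA A N).filter (fun n => om R n = 0), f n * g n +
      ∑ n ∈ FA A N, ∑ p ∈ R.filter (fun p => p ∣ n), G n := by
    rw [← sum_filter_add_sum_filter_not (FA A N) (fun n => om R n = 0) (fun n => f n * g n)]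
    congr 1
    rw [sum_filter]
    apply sum_congr rfl
    intro n _
    rw [sum_const, nsmul_eq_mul]
    change _ = (om R n : ℂ) * G n
    by_cases h : om R n = 0
    · rw [if_neg (not_not.2 h), h]; simp
    · rw [if_pos h]
      simp only [hG]
      have : (om R n : ℂ) ≠ 0 := by exact_mod_cast h
      field_simp
  have e2 : ∑ n ∈ FA A N, ∑ p ∈ R.filter (fun p => p ∣ n), G n =
      ∑ p ∈ R.filter (fun p => p ∈ A), ∑ m ∈ (FA A N).filter (fun m => p * m ≤ N), G (p * m) := by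
    have h1 : ∑ n ∈ FA A N, ∑ p ∈ R.filter (fun p => p ∣ n), G n =
        ∑ p ∈ R, ∑ n ∈ (FA A N).filter (fun n => p ∣ n), G n := by
      simp only [sum_filter]
      rw [sum_comm]
    rw [h1, sum_filter]
    apply sum_congr rfl
    intro p hp
    have hpp := hR p hp
    split_ifs with hpA
    · symm
      apply sum_nbij' (fun m => p * m) (fun n => n / p)
      · intro m hm
        rw [mem_filter, mem_FA_nat] at hm
        rw [mem_filter, mem_FA_nat]
        exact ⟨⟨hm.2, (EA_mul hpp).2 ⟨hpA, hm.1.2⟩⟩, dvd_mul_right _ _⟩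
      · intro n hn
        rw [mem_filter, mem_FA_nat] at hn
        obtain ⟨⟨h2, h3⟩, m, rfl⟩ := hn
        show p * m / p ∈ _
        rw [Nat.mul_div_cancel_left _ hpp.pos, mem_filter, mem_FA_nat]
        exact ⟨⟨(Nat.le_mul_of_pos_left m hpp.pos).trans h2, ((EA_mul hpp).1 h3).2⟩, h2⟩
      · intro m _
        exact Nat.mul_div_cancel_left _ hpp.pos
      · intro n hn
        rw [mem_filter] at hn
        exact Nat.mul_div_cancel' hn.2
      · intro m _; rfl
    · apply sum_eq_zero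
      intro n hn
      rw [mem_filter, mem_FA_nat] at hn
      exact absurd (hn.1.2.2 p hpp hn.2) hpA
  set T : ℂ := ∑ p ∈ R.filter (fun p => p ∈ A), ∑ m ∈ (FA A N).filter (fun m => p * m ≤ N),
    g p * g m * f (p * m) / ((om R m : ℂ) + 1) with hT
  have e3 : T = ∑ m ∈ FA A N, g m / ((om R m : ℂ) + 1) *
      ∑ p ∈ R.filter (fun p => p ∈ A ∧ p * m ≤ N), g p * f (p * m) := by
    rw [hT]
    simp only [sum_filter, mul_sum]
    have h1 : ∀ p ∈ R, (if p ∈ A then ∑ m ∈ FA A N, (if p * m ≤ N then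
        g p * g m * f (p * m) / ((om R m : ℂ) + 1) else 0) else 0) =
        ∑ m ∈ FA A N, g m / ((om R m : ℂ) + 1) * (if p ∈ A ∧ p * m ≤ N then g p * f (p * m) else 0) := by
      intro p _
      split_ifs with h
      · apply sum_congr rfl
        intro m _
        by_cases h2 : p * m ≤ N
        · rw [if_pos h2, if_pos ⟨h, h2⟩]; ring
        · rw [if_neg h2, if_neg (fun h3 => h2 h3.2)]; ring
      · symm
        apply sum_eq_zero
        intro m _
        rw [if_neg (fun h3 => h h3.1)]; ring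
    rw [sum_congr rfl h1, sum_comm]
  have hTn : ‖T‖ ≤ ∑ m ∈ FA A N, ‖∑ p ∈ R.filter (fun p => p ∈ A ∧ p * m ≤ N), g p * f (p * m)‖ := by
    rw [e3]
    refine (norm_sum_le _ _).trans (sum_le_sum fun m _ => ?_)
    rw [norm_mul]
    apply mul_le_of_le_one_left (norm_nonneg _)
    have h1 : ‖(om R m : ℂ) + 1‖ = (om R m : ℝ) + 1 := by
      have : (om R m : ℂ) + 1 = (((om R m : ℝ) + 1 : ℝ) : ℂ) := by push_cast; ring
      rw [this, Complex.norm_real, Real.norm_eq_abs, abs_of_nonneg (by positivity)]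
    rw [norm_div, h1, div_le_one (by positivity)]
    have : (0 : ℝ) ≤ om R m := Nat.cast_nonneg _
    linarith [hg m]
  have hdiff : ‖∑ p ∈ R.filter (fun p => p ∈ A), ∑ m ∈ (FA A N).filter (fun m => p * m ≤ N), G (p * m) - T‖ ≤
      2 * ∑ p ∈ R.filter (fun p => p ∈ A), (#((FA A N).filter (fun m => p * m ≤ N ∧ p ∣ m)) : ℝ) := by
    rw [hT, ← sum_sub_distrib, mul_sum]
    refine (norm_sum_le _ _).trans (sum_le_sum fun p hp => ?_)
    rw [mem_filter] at hp
    have hpp := hR p hp.1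
    rw [← sum_sub_distrib]
    have h1 : ∀ m ∈ (FA A N).filter (fun m => p * m ≤ N),
        ‖G (p * m) - g p * g m * f (p * m) / ((om R m : ℂ) + 1)‖ ≤ if p ∣ m then 2 else 0 := by
      intro m _
      split_ifs with h
      · have hom : 1 ≤ om R (p * m) := by
          unfold om
          apply card_pos.2
          exact ⟨p, mem_filter.2 ⟨hp.1, dvd_mul_right _ _⟩⟩
        have h2 : ‖G (p * m)‖ ≤ 1 := by
          simp only [hG]
          rw [norm_div, Complex.norm_natCast]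
          apply div_le_one_of_le₀ _ (Nat.cast_nonneg _)
          refine (hfg _).trans ?_
          exact_mod_cast hom
        have h3 : ‖g p * g m * f (p * m) / ((om R m : ℂ) + 1)‖ ≤ 1 := by
          have h4 : ‖(om R m : ℂ) + 1‖ = (om R m : ℝ) + 1 := by
            have : (om R m : ℂ) + 1 = (((om R m : ℝ) + 1 : ℝ) : ℂ) := by push_cast; ring
            rw [this, Complex.norm_real, Real.norm_eq_abs, abs_of_nonneg (by positivity)]
          rw [norm_div, h4, norm_mul, norm_mul]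
          apply div_le_one_of_le₀ _ (by positivity)
          have h5 : ‖g p‖ * ‖g m‖ ≤ 1 := mul_le_one₀ (hg p) (norm_nonneg _) (hg m)
          have h6 : ‖g p‖ * ‖g m‖ * ‖f (p * m)‖ ≤ 1 := mul_le_one₀ h5 (norm_nonneg _) (hf _)
          have : (0 : ℝ) ≤ om R m := Nat.cast_nonneg _
          linarith
        refine (norm_sub_le _ _).trans ?_
        linarith
      · simp only [hG]
        rw [om_mul hR hp.1 h, hgm p m ((Nat.Prime.coprime_iff_not_dvd hpp).2 h)]
        push_cast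
        have : f (p * m) * (g p * g m) / ((om R m : ℂ) + 1) - g p * g m * f (p * m) / ((om R m : ℂ) + 1) = 0 := by
          ring
        rw [this, norm_zero]
    refine (norm_sum_le _ _).trans ((sum_le_sum h1).trans (le_of_eq ?_))
    rw [← sum_filter, sum_const, nsmul_eq_mul, filter_filter, mul_comm]
  have h0 : ‖∑ n ∈ (FA A N).filter (fun n => om R n = 0), f n * g n‖ ≤ #(FA (A \ {p | p ∈ R}) N) := by
    refine (norm_sum_le _ _).trans ((sum_le_sum fun n _ => hfg n).trans ?_)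
    rw [sum_const, nsmul_eq_mul, mul_one]
    have : (FA A N).filter (fun n => om R n = 0) ⊆ FA (A \ {p | p ∈ R}) N := by
      intro n hn
      rw [mem_filter, mem_FA_nat] at hn
      rw [mem_FA_nat]
      refine ⟨hn.1.1, hn.1.2.1, fun p hp hpn => ⟨hn.1.2.2 p hp hpn, fun hpR => ?_⟩⟩
      have h2 := hn.2
      unfold om at h2
      rw [card_eq_zero] at h2
      have h3 : p ∈ R.filter (fun p => p ∣ n) := mem_filter.2 ⟨hpR, hpn⟩
      rw [h2] at h3
      exact absurd h3 (notMem_empty _)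
    exact_mod_cast card_le_card this
  have e4 : ∑ n ∈ FA A N, f n * g n = ∑ n ∈ (FA A N).filter (fun n => om R n = 0), f n * g n +
      (∑ p ∈ R.filter (fun p => p ∈ A), ∑ m ∈ (FA A N).filter (fun m => p * m ≤ N), G (p * m) - T) + T := by
    rw [e1, e2]; ring
  rw [e4]
  refine (norm_add_le _ _).trans (add_le_add ((norm_add_le _ _).trans (add_le_add h0 hdiff)) hTn)

end Pool.Agent.Y964.SE
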