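import Mathlib

/-! The squarefull part of an integer. -/

set_option autoImplicit false

namespace Pool.Agent.Y964.SE

open Finset
open scoped Classical

/-- squarefull integers -/
def SFl (q : ℕ) : Prop := ∀ p : ℕ, p.Prime → p ∣ q → p ^ 2 ∣ q

theorem SFl_left {a b : ℕ} (hab : Nat.Coprime a b) (h : SFl (a * b)) : SFl a := by
  intro p hp hpa
  have h1 := h p hp (dvd_mul_of_dvd_left hpa _)
  have h2 : Nat.Coprime (p ^ 2) b := Nat.Coprime.coprime_dvd_left (pow_dvd_pow_of_dvd hpa 2)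
    (Nat.Coprime.pow_left 2 hab)
  exact h2.dvd_of_dvd_mul_right h1

theorem SFl_mul {a b : ℕ} (ha : SFl a) (hb : SFl b) : SFl (a * b) := by
  intro p hp h
  rcases hp.dvd_or_dvd h with h1 | h1
  · exact dvd_mul_of_dvd_left (ha p hp h1) _
  · exact dvd_mul_of_dvd_right (hb p hp h1) _

theorem SFl_rep (n : ℕ) : SFl n → ∃ a b : ℕ, n = a ^ 3 * b ^ 2 := by
  induction n using Nat.recOnPosPrimePosCoprime with
  | zero => intro _; exact ⟨0, 0, by simp⟩
  | one => intro _; exact ⟨1, 1, by simp⟩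
  | prime_pow p k hp hk =>
    intro h
    have hk2 : 2 ≤ k := by
      have h1 := h p hp (dvd_pow_self p (by omega))
      exact (Nat.pow_dvd_pow_iff_le_right hp.one_lt).1 h1
    rcases Nat.even_or_odd k with ⟨j, hj⟩ | ⟨j, hj⟩
    · refine ⟨1, p ^ j, ?_⟩
      rw [one_pow, one_mul, ← pow_mul, hj]
      congr 1; ring
    · refine ⟨p, p ^ (j - 1), ?_⟩
      rw [← pow_mul, ← pow_add, hj]
      congr 1; omega
  | coprime a b ha hb hab iha ihb =>
    intro h
    obtain ⟨a1, b1, h1⟩ := iha (SFl_left hab h)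
    obtain ⟨a2, b2, h2⟩ := ihb (SFl_left hab.symm (by rw [mul_comm]; exact h))
    exact ⟨a1 * a2, b1 * b2, by rw [h1, h2]; ring⟩

/-- the decomposition -/
theorem sf_exists (n : ℕ) : 1 ≤ n → ∃ q m : ℕ, SFl q ∧ Squarefree m ∧ Nat.Coprime q m ∧ q * m = n := by
  induction n using Nat.recOnPosPrimePosCoprime with
  | zero => intro h; omega
  | one => intro _; exact ⟨1, 1, fun p hp h => absurd (Nat.dvd_one.1 h) hp.ne_one, squarefree_one, by simp, by simp⟩
  | prime_pow p k hp hk =>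
    intro _
    rcases Nat.lt_or_ge 1 k with h | h
    · refine ⟨p ^ k, 1, ?_, squarefree_one, by simp, by simp⟩
      intro q hq hqp
      have : q = p := (Nat.prime_dvd_prime_iff_eq hq hp).1 (hq.dvd_of_dvd_pow hqp)
      rw [this]
      exact pow_dvd_pow p h
    · have hk1 : k = 1 := by omega
      refine ⟨1, p ^ k, fun p hp h => absurd (Nat.dvd_one.1 h) hp.ne_one, ?_, by simp, by simp⟩
      rw [hk1, pow_one]
      exact hp.prime.squarefree
  | coprime a b ha hb hab iha ihb =>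
    intro _
    obtain ⟨q1, m1, h1, h2, h3, h4⟩ := iha (by omega)
    obtain ⟨q2, m2, k1, k2, k3, k4⟩ := ihb (by omega)
    have c1 : Nat.Coprime q1 b := Nat.Coprime.coprime_dvd_left (Dvd.intro _ h4) hab
    have c2 : Nat.Coprime m1 b := Nat.Coprime.coprime_dvd_left (Dvd.intro_left _ h4) hab
    have c3 : Nat.Coprime q1 m2 := Nat.Coprime.coprime_dvd_right (Dvd.intro_left _ k4) c1
    have c4 : Nat.Coprime m1 m2 := Nat.Coprime.coprime_dvd_right (Dvd.intro_left _ k4) c2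
    have c5 : Nat.Coprime m1 q2 := Nat.Coprime.coprime_dvd_right (Dvd.intro _ k4) c2
    refine ⟨q1 * q2, m1 * m2, SFl_mul h1 k1, (Nat.squarefree_mul c4).2 ⟨h2, k2⟩, ?_, ?_⟩
    · apply Nat.Coprime.mul_left
      · exact Nat.Coprime.mul_right h3 c3
      · exact Nat.Coprime.mul_right c5.symm k3
    · rw [← h4, ← k4]; ring

theorem sf_fact {q m : ℕ} (hq0 : q ≠ 0) (hm0 : m ≠ 0) (hq : SFl q) (hm : Squarefree m) (hqm : Nat.Coprime q m)
    {p : ℕ} (hp : p.Prime) :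
    q.factorization p = if 2 ≤ (q * m).factorization p then (q * m).factorization p else 0 := by
  rw [Nat.factorization_mul hq0 hm0, Finsupp.add_apply]
  by_cases h : p ∣ q
  · have h1 : 2 ≤ q.factorization p := (hp.pow_dvd_iff_le_factorization hq0).1 (hq p hp h)
    have h2 : m.factorization p = 0 := by
      apply Nat.factorization_eq_zero_of_not_dvd
      intro h3
      have h4 := Nat.dvd_gcd h h3
      rw [hqm] at h4
      exact hp.ne_one (Nat.dvd_one.1 h4)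
    rw [h2, add_zero, if_pos h1]
  · have h1 : q.factorization p = 0 := Nat.factorization_eq_zero_of_not_dvd h
    have h2 := hm.natFactorization_le_one p
    rw [h1, zero_add, if_neg (by omega)]

theorem sf_unique {q m q' m' : ℕ} (hq0 : q ≠ 0) (hm0 : m ≠ 0) (hq0' : q' ≠ 0) (hm0' : m' ≠ 0)
    (hq : SFl q) (hm : Squarefree m) (hqm : Nat.Coprime q m)
    (hq' : SFl q') (hm' : Squarefree m') (hqm' : Nat.Coprime q' m') (h : q * m = q' * m') : q = q' := by
  apply Nat.eq_of_factorization_eq hq0 hq0'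
  intro p
  by_cases hp : p.Prime
  · rw [sf_fact hq0 hm0 hq hm hqm hp, sf_fact hq0' hm0' hq' hm' hqm' hp, h]
  · rw [Nat.factorization_eq_zero_of_not_prime _ hp, Nat.factorization_eq_zero_of_not_prime _ hp]

theorem decomp {E : Type*} [AddCommMonoid E] (N : ℕ) (F : ℕ → E) :
    ∑ n ∈ Icc 1 N, F n = ∑ q ∈ (Icc 1 N).filter SFl,
      ∑ m ∈ (Icc 1 (N / q)).filter (fun m => Squarefree m ∧ Nat.Coprime q m), F (q * m) := by
  rw [sum_sigma']
  symm
  apply sum_nbij (fun z => z.1 * z.2)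
  · rintro ⟨q, m⟩ hz
    rw [mem_sigma, mem_filter, mem_filter, mem_Icc, mem_Icc] at hz
    obtain ⟨⟨⟨h1, h2⟩, h3⟩, ⟨h4, h5⟩, h6, h7⟩ := hz
    rw [mem_Icc]
    refine ⟨Nat.mul_pos h1 h4, ?_⟩
    have := (Nat.le_div_iff_mul_le h1).1 h5
    simp only at this ⊢
    rw [mul_comm]; exact this
  · rintro ⟨q, m⟩ hz ⟨q', m'⟩ hz' hh
    rw [mem_coe, mem_sigma, mem_filter, mem_filter, mem_Icc, mem_Icc] at hz hz'
    obtain ⟨⟨⟨h1, h2⟩, h3⟩, ⟨h4, h5⟩, h6, h7⟩ := hz
    obtain ⟨⟨⟨k1, k2⟩, k3⟩, ⟨k4, k5⟩, k6, k7⟩ := hz'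
    simp only at h1 h2 h3 h4 h5 h6 h7 k1 k2 k3 k4 k5 k6 k7 hh
    have e : q = q' := sf_unique (by omega) (by omega) (by omega) (by omega) h3 h6 h7 k3 k6 k7 hh
    subst e
    have e2 : m = m' := Nat.eq_of_mul_eq_mul_left h1 hh
    subst e2
    rfl
  · intro n hn
    rw [mem_coe, mem_Icc] at hn
    obtain ⟨q, m, h1, h2, h3, h4⟩ := sf_exists n hn.1
    have hq : 1 ≤ q := by
      rcases Nat.eq_zero_or_pos q with h | h
      · rw [h, zero_mul] at h4; omega
      · exact h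
    have hm : 1 ≤ m := by
      rcases Nat.eq_zero_or_pos m with h | h
      · rw [h, mul_zero] at h4; omega
      · exact h
    refine ⟨⟨q, m⟩, ?_, h4⟩
    rw [mem_coe, mem_sigma, mem_filter, mem_filter, mem_Icc, mem_Icc]
    refine ⟨⟨⟨hq, ?_⟩, h1⟩, ⟨hm, ?_⟩, h2, h3⟩
    · have := Nat.le_mul_of_pos_right q hm
      show q ≤ N
      omega
    · rw [Nat.le_div_iff_mul_le hq, mul_comm, h4]; exact hn.2
  · intro _ _; rfl

/-- the tail of the sum of the reciprocals of the squarefull integers -/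
theorem sf_tail : ∃ C : ℝ, 1 ≤ C ∧ ∀ Q N : ℕ, 1 ≤ Q →
    ∑ q ∈ (Icc 1 N).filter (fun q => SFl q ∧ Q < q), 1 / (q : ℝ) ≤ C * (Q : ℝ) ^ (-(1 / 8) : ℝ) := by
  have hs : Summable (fun n : ℕ => 1 / (n : ℝ) ^ (7 / 4 : ℝ)) := Real.summable_one_div_nat_rpow.2 (by norm_num)
  set s : ℝ := ∑' n : ℕ, 1 / (n : ℝ) ^ (7 / 4 : ℝ) with hsd
  have hs0 : 0 ≤ s := tsum_nonneg fun n => by positivity
  refine ⟨s ^ 2 + 1, by nlinarith, fun Q N hQ => ?_⟩
  choose! a b hab using SFl_rep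
  have hQ0 : (0 : ℝ) < Q := by exact_mod_cast hQ
  set T := (Icc 1 N).filter (fun q => SFl q ∧ Q < q) with hT
  set F : ℕ × ℕ → ℝ := fun z => 1 / (z.1 : ℝ) ^ (7 / 4 : ℝ) * (1 / (z.2 : ℝ) ^ (7 / 4 : ℝ)) with hF
  have hpos : ∀ q ∈ T, 1 ≤ a q ∧ 1 ≤ b q ∧ a q ≤ N ∧ b q ≤ N := by
    intro q hq
    rw [hT, mem_filter, mem_Icc] at hq
    have h2 := hab q hq.2.1
    have ha1 : 1 ≤ a q := by
      rcases Nat.eq_zero_or_pos (a q) with h | h
      · rw [h] at h2; simp at h2; omega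
      · exact h
    have hb1 : 1 ≤ b q := by
      rcases Nat.eq_zero_or_pos (b q) with h | h
      · rw [h] at h2; simp at h2; omega
      · exact h
    have g1 : a q ≤ a q ^ 3 := Nat.le_self_pow (by norm_num) _
    have g2 : b q ≤ b q ^ 2 := Nat.le_self_pow (by norm_num) _
    have g3 : a q ^ 3 ≤ a q ^ 3 * b q ^ 2 := Nat.le_mul_of_pos_right _ (by positivity)
    have g4 : b q ^ 2 ≤ a q ^ 3 * b q ^ 2 := Nat.le_mul_of_pos_left _ (by positivity)
    refine ⟨ha1, hb1, ?_, ?_⟩ <;> omega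
  have h1 : ∀ q ∈ T, 1 / (q : ℝ) ≤ (Q : ℝ) ^ (-(1 / 8) : ℝ) * F (a q, b q) := by
    intro q hq
    obtain ⟨g1, g2, _, _⟩ := hpos q hq
    rw [hT, mem_filter, mem_Icc] at hq
    have hq0 : (0 : ℝ) < q := by exact_mod_cast (by omega : 0 < q)
    have ga : (0 : ℝ) < a q := by exact_mod_cast g1
    have gb : (0 : ℝ) < b q := by exact_mod_cast g2
    have ga1 : (1 : ℝ) ≤ a q := by exact_mod_cast g1
    have e : (q : ℝ) = (a q : ℝ) ^ (3 : ℝ) * (b q : ℝ) ^ (2 : ℝ) := by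
      have h3 : q = a q ^ 3 * b q ^ 2 := hab q hq.2.1
      have h4 : (q : ℝ) = ((a q ^ 3 * b q ^ 2 : ℕ) : ℝ) := by rw [← h3]
      rw [h4]
      push_cast
      rw [show (3 : ℝ) = ((3 : ℕ) : ℝ) by norm_num, show (2 : ℝ) = ((2 : ℕ) : ℝ) by norm_num,
        Real.rpow_natCast, Real.rpow_natCast]
    have e1 : 1 / (q : ℝ) = (q : ℝ) ^ (-(1 / 8) : ℝ) * (q : ℝ) ^ (-(7 / 8) : ℝ) := by
      rw [← Real.rpow_add hq0, one_div, ← Real.rpow_neg_one]
      norm_num
    rw [e1]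
    apply mul_le_mul
    · rw [Real.rpow_neg hq0.le, Real.rpow_neg hQ0.le]
      apply inv_anti₀ (by positivity)
      apply Real.rpow_le_rpow hQ0.le _ (by norm_num)
      exact_mod_cast hq.2.2.le
    · have e2 : (q : ℝ) ^ (-(7 / 8) : ℝ) = (a q : ℝ) ^ (-(21 / 8) : ℝ) * (b q : ℝ) ^ (-(7 / 4) : ℝ) := by
        rw [e, Real.mul_rpow (by positivity) (by positivity), ← Real.rpow_mul ga.le, ← Real.rpow_mul gb.le]
        norm_num
      rw [e2]
      simp only [hF]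
      rw [one_div, one_div, ← Real.rpow_neg ga.le, ← Real.rpow_neg gb.le]
      apply mul_le_mul_of_nonneg_right _ (by positivity)
      exact Real.rpow_le_rpow_of_exponent_le ga1 (by norm_num)
    · positivity
    · positivity
  refine (sum_le_sum h1).trans ?_
  rw [← mul_sum]
  have hinj : Set.InjOn (fun q => (a q, b q)) (T : Set ℕ) := by
    intro q hq q' hq' hh
    simp only [Prod.mk.injEq] at hh
    rw [mem_coe, hT, mem_filter] at hq hq'
    rw [hab q hq.2.1, hab q' hq'.2.1, hh.1, hh.2]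
  have h2 : ∑ q ∈ T, F (a q, b q) ≤ s ^ 2 := by
    rw [← sum_image (f := F) hinj]
    have h3 : T.image (fun q => (a q, b q)) ⊆ Icc 1 N ×ˢ Icc 1 N := by
      intro z hz
      rw [mem_image] at hz
      obtain ⟨q, hq, rfl⟩ := hz
      obtain ⟨g1, g2, g3, g4⟩ := hpos q hq
      rw [mem_product, mem_Icc, mem_Icc]
      exact ⟨⟨g1, g3⟩, g2, g4⟩
    refine (sum_le_sum_of_subset_of_nonneg h3 fun z _ _ => by simp only [hF]; positivity).trans ?_
    rw [sum_product]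
    simp only [hF]
    rw [← sum_mul_sum, sq]
    have h4 : ∑ n ∈ Icc 1 N, 1 / (n : ℝ) ^ (7 / 4 : ℝ) ≤ s := hs.sum_le_tsum _ fun n _ => by positivity
    exact mul_le_mul h4 h4 (sum_nonneg fun n _ => by positivity) hs0
  have h5 : 0 < (Q : ℝ) ^ (-(1 / 8) : ℝ) := by positivity
  nlinarith

end Pool.Agent.Y964.SE
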