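import Pool.Agent.W41.Core
import Pool.Agent.Helper112.Lp.Kmt

/-! Sieve bounds for the integers composed of primes of a set. -/

set_option autoImplicit false

namespace Pool.Agent.Y964.SE

open Finset Pool.Agent.W41
open scoped Classical

/-- the positive integers all of whose prime factors are in `A` -/
def EA (A : Set ℕ) : Set ℕ := {n | 1 ≤ n ∧ ∀ p : ℕ, p.Prime → p ∣ n → p ∈ A}

/-- the primes up to `n` outside `A` -/
noncomputable def PO (A : Set ℕ) (n : ℕ) : Finset ℕ := (range (n + 1)).filter (fun p => p.Prime ∧ p ∉ A)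

/-- the density of the integers without prime factors up to `n` outside `A` -/
noncomputable def kap (A : Set ℕ) (n : ℕ) : ℝ := V (PO A n)

theorem PO_prime {A : Set ℕ} {n : ℕ} : ∀ p ∈ PO A n, p.Prime := fun _ hp => (mem_filter.1 hp).2.1

theorem mem_PO {A : Set ℕ} {n p : ℕ} : p ∈ PO A n ↔ p ≤ n ∧ p.Prime ∧ p ∉ A := by
  unfold PO; rw [mem_filter, mem_range, Nat.lt_succ_iff]

theorem kap_pos (A : Set ℕ) (n : ℕ) : 0 < kap A n := V_pos PO_prime

theorem kap_le_one (A : Set ℕ) (n : ℕ) : kap A n ≤ 1 := V_le_one PO_prime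

theorem V_anti {P Q : Finset ℕ} (hQ : ∀ p ∈ Q, p.Prime) (h : P ⊆ Q) : V Q ≤ V P := by
  unfold V
  rw [← prod_sdiff h]
  have h1 : ∏ p ∈ Q \ P, (1 - 1 / (p : ℝ)) ≤ 1 :=
    prod_le_one (fun p hp => (fac_pos (hQ p (mem_sdiff.1 hp).1)).le) fun _ _ => fac_le_one
  have h2 : 0 ≤ ∏ p ∈ P, (1 - 1 / (p : ℝ)) := prod_nonneg fun p hp => (fac_pos (hQ p (h hp))).le
  nlinarith

theorem kap_anti (A : Set ℕ) {y n : ℕ} (h : y ≤ n) : kap A n ≤ kap A y := by
  apply V_anti PO_prime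
  intro p hp
  rw [mem_PO] at hp ⊢
  exact ⟨hp.1.trans h, hp.2⟩

/-- Mertens: bounds for `kap ∅` -/
theorem kap_mertens : ∃ C : ℝ, 1 ≤ C ∧ ∀ n : ℕ, 2 ≤ n →
    kap ∅ n ≤ C / Real.log n ∧ 1 / (C * Real.log n) ≤ kap ∅ n := by
  obtain ⟨c, C, hc, hC, h⟩ := Pool.Agent.Helper112.LP.mertens_prod
  refine ⟨max 1 (max (2 * C) (4 / c)), le_max_left _ _, fun n hn => ?_⟩
  set D : ℝ := max 1 (max (2 * C) (4 / c)) with hD
  have hD1 : 2 * C ≤ D := (le_max_left _ _).trans (le_max_right _ _)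
  have hD2 : 4 / c ≤ D := (le_max_right _ _).trans (le_max_right _ _)
  have hD0 : 0 < D := lt_of_lt_of_le one_pos (le_max_left _ _)
  have hn0 : (0 : ℝ) < n := by exact_mod_cast (by omega : 0 < n)
  have hlogn : 0 < Real.log n := Real.log_pos (by exact_mod_cast (by omega : 1 < n))
  have hl2 : 0 < Real.log 2 := Real.log_pos (by norm_num)
  have hl21 : Real.log 2 < 1 := by linarith [Real.log_two_lt_d9]
  have hl22 : 1 / 2 < Real.log 2 := by linarith [Real.log_two_gt_d9]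
  set a := Nat.log 2 n with ha
  have ha0 : a ≠ 0 := by
    have : 0 < Nat.log 2 n := Nat.log_pos (by norm_num) hn
    omega
  set J := Nat.log 2 a with hJ
  have h1 : 2 ^ a ≤ n := Nat.pow_log_le_self 2 (by omega)
  have h2 : n < 2 ^ (a + 1) := Nat.lt_pow_succ_log_self (by norm_num) n
  have h3 : 2 ^ J ≤ a := Nat.pow_log_le_self 2 ha0
  have h4 : a < 2 ^ (J + 1) := Nat.lt_pow_succ_log_self (by norm_num) a
  have h5 : 2 ^ 2 ^ J ≤ n := (Nat.pow_le_pow_right (by norm_num) h3).trans h1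
  have h6 : n < 2 ^ 2 ^ (J + 1) := h2.trans_le (Nat.pow_le_pow_right (by norm_num) h4)
  have g1 : (2 : ℝ) ^ J * Real.log 2 ≤ Real.log n := by
    have : Real.log ((2 : ℝ) ^ 2 ^ J) ≤ Real.log n :=
      Real.log_le_log (by positivity) (by exact_mod_cast h5)
    rw [Real.log_pow] at this
    push_cast at this
    exact this
  have g2 : Real.log n ≤ (2 : ℝ) ^ (J + 1) * Real.log 2 := by
    have : Real.log n ≤ Real.log ((2 : ℝ) ^ 2 ^ (J + 1)) :=
      Real.log_le_log hn0 (by exact_mod_cast h6.le)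
    rw [Real.log_pow] at this
    push_cast at this
    exact this
  have h2J : (0 : ℝ) < 2 ^ J := by positivity
  have e : ∀ m : ℕ, (range m).filter Nat.Prime ⊆ (range m) := fun m => filter_subset _ _
  constructor
  · have k1 : kap ∅ n ≤ C / 2 ^ J := by
      refine le_trans ?_ (h J).2
      unfold kap
      apply V_anti PO_prime
      intro p hp
      rw [mem_filter, mem_range] at hp
      rw [mem_PO]
      exact ⟨by omega, hp.2, Set.notMem_empty _⟩
    refine k1.trans ?_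
    rw [div_le_div_iff₀ h2J hlogn]
    have : Real.log n ≤ 2 * 2 ^ J := by
      rw [pow_succ] at g2; nlinarith
    nlinarith
  · have k1 : c / 2 ^ (J + 1) ≤ kap ∅ n := by
      refine le_trans (h (J + 1)).1 ?_
      unfold kap
      apply V_anti (fun p hp => (mem_filter.1 hp).2)
      intro p hp
      rw [mem_PO] at hp
      rw [mem_filter, mem_range]
      exact ⟨by omega, hp.2.1⟩
    refine le_trans ?_ k1
    rw [div_le_div_iff₀ (by positivity) (by positivity), one_mul, pow_succ]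
    have k2 : 4 ≤ c * D := by
      rw [div_le_iff₀ hc] at hD2; linarith
    have k3 : 2 ^ J ≤ 2 * Real.log n := by nlinarith
    nlinarith [mul_pos hc hD0]

/-- comparison of the densities at two levels -/
theorem kap_ratio : ∃ C : ℝ, 1 ≤ C ∧ ∀ (A : Set ℕ) (y n : ℕ), 2 ≤ y → y ≤ n →
    kap A y ≤ C * (Real.log n / Real.log y) * kap A n := by
  obtain ⟨C, hC, h⟩ := kap_mertens
  refine ⟨C * C, by nlinarith, fun A y n hy hyn => ?_⟩
  have hy0 : (0 : ℝ) < Real.log y := Real.log_pos (by exact_mod_cast (by omega : 1 < y))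
  have hn0 : (0 : ℝ) < Real.log n := Real.log_pos (by exact_mod_cast (by omega : 1 < n))
  have h1 := (h y hy).1
  have h2 := (h n (hy.trans hyn)).2
  have hsub : ∀ B : Set ℕ, PO B y ⊆ PO B n := fun B p hp => by
    rw [mem_PO] at hp ⊢; exact ⟨hp.1.trans hyn, hp.2⟩
  have e : ∀ B : Set ℕ, kap B n = (∏ p ∈ PO B n \ PO B y, (1 - 1 / (p : ℝ))) * kap B y := fun B => by
    unfold kap V
    rw [prod_sdiff (hsub B)]
  have h3 : (∏ p ∈ PO ∅ n \ PO ∅ y, (1 - 1 / (p : ℝ))) ≤ ∏ p ∈ PO A n \ PO A y, (1 - 1 / (p : ℝ)) := by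
    apply V_anti
    · intro p hp; exact PO_prime p (mem_sdiff.1 hp).1
    · intro p hp
      rw [mem_sdiff, mem_PO, mem_PO] at hp ⊢
      refine ⟨⟨hp.1.1, hp.1.2.1, Set.notMem_empty _⟩, fun h4 => hp.2 ⟨h4.1, hp.1.2⟩⟩
  have h4 : 1 / (C * Real.log n) ≤ (∏ p ∈ PO ∅ n \ PO ∅ y, (1 - 1 / (p : ℝ))) * (C / Real.log y) := by
    refine h2.trans ?_
    rw [e ∅]
    apply mul_le_mul_of_nonneg_left h1
    exact prod_nonneg fun p hp => (fac_pos (PO_prime p (mem_sdiff.1 hp).1)).le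
  have h5 : 1 ≤ C * C * (Real.log n / Real.log y) * ∏ p ∈ PO A n \ PO A y, (1 - 1 / (p : ℝ)) := by
    have h6 := mul_le_mul_of_nonneg_left (h4.trans (mul_le_mul_of_nonneg_right h3 (by positivity)))
      (show 0 ≤ C * Real.log n by positivity)
    have e1 : C * Real.log n * (1 / (C * Real.log n)) = 1 := by
      have : C ≠ 0 := by linarith
      field_simp
    rw [e1] at h6
    refine h6.trans (le_of_eq ?_)
    field_simp
  rw [e A]
  have := mul_le_mul_of_nonneg_right h5 (kap_pos A y).le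
  linarith

theorem V_erase {P : Finset ℕ} (hP : ∀ p ∈ P, p.Prime) : V (P.erase 2) ≤ 2 * V P := by
  by_cases h2 : 2 ∈ P
  · have e : V P = (1 - 1 / ((2 : ℕ) : ℝ)) * V (P.erase 2) := by
      unfold V; rw [mul_prod_erase P (fun p => 1 - 1 / (p : ℝ)) h2]
    rw [e]; push_cast
    have : 0 ≤ V (P.erase 2) := (V_pos fun p hp => hP p (mem_of_mem_erase hp)).le
    linarith
  · rw [erase_eq_of_notMem h2]
    have := V_pos hP
    linarith

/-- SIEVE: an upper bound for the multiples `r t` of the `t ∈ EA A` in a class modulo `2 ^ k`,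
in an interval. -/
theorem sieve_up {γ : ℝ} (hγ : 0 < γ) (hγ1 : γ ≤ 1) : ∃ K : ℝ, 1 ≤ K ∧ ∃ N0 : ℕ, 2 ≤ N0 ∧
    ∀ N : ℕ, N0 ≤ N → ∀ A : Set ℕ, ∀ r k b a L : ℕ, r % 2 = 1 → (r : ℝ) * 2 ^ k ≤ (N : ℝ) ^ (γ / 2) →
    (N : ℝ) ^ γ ≤ L →
    (#((Ico a (a + L)).filter (fun m => (∃ t ∈ EA A, m = r * t) ∧ m % 2 ^ k = b)) : ℝ) ≤
      K * kap A N * (L / (r * 2 ^ k)) := by
  obtain ⟨K0, y0, hK0, hy0, hF⟩ := fund_ap (show (0 : ℝ) < 1 by norm_num)
  obtain ⟨C, hC, hR⟩ := kap_ratio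
  have hK0R : (1 : ℝ) ≤ K0 := by exact_mod_cast hK0
  set η : ℝ := γ / (2 * K0) with hη
  have hη0 : 0 < η := by positivity
  have hη1 : η ≤ 1 / 2 := by
    rw [hη, div_le_div_iff₀ (by positivity) (by norm_num)]; linarith
  have ev : ∀ᶠ N : ℕ in Filter.atTop, (2 : ℝ) ≤ (N : ℝ) ^ (η / 2) ∧ (y0 : ℝ) + 1 ≤ (N : ℝ) ^ η ∧ 2 ≤ N := by
    have t1 := (tendsto_rpow_atTop (show 0 < η / 2 by positivity)).comp (tendsto_natCast_atTop_atTop (R := ℝ))
    have t2 := (tendsto_rpow_atTop hη0).comp (tendsto_natCast_atTop_atTop (R := ℝ))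
    exact (t1.eventually_ge_atTop _).and ((t2.eventually_ge_atTop _).and (Filter.eventually_ge_atTop 2))
  obtain ⟨N1, hN1⟩ := Filter.eventually_atTop.1 ev
  refine ⟨max 1 (16 * C * (2 / η)), le_max_left _ _, max 2 N1, le_max_left _ _,
    fun N hN A r k b a L hr hrk hL => ?_⟩
  obtain ⟨n1, n2, n3⟩ := hN1 N ((le_max_right _ _).trans hN)
  have hN0 : (0 : ℝ) < N := by exact_mod_cast (by omega : 0 < N)
  have hN1' : (1 : ℝ) ≤ N := by exact_mod_cast (by omega : 1 ≤ N)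
  have hlogN : 0 < Real.log N := Real.log_pos (by exact_mod_cast (by omega : 1 < N))
  have hr1 : 1 ≤ r := by omega
  have hr0 : (0 : ℝ) < r := by exact_mod_cast hr1
  have h2k : 0 < 2 ^ k := by positivity
  have h2kR : (0 : ℝ) < 2 ^ k := by positivity
  set y : ℕ := ⌊(N : ℝ) ^ η⌋₊ with hy
  have hyle : (y : ℝ) ≤ (N : ℝ) ^ η := Nat.floor_le (by positivity)
  have hylt : (N : ℝ) ^ η < y + 1 := Nat.lt_floor_add_one _
  have hyy0 : y0 ≤ y := by
    apply Nat.le_floor; linarith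
  have hy2 : 2 ≤ y := hy0.trans hyy0
  have hy2R : (2 : ℝ) ≤ y := by exact_mod_cast hy2
  have hyN : y ≤ N := by
    have : (y : ℝ) ≤ N := hyle.trans (by
      calc (N : ℝ) ^ η ≤ (N : ℝ) ^ (1 : ℝ) := Real.rpow_le_rpow_of_exponent_le hN1' (by linarith)
        _ = N := Real.rpow_one _)
    exact_mod_cast this
  have hlogy : η / 2 * Real.log N ≤ Real.log y := by
    rw [← Real.log_rpow hN0]
    apply Real.log_le_log (by positivity)
    have e1 : (N : ℝ) ^ η = (N : ℝ) ^ (η / 2) * (N : ℝ) ^ (η / 2) := by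
      rw [← Real.rpow_add hN0]; congr 1; ring
    have h0 : 0 < (N : ℝ) ^ (η / 2) := by positivity
    nlinarith
  have hlogy0 : 0 < Real.log y := Real.log_pos (by linarith)
  -- the level
  have hyK : (y : ℝ) ^ K0 ≤ (N : ℝ) ^ (γ / 2) := by
    calc (y : ℝ) ^ K0 ≤ ((N : ℝ) ^ η) ^ K0 := pow_le_pow_left₀ (by positivity) hyle _
      _ = (N : ℝ) ^ (γ / 2) := by
          rw [← Real.rpow_natCast, ← Real.rpow_mul hN0.le]
          congr 1
          rw [hη]; field_simp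
  set S := (Ico a (a + L)).filter (fun m => (∃ t ∈ EA A, m = r * t) ∧ m % 2 ^ k = b) with hS
  have hrhs : 0 ≤ max 1 (16 * C * (2 / η)) * kap A N * (L / (r * 2 ^ k)) := by
    have := kap_pos A N
    have : (0 : ℝ) ≤ max 1 (16 * C * (2 / η)) := le_trans zero_le_one (le_max_left _ _)
    positivity
  rcases S.eq_empty_or_nonempty with h0 | hne
  · rw [h0, card_empty, Nat.cast_zero]; exact hrhs
  obtain ⟨m0, hm0, hmin⟩ : ∃ m0 ∈ S, ∀ m ∈ S, m0 ≤ m := ⟨S.min' hne, S.min'_mem hne, fun p hp => S.min'_le p hp⟩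
  have hm0' := hm0
  rw [hS, mem_filter, mem_Ico] at hm0'
  obtain ⟨⟨m1, m2⟩, ⟨t0, ht0, e0⟩, m3⟩ := hm0'
  -- the other elements
  have hrep : ∀ m ∈ S, ∃ t ∈ EA A, m = r * t ∧ t = t0 + 2 ^ k * ((m - m0) / (r * 2 ^ k)) ∧
      m = m0 + r * 2 ^ k * ((m - m0) / (r * 2 ^ k)) ∧ m - m0 < L := by
    intro m hm
    have h1 := hmin m hm
    rw [hS, mem_filter, mem_Ico] at hm
    obtain ⟨⟨g1, g2⟩, ⟨t, ht, e1⟩, g3⟩ := hm
    have h2 : t0 ≤ t := by
      rw [e0, e1] at h1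
      exact Nat.le_of_mul_le_mul_left h1 hr1
    have h3 : m - m0 = r * (t - t0) := by rw [e0, e1, Nat.mul_sub]
    have h4 : 2 ^ k ∣ m - m0 := (Nat.modEq_iff_dvd' h1).1 (by
      unfold Nat.ModEq
      rw [g3, m3])
    have hco : Nat.Coprime (2 ^ k) r := by
      apply Nat.Coprime.pow_left
      rw [Nat.coprime_two_left]
      exact Nat.odd_iff.2 hr
    have h5 : 2 ^ k ∣ t - t0 := by
      rw [h3] at h4
      exact hco.dvd_of_dvd_mul_left h4
    obtain ⟨u, hu⟩ := h5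
    have h6 : (m - m0) / (r * 2 ^ k) = u := by
      rw [h3, hu]
      exact Nat.div_eq_of_eq_mul_right (by positivity) (by ring)
    refine ⟨t, ht, e1, ?_, ?_, by omega⟩
    · rw [h6]; omega
    · rw [h6]
      have : m = m0 + (m - m0) := by omega
      rw [this, h3, hu]
      ring_nf
  set X' : ℕ := L / (r * 2 ^ k) + 1 with hX'
  have hrk0 : 0 < r * 2 ^ k := Nat.mul_pos hr1 h2k
  have hrkR : (0 : ℝ) < (r : ℝ) * 2 ^ k := by positivity
  have hLrk : (N : ℝ) ^ (γ / 2) ≤ L / (r * 2 ^ k) := by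
    rw [le_div_iff₀ hrkR]
    calc (N : ℝ) ^ (γ / 2) * (r * 2 ^ k) ≤ (N : ℝ) ^ (γ / 2) * (N : ℝ) ^ (γ / 2) :=
          mul_le_mul_of_nonneg_left hrk (by positivity)
      _ = (N : ℝ) ^ γ := by rw [← Real.rpow_add hN0]; congr 1; ring
      _ ≤ L := hL
  have hX1 : (X' : ℝ) ≤ 2 * (L / (r * 2 ^ k)) := by
    have h1 : ((L / (r * 2 ^ k) : ℕ) : ℝ) ≤ (L : ℝ) / (r * 2 ^ k) := by
      have := @Nat.cast_div_le ℝ _ _ _ L (r * 2 ^ k)
      push_cast at this
      exact this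
    have h2 : 1 ≤ (L : ℝ) / (r * 2 ^ k) := le_trans (Real.one_le_rpow hN1' (by positivity)) hLrk
    rw [hX']; push_cast; linarith
  have hX2 : y ^ K0 ≤ X' := by
    have h1 : ((y ^ K0 : ℕ) : ℝ) < (X' : ℝ) := by
      push_cast
      refine lt_of_le_of_lt (hyK.trans hLrk) ?_
      rw [div_lt_iff₀ hrkR]
      have h2 : L < (L / (r * 2 ^ k) + 1) * (r * 2 ^ k) := by
        have := Nat.lt_div_mul_add (a := L) hrk0
        rw [Nat.add_mul, one_mul]; omega
      rw [← hX'] at h2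
      exact_mod_cast h2
    exact_mod_cast h1.le
  set P : Finset ℕ := (PO A y).erase 2 with hP
  have hPp : ∀ p ∈ P, p.Prime ∧ p ≤ y := fun p hp => by
    have := mem_PO.1 (mem_of_mem_erase hp)
    exact ⟨this.2.1, this.1⟩
  have hB : ∀ p ∈ P, ¬ (p : ℤ) ∣ ((2 ^ k : ℕ) : ℤ) := by
    intro p hp hd
    have h1 : p ∣ 2 ^ k := by exact_mod_cast hd
    have hpp := (hPp p hp).1
    have h2 := (Nat.prime_dvd_prime_iff_eq hpp Nat.prime_two).1 (hpp.dvd_of_dvd_pow h1)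
    rw [hP, mem_erase] at hp
    exact hp.1 h2
  have hfund := hF y hyy0 X' hX2 P hPp ((t0 : ℤ) - ((2 ^ k : ℕ) : ℤ)) ((2 ^ k : ℕ) : ℤ) hB
  have hcard : #S ≤ #((Icc 1 X').filter (fun n : ℕ => ∀ p ∈ P, ¬ (p : ℤ) ∣ (t0 : ℤ) - ((2 ^ k : ℕ) : ℤ) +
      ((2 ^ k : ℕ) : ℤ) * n)) := by
    apply card_le_card_of_injOn (fun m => (m - m0) / (r * 2 ^ k) + 1)
    · intro m hm
      rw [mem_coe] at hm
      obtain ⟨t, ht, e1, e2, e3, e4⟩ := hrep m hm
      rw [mem_coe, mem_filter, mem_Icc]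
      refine ⟨⟨Nat.le_add_left 1 _, ?_⟩, ?_⟩
      · have := Nat.div_le_div_right (c := r * 2 ^ k) e4.le
        show (m - m0) / (r * 2 ^ k) + 1 ≤ L / (r * 2 ^ k) + 1
        exact Nat.add_le_add_right this 1
      · intro p hp hd
        have e5 : (t0 : ℤ) - ((2 ^ k : ℕ) : ℤ) + ((2 ^ k : ℕ) : ℤ) * (((m - m0) / (r * 2 ^ k) + 1 : ℕ) : ℤ) =
            (t : ℤ) := by
          conv_rhs => rw [e2]
          push_cast
          ring
        rw [e5] at hd
        have hd' : p ∣ t := by exact_mod_cast hd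
        rw [hP, mem_erase, mem_PO] at hp
        exact hp.2.2.2 (ht.2 p hp.2.2.1 hd')
    · intro m hm m' hm' hh
      rw [mem_coe] at hm hm'
      obtain ⟨t, _, _, _, e3, _⟩ := hrep m hm
      obtain ⟨t', _, _, _, e3', _⟩ := hrep m' hm'
      simp only at hh
      have : (m - m0) / (r * 2 ^ k) = (m' - m0) / (r * 2 ^ k) := by omega
      rw [e3, e3', this]
  have hV0 : 0 < V P := V_pos fun p hp => (hPp p hp).1
  have hVP : V P ≤ 2 * (C * (2 / η) * kap A N) := by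
    refine (V_erase PO_prime).trans ?_
    apply mul_le_mul_of_nonneg_left _ (by norm_num)
    refine (hR A y N hy2 hyN).trans ?_
    apply mul_le_mul_of_nonneg_right _ (kap_pos A N).le
    apply mul_le_mul_of_nonneg_left _ (by linarith)
    rw [div_le_div_iff₀ hlogy0 hη0]
    linarith
  have h1 : (#S : ℝ) ≤ 2 * (X' * V P) := by
    have h2 := (abs_le.1 hfund).2
    have h3 : (#S : ℝ) ≤ _ := Nat.cast_le.2 hcard
    have h4 : ((#((Icc 1 X').filter (fun n : ℕ => ∀ p ∈ P, ¬ (p : ℤ) ∣ (t0 : ℤ) - ((2 ^ k : ℕ) : ℤ) +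
      ((2 ^ k : ℕ) : ℤ) * n)) : ℕ) : ℝ) ≤ 2 * (X' * V P) := by
      have e : ((#((Icc 1 X').filter (fun n : ℕ => ∀ p ∈ P, ¬ (p : ℤ) ∣ (t0 : ℤ) - ((2 ^ k : ℕ) : ℤ) +
        ((2 ^ k : ℕ) : ℤ) * n)) : ℕ) : ℝ) - X' * V P ≤ 1 * (X' * V P) := by convert h2 using 3
      linarith
    exact h3.trans h4
  refine h1.trans ?_
  have hk0 := kap_pos A N
  calc 2 * ((X' : ℝ) * V P) ≤ 2 * ((2 * (L / (r * 2 ^ k))) * (2 * (C * (2 / η) * kap A N))) := by
        apply mul_le_mul_of_nonneg_left _ (by norm_num)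
        exact mul_le_mul hX1 hVP hV0.le (by positivity)
    _ = (8 * C * (2 / η)) * kap A N * (L / (r * 2 ^ k)) := by ring
    _ ≤ max 1 (16 * C * (2 / η)) * kap A N * (L / (r * 2 ^ k)) := by
        apply mul_le_mul_of_nonneg_right _ (by positivity)
        apply mul_le_mul_of_nonneg_right _ hk0.le
        refine le_trans ?_ (le_max_right _ _)
        have : 0 < C * (2 / η) := by positivity
        linarith

end Pool.Agent.Y964.SE
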